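import Pool.Agent.N248.LC.Fin

set_option autoImplicit false
set_option linter.unusedSectionVars false

/-!
# Data in `L^q`: the full norm and the norms on typical sets of caps
-/

namespace Pool.Agent.N248.LC

open MeasureTheory Set
open Pool.Agent.N248.RC
open Pool.Agent.N248.RR (cub cub_meas cub_vol)
open scoped ENNReal

theorem log_four (ε R : ℝ) (hε : 0 < ε) (hR : 1 ≤ R) :
    Real.log R ^ 4 ≤ (8 / ε) ^ 4 * R ^ (ε / 2) := by
  have hR0 : 0 < R := by linarith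
  have hlog0 : 0 ≤ Real.log R := Real.log_nonneg hR
  have h1 := Real.log_le_rpow_div hR0.le (show 0 < ε / 8 by linarith)
  have h2 : Real.log R ≤ (8 / ε) * R ^ (ε / 8) := by
    refine h1.trans (le_of_eq ?_)
    field_simp
  calc Real.log R ^ 4 ≤ ((8 / ε) * R ^ (ε / 8)) ^ 4 := pow_le_pow_left₀ hlog0 h2 4
    _ = (8 / ε) ^ 4 * R ^ (ε / 2) := by
        rw [mul_pow, ← Real.rpow_natCast (R ^ (ε / 8)), ← Real.rpow_mul hR0.le]
        congr 2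
        push_cast
        ring

theorem two_rpow_le (x e : ℝ) (hx : 0 ≤ x) (he0 : 0 ≤ e) (he1 : e ≤ 1) :
    (2 * x) ^ e ≤ 2 * x ^ e := by
  rw [Real.mul_rpow (by norm_num) hx]
  refine mul_le_mul_of_nonneg_right ?_ (by positivity)
  calc (2 : ℝ) ^ e ≤ 2 ^ (1 : ℝ) := Real.rpow_le_rpow_of_exponent_le (by norm_num) he1
    _ = 2 := Real.rpow_one _

open Classical in
/-- from the full norm to typical sets -/
theorem fwdQ (s : ℝ) (hs : s ≠ 0) (U : Set P2) (hU : MeasurableSet U) (hUc : U ⊆ cub 2)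
    (q : ℝ) (hq : 2 ≤ q) (σ a : ℝ) (hσ : 0 ≤ σ) (hσ2 : σ ≤ 2) (ha : σ / 2 + 3 / q - 1 ≤ a)
    (h : ∀ ε : ℝ, 0 < ε → ∃ C : ℝ, ∀ R : ℕ, 2 ≤ R →
      opQ (volume.restrict U) (Pq 2 s) Set.univ q q R ≤ ENNReal.ofReal (C * (R : ℝ) ^ (a + ε)))
    (ε : ℝ) (hε : 0 < ε) (A : ℝ) (hA : 0 ≤ A) :
    ∃ C : ℝ, ∀ R : ℕ, 2 ≤ R →
      (((Finset.powersetCard (nc 2 σ R) (Finset.univ : Finset (Fin 2 → Fin (2 * R)))).filter
        (fun I => ¬ opQ (volume.restrict U) (Pq 2 s) (un (cell R) I) q q R ≤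
          ENNReal.ofReal (C * (R : ℝ) ^ (a - σ * (1 - 1 / q) + ε)))).card : ℝ) ≤
      (R : ℝ) ^ (-A) * ((((2 * R) ^ 2).choose (nc 2 σ R) : ℕ) : ℝ) := by
  obtain ⟨C₀, hC₀⟩ := h (ε / 2) (by linarith)
  obtain ⟨C, hC0, hC⟩ := caps_count s hs A hA
  set C₁ : ℝ := max C₀ 0 with hC₁
  have hC₁0 : 0 ≤ C₁ := le_max_right _ _
  refine ⟨C * (8 / ε) ^ 4 * (2 * C₁ + 2), fun R hR => ?_⟩
  have hR2 : (2 : ℝ) ≤ R := by exact_mod_cast hR
  have hR0 : (0 : ℝ) < R := by linarith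
  have hR1 : (1 : ℝ) ≤ R := by linarith
  obtain ⟨hk1, hkN, hkl, hku⟩ := nc_facts (n := 2) σ hσ (by push_cast; exact hσ2) R (by omega)
  obtain ⟨k, hk⟩ : ∃ k : ℕ, k = nc 2 σ R := ⟨_, rfl⟩
  rw [← hk] at hk1 hkN hkl hku ⊢
  have hfin : IsFiniteMeasure ((volume : Measure P2).restrict U) := mU_fin U hUc
  refine le_trans (Nat.cast_le.2 (Finset.card_le_card ?_)) (hC U hU hUc R hR k hk1 hkN)
  intro I hI
  rw [Finset.mem_filter] at hI ⊢
  refine ⟨hI.1, fun hgood => hI.2 ?_⟩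
  have hq0 : 0 < q := by linarith
  have hq1 : 1 / q ≤ 1 / 2 := by
    rw [div_le_div_iff₀ hq0 (by norm_num)]
    linarith
  have hq2 : 0 < 1 / q := by positivity
  obtain ⟨K, hK⟩ : ∃ K : ℝ, K = (opQ (volume.restrict U) (Pq 2 s) Set.univ q q R).toReal :=
    ⟨_, rfl⟩
  have hK0 : 0 ≤ K := by rw [hK]; exact ENNReal.toReal_nonneg
  have hKb : K ≤ C₁ * (R : ℝ) ^ (a + ε / 2) := by
    rw [hK]
    refine ENNReal.toReal_le_of_le_ofReal (by positivity) ((hC₀ R hR).trans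
      (ENNReal.ofReal_le_ofReal ?_))
    exact mul_le_mul_of_nonneg_right (le_max_left _ _) (by positivity)
  have hW := wkA_of_opQ (volume.restrict U) (Pq 2 s) (Pq_meas s) q q R hq hq
  rw [← hK] at hW
  refine (good_pq s U hU hUc C R k hR (un (cell R) I) hgood q hq K hK0 hW hC0).trans
    (ENNReal.ofReal_le_ofReal ?_)
  obtain ⟨t, ht⟩ : ∃ t : ℝ, t = (k : ℝ) / (R : ℝ) ^ 2 := ⟨_, rfl⟩
  rw [← ht]
  have ht0 : 0 ≤ t := by rw [ht]; positivity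
  have htR : t ≤ 2 * (R : ℝ) ^ (-σ) := by
    rw [ht, div_le_iff₀ (by positivity)]
    have e : (R : ℝ) ^ (((2 : ℕ) : ℝ) - σ) = (R : ℝ) ^ (-σ) * (R : ℝ) ^ 2 := by
      rw [← Real.rpow_natCast (R : ℝ) 2, ← Real.rpow_add hR0]
      congr 1
      ring
    rw [e] at hku
    linarith
  have h1 : t ^ (1 - 1 / q) ≤ 2 * (R : ℝ) ^ (-(σ * (1 - 1 / q))) := by
    refine (Real.rpow_le_rpow ht0 htR (by linarith)).trans ?_
    refine (two_rpow_le _ _ (by positivity) (by linarith) (by linarith)).trans (le_of_eq ?_)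
    rw [← Real.rpow_mul hR0.le]
    congr 2
    ring
  have h2 : t ^ (1 / 2 - 1 / q) ≤ 2 * (R : ℝ) ^ (-(σ * (1 / 2 - 1 / q))) := by
    refine (Real.rpow_le_rpow ht0 htR (by linarith)).trans ?_
    refine (two_rpow_le _ _ (by positivity) (by linarith) (by linarith)).trans (le_of_eq ?_)
    rw [← Real.rpow_mul hR0.le]
    congr 2
    ring
  obtain ⟨b, hb⟩ : ∃ b : ℝ, b = a - σ * (1 - 1 / q) + ε / 2 := ⟨_, rfl⟩
  have h3 : t ^ (1 - 1 / q) * K ≤ 2 * C₁ * (R : ℝ) ^ b := by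
    calc t ^ (1 - 1 / q) * K ≤ (2 * (R : ℝ) ^ (-(σ * (1 - 1 / q)))) *
          (C₁ * (R : ℝ) ^ (a + ε / 2)) := mul_le_mul h1 hKb hK0 (by positivity)
      _ = 2 * C₁ * ((R : ℝ) ^ (-(σ * (1 - 1 / q))) * (R : ℝ) ^ (a + ε / 2)) := by ring
      _ = _ := by
          rw [← Real.rpow_add hR0, hb]
          congr 2
          ring
  have h4 : t ^ (1 / 2 - 1 / q) * (R : ℝ) ^ (3 / q - 1) ≤ 2 * (R : ℝ) ^ b := by
    calc t ^ (1 / 2 - 1 / q) * (R : ℝ) ^ (3 / q - 1) ≤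
          (2 * (R : ℝ) ^ (-(σ * (1 / 2 - 1 / q)))) * (R : ℝ) ^ (3 / q - 1) :=
          mul_le_mul_of_nonneg_right h2 (by positivity)
      _ = 2 * (R : ℝ) ^ (-(σ * (1 / 2 - 1 / q)) + (3 / q - 1)) := by
          rw [mul_assoc, ← Real.rpow_add hR0]
      _ ≤ _ := by
          refine mul_le_mul_of_nonneg_left ?_ (by norm_num)
          refine Real.rpow_le_rpow_of_exponent_le hR1 ?_
          rw [hb]
          have e : σ * (1 - 1 / q) = σ * (1 / 2 - 1 / q) + σ / 2 := by ring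
          rw [e]
          linarith
  have hlog := log_four ε R hε hR1
  have hlog0 : 0 ≤ Real.log R := Real.log_nonneg hR1
  calc C * Real.log R ^ 4 * (t ^ (1 - 1 / q) * K + t ^ (1 / 2 - 1 / q) * (R : ℝ) ^ (3 / q - 1)) ≤
      C * ((8 / ε) ^ 4 * (R : ℝ) ^ (ε / 2)) * (2 * C₁ * (R : ℝ) ^ b + 2 * (R : ℝ) ^ b) := by
        refine mul_le_mul (mul_le_mul_of_nonneg_left hlog hC0) (add_le_add h3 h4) ?_
          (by positivity)
        positivity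
    _ = C * (8 / ε) ^ 4 * (2 * C₁ + 2) * ((R : ℝ) ^ (ε / 2) * (R : ℝ) ^ b) := by ring
    _ = _ := by
        rw [← Real.rpow_add hR0, hb]
        congr 2
        ring

open Classical in
/-- from typical sets to the full norm -/
theorem bwdQ (s : ℝ) (U : Set P2) (hU : MeasurableSet U) (hUc : U ⊆ cub 2)
    (q : ℝ) (hq : 2 ≤ q) (σ a : ℝ) (hσ : 0 ≤ σ) (hσ2 : σ ≤ 2) (ha : σ / 2 + 3 / q - 1 ≤ a)
    (ε : ℝ) (hε : 0 < ε) (C : ℝ)
    (h : ∀ R : ℕ, 2 ≤ R →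
      (((Finset.powersetCard (nc 2 σ R) (Finset.univ : Finset (Fin 2 → Fin (2 * R)))).filter
        (fun I => ¬ opQ (volume.restrict U) (Pq 2 s) (un (cell R) I) q q R ≤
          ENNReal.ofReal (C * (R : ℝ) ^ (a - σ * (1 - 1 / q) + ε)))).card : ℝ) ≤
      (R : ℝ) ^ (-(10 : ℝ)) * ((((2 * R) ^ 2).choose (nc 2 σ R) : ℕ) : ℝ)) :
    ∃ C' : ℝ, ∀ R : ℕ, 2 ≤ R →
      opQ (volume.restrict U) (Pq 2 s) Set.univ q q R ≤ ENNReal.ofReal (C' * (R : ℝ) ^ (a + ε)) := by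
  obtain ⟨T, hT0, hT⟩ := caps_lower s
  set C₁ : ℝ := max C 0 with hC₁
  have hC₁0 : 0 ≤ C₁ := le_max_right _ _
  refine ⟨4 * (C₁ + T), fun R hR => ?_⟩
  have hR2 : (2 : ℝ) ≤ R := by exact_mod_cast hR
  have hR0 : (0 : ℝ) < R := by linarith
  have hR1 : (1 : ℝ) ≤ R := by linarith
  have hq0 : 0 < q := by linarith
  have hq1 : 1 / q ≤ 1 / 2 := by
    rw [div_le_div_iff₀ hq0 (by norm_num)]
    linarith
  have hq2 : 0 < 1 / q := by positivity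
  have hq3 : 0 < 3 / q := by positivity
  obtain ⟨hk1, hkN, hkl, hku⟩ := nc_facts (n := 2) σ hσ (by push_cast; exact hσ2) R (by omega)
  have hR' := h R hR
  obtain ⟨k, hk⟩ : ∃ k : ℕ, k = nc 2 σ R := ⟨_, rfl⟩
  rw [← hk] at hk1 hkN hkl hku hR'
  obtain ⟨b, hb⟩ : ∃ b : ℝ, b = a - σ * (1 - 1 / q) + ε := ⟨_, rfl⟩
  rw [← hb] at hR'
  have hlow := hT U hU hUc R (by omega) k hk1 hkN q q hq hq (C₁ * (R : ℝ) ^ b)
    ((R : ℝ) ^ (-(10 : ℝ))) (by positivity) (by positivity) (by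
      refine le_trans (Nat.cast_le.2 (Finset.card_le_card ?_)) hR'
      intro I hI
      rw [Finset.mem_filter] at hI ⊢
      refine ⟨hI.1, fun hle => hI.2 (hle.trans (ENNReal.ofReal_le_ofReal ?_))⟩
      exact mul_le_mul_of_nonneg_right (le_max_left _ _) (by positivity))
  obtain ⟨τ, hτ⟩ : ∃ τ : ℝ, τ = (k : ℝ) / (2 * (R : ℝ)) ^ 2 := ⟨_, rfl⟩
  rw [← hτ] at hlow
  have hτR : (1 / 4) * (R : ℝ) ^ (-σ) ≤ τ := by
    rw [hτ, le_div_iff₀ (by positivity)]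
    have e : (R : ℝ) ^ (((2 : ℕ) : ℝ) - σ) = (R : ℝ) ^ (-σ) * (R : ℝ) ^ 2 := by
      rw [← Real.rpow_natCast (R : ℝ) 2, ← Real.rpow_add hR0]
      congr 1
      ring
    rw [e] at hkl
    calc 1 / 4 * (R : ℝ) ^ (-σ) * (2 * (R : ℝ)) ^ 2 = (R : ℝ) ^ (-σ) * (R : ℝ) ^ 2 := by ring
      _ ≤ (k : ℝ) := hkl
  have hτq : (1 / 4) * (R : ℝ) ^ (-(σ * (1 - 1 / q))) ≤ τ ^ (1 - 1 / q) := by
    refine le_trans ?_ (Real.rpow_le_rpow (by positivity) hτR (by linarith))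
    rw [Real.mul_rpow (by norm_num) (by positivity), ← Real.rpow_mul hR0.le]
    have e : -σ * (1 - 1 / q) = -(σ * (1 - 1 / q)) := by ring
    rw [e]
    refine mul_le_mul_of_nonneg_right ?_ (by positivity)
    calc (1 / 4 : ℝ) = (1 / 4) ^ (1 : ℝ) := (Real.rpow_one _).symm
      _ ≤ (1 / 4) ^ (1 - 1 / q) :=
          Real.rpow_le_rpow_of_exponent_ge (by norm_num) (by norm_num) (by linarith)
  obtain ⟨w, hw⟩ : ∃ w : ℝ, w = (1 / 4) * (R : ℝ) ^ (-(σ * (1 - 1 / q))) := ⟨_, rfl⟩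
  rw [← hw] at hτq
  have hw0 : 0 < w := by rw [hw]; positivity
  have hw1 : ENNReal.ofReal w ≠ 0 := by
    rw [Ne, ENNReal.ofReal_eq_zero, not_le]; exact hw0
  have h1 : ENNReal.ofReal w * opQ (volume.restrict U) (Pq 2 s) Set.univ q q R ≤
      ENNReal.ofReal w * ENNReal.ofReal (4 * (C₁ + T) * (R : ℝ) ^ (a + ε)) := by
    refine (mul_le_mul' (ENNReal.ofReal_le_ofReal hτq) le_rfl).trans (hlow.trans ?_)
    rw [← ENNReal.ofReal_mul hw0.le]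
    refine ENNReal.ofReal_le_ofReal ?_
    have e1 : w * (4 * (C₁ + T) * (R : ℝ) ^ (a + ε)) = (C₁ + T) * (R : ℝ) ^ b := by
      have e2 : (R : ℝ) ^ b = (R : ℝ) ^ (-(σ * (1 - 1 / q))) * (R : ℝ) ^ (a + ε) := by
        rw [← Real.rpow_add hR0, hb]
        congr 1
        ring
      rw [e2, hw]
      ring
    rw [e1]
    have e3 : T * (R : ℝ) ^ (-(10 : ℝ)) * (R : ℝ) ^ (5 : ℝ) ≤ T * (R : ℝ) ^ b := by
      rw [mul_assoc, ← Real.rpow_add hR0]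
      refine mul_le_mul_of_nonneg_left ?_ hT0
      refine Real.rpow_le_rpow_of_exponent_le hR1 ?_
      have h5 : σ * (1 - 1 / q) ≤ 2 * 1 := mul_le_mul hσ2 (by linarith) (by linarith) (by norm_num)
      have h6 : 0 ≤ σ / 2 := by linarith
      rw [hb]
      linarith
    calc C₁ * (R : ℝ) ^ b + T * (R : ℝ) ^ (-(10 : ℝ)) * (R : ℝ) ^ (5 : ℝ) ≤
        C₁ * (R : ℝ) ^ b + T * (R : ℝ) ^ b := by linarith
      _ = _ := by ring
  exact (ENNReal.mul_le_mul_iff_right hw1 ENNReal.ofReal_ne_top).1 h1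

end Pool.Agent.N248.LC
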