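import Pool.Agent.N248.LC.Low3
import Pool.Agent.N248.LC.Eqv

set_option autoImplicit false
set_option linter.unusedSectionVars false

/-!
# Data in `L^q`, `2 ≤ q ≤ ∞`: random caps
-/

namespace Pool.Agent.N248.LC

open Finset MeasureTheory
open Pool.Agent.N248.RC
open scoped ENNReal

variable {d : ℕ} {Y : Type*} [MeasurableSpace Y] (μ : Measure Y) [IsFiniteMeasure μ]
  (Φ : Y → EuclideanSpace ℝ (Fin d))

/-- a partition into caps of diameter about `1/R` and measure about `R^(-m)` -/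
structure Cps (m R K : ℝ) {α : Type} (J : Finset α) (θ : α → Set Y) : Prop where
  meas : ∀ i ∈ J, MeasurableSet (θ i)
  disj : (J : Set α).PairwiseDisjoint θ
  cover : ∀ᵐ y ∂μ, y ∈ un θ J
  low : ∀ i ∈ J, R ^ (-m) / K ≤ μ.real (θ i)
  up : ∀ i ∈ J, μ.real (θ i) ≤ K * R ^ (-m)
  diam : ∀ i ∈ J, ∀ y ∈ θ i, ∀ y' ∈ θ i, ‖Φ y - Φ y'‖ ≤ K / R

/-- for all but a proportion `δ` of the sets of `k` cells the norm is at most `X` -/
def Typ {α : Type} (J : Finset α) (θ : α → Set Y) (k : ℕ) (q : ℝ≥0∞) (p R δ X : ℝ) : Prop :=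
  ({I : Finset α | I ⊆ J ∧ I.card = k ∧ ¬ opE μ Φ (un θ I) q p R ≤ ENNReal.ofReal X}.ncard : ℝ) ≤
    δ * ((J.card.choose k : ℕ) : ℝ)

theorem ncard_filter {α : Type} (J : Finset α) (k : ℕ) (P : Finset α → Prop)
    [DecidablePred P] :
    ({I : Finset α | I ⊆ J ∧ I.card = k ∧ ¬ P I}.ncard : ℝ) =
      (((powersetCard k J).filter (fun I => ¬ P I)).card : ℝ) := by
  have e : {I : Finset α | I ⊆ J ∧ I.card = k ∧ ¬ P I} =
      (((powersetCard k J).filter (fun I => ¬ P I) : Finset (Finset α)) : Set (Finset α)) := by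
    ext I
    rw [mem_coe, mem_filter, mem_powersetCard, Set.mem_ofPred_eq, and_assoc]
  rw [e, Set.ncard_coe_finset]

variable {μ Φ} in
theorem Cps.card_le {m R K : ℝ} {α : Type} {J : Finset α} {θ : α → Set Y}
    (h : Cps μ Φ m R K J θ) (hR : 0 < R) (hK : 0 < K) :
    (J.card : ℝ) ≤ K * μ.real Set.univ * R ^ m := by
  have h1 : (J.card : ℝ) * (R ^ (-m) / K) ≤ μ.real Set.univ := by
    rw [← nsmul_eq_mul, ← Finset.sum_const]
    refine (Finset.sum_le_sum fun i hi => h.low i hi).trans ?_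
    rw [← measureReal_biUnion_finset h.disj h.meas]
    exact measureReal_mono (Set.subset_univ _)
  have h2 : R ^ (-m) * R ^ m = 1 := by rw [← Real.rpow_add hR, neg_add_cancel, Real.rpow_zero]
  calc (J.card : ℝ) = K * (J.card * (R ^ (-m) / K)) * R ^ m := by
        field_simp
        rw [mul_assoc, h2, mul_one]
    _ ≤ K * μ.real Set.univ * R ^ m := by gcongr

variable {μ Φ} in
theorem Cps.le_card {m R K : ℝ} {α : Type} {J : Finset α} {θ : α → Set Y}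
    (h : Cps μ Φ m R K J θ) (hR : 0 < R) (hK : 0 < K) :
    μ.real Set.univ / K * R ^ m ≤ J.card := by
  have h0 : μ.real Set.univ ≤ J.card * (K * R ^ (-m)) := by
    have h1 : μ.real Set.univ = μ.real (un θ J) := by
      refine measureReal_congr ?_
      filter_upwards [h.cover] with y hy
      exact propext ⟨fun _ => hy, fun _ => Set.mem_univ y⟩
    rw [h1]
    unfold un
    refine (measureReal_biUnion_finset_le J θ).trans ?_
    refine (Finset.sum_le_sum fun i hi => h.up i hi).trans (le_of_eq ?_)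
    rw [Finset.sum_const, nsmul_eq_mul]
  have h2 : R ^ (-m) * R ^ m = 1 := by rw [← Real.rpow_add hR, neg_add_cancel, Real.rpow_zero]
  calc μ.real Set.univ / K * R ^ m ≤ (J.card * (K * R ^ (-m))) / K * R ^ m := by gcongr
    _ = J.card * (R ^ (-m) * R ^ m) := by field_simp
    _ = J.card := by rw [h2, mul_one]

section main

variable (hΦ : Measurable Φ) (ρ0 : ℝ) (hρ0 : 0 ≤ ρ0) (hΦb : ∀ y, ‖Φ y‖ ≤ ρ0) (B0 : ℝ)
  (hB0 : 0 ≤ B0) (hLt : ∀ R : ℝ, 1 ≤ R → Lt μ Φ R B0)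

include hΦ hρ0 hΦb hB0 hLt in
open Classical in
/-- the count for general cells -/
theorem countE (A B : ℝ) (hA : 0 ≤ A) (hB : 0 ≤ B) :
    ∃ C : ℝ, 0 ≤ C ∧ ∀ R : ℝ, 2 ≤ R → ∀ κ : ℝ, R ^ (-B) ≤ κ →
      ∀ (α : Type) (J : Finset α) (k : ℕ) (θ : α → Set Y),
      1 ≤ k → k ≤ J.card → (J.card : ℝ) ≤ R ^ B →
      (∀ i ∈ J, MeasurableSet (θ i)) → ((J : Set α).PairwiseDisjoint θ) →
      (∀ i ∈ J, μ.real (θ i) ≤ κ) →
      (((powersetCard k J).filter (fun I => ¬ ∀ (q : ℝ≥0∞) (p : ℝ), 2 ≤ q → 2 ≤ p → ∀ K : ℝ,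
        0 ≤ K → WkA μ (volume.restrict (Metric.ball 0 R)) (ker Φ) (1 / q.toReal) p K →
        opE μ Φ (un θ I) q p R ≤ ENNReal.ofReal (C * Real.log R ^ 4 *
          ((k / J.card) ^ (1 - 1 / q.toReal) * K + (k * κ) ^ (1 / 2 - 1 / q.toReal) *
            (κ ^ (1 / 2 - 1 / p) * R ^ (1 / p)))))).card : ℝ) ≤
        R ^ (-A) * ((J.card.choose k : ℕ) : ℝ) := by
  have hμ0 : 0 ≤ μ.real Set.univ := measureReal_nonneg
  obtain ⟨C₀, hC₀, hC⟩ := genR (d := d) (Y := Y) (1 + μ.real Set.univ) (by linarith) ρ0 hρ0 B0 hB0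
    A B hA hB
  obtain ⟨C₁, hC₁, hC'⟩ := opE_of_goodR d Y (1 + μ.real Set.univ) (by linarith) B hB C₀ hC₀
  refine ⟨C₁, hC₁, ?_⟩
  intro R hR κ hκ α J k θ hk hkJ hJ hθ hd hθκ
  refine le_trans (Nat.cast_le.2 (Finset.card_le_card ?_)) (hC μ (by linarith) Φ hΦ hΦb R hR
    (hLt R (by linarith)) κ hκ α J k θ hk hkJ hJ hθ hd hθκ)
  intro I hI
  rw [mem_filter] at hI ⊢
  refine ⟨hI.1, fun hgood => hI.2 ?_⟩
  have hSm : MeasurableSet (un θ I) := by
    unfold un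
    exact Finset.measurableSet_biUnion _ fun i hi => hθ i ((mem_powersetCard.1 hI.1).1 hi)
  intro q p hq hp K hK hW
  exact hC' μ (by linarith) Φ hΦ R hR κ hκ J.card k (Nat.cast_nonneg _) (by exact_mod_cast hk)
    (un θ I) hSm hgood q p hq hp K hK hW

include hΦ hρ0 hΦb hB0 hLt in
/-- the typical norm for general cells -/
theorem genE (A B : ℝ) (hA : 0 ≤ A) (hB : 0 ≤ B) :
    ∃ C : ℝ, 0 ≤ C ∧ ∀ R : ℝ, 2 ≤ R → ∀ κ : ℝ, R ^ (-B) ≤ κ →
      ∀ (α : Type) (J : Finset α) (θ : α → Set Y), (J.card : ℝ) ≤ R ^ B →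
      (∀ i ∈ J, MeasurableSet (θ i) ∧ μ (θ i) ≤ ENNReal.ofReal κ) →
      ((J : Set α).PairwiseDisjoint θ) → ∀ k : ℕ, 1 ≤ k → k ≤ J.card →
      ({I : Finset α | I ⊆ J ∧ I.card = k ∧ ¬ ∀ (q : ℝ≥0∞) (p : ℝ), 2 ≤ q → 2 ≤ p →
        opE μ Φ (un θ I) q p R ≤ ENNReal.ofReal (C * Real.log R ^ 4) *
          (ENNReal.ofReal ((k / J.card) ^ (1 - 1 / q.toReal)) * opE μ Φ Set.univ q p R +
            ENNReal.ofReal ((k * κ) ^ (1 / 2 - 1 / q.toReal) * κ ^ (1 / 2 - 1 / p) *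
              R ^ (1 / p)))}.ncard : ℝ) ≤
        R ^ (-A) * ((J.card.choose k : ℕ) : ℝ) := by
  classical
  obtain ⟨C, hC0, hC⟩ := countE μ Φ hΦ ρ0 hρ0 hΦb B0 hB0 hLt A B hA hB
  refine ⟨C, hC0, ?_⟩
  intro R hR κ hκ α J θ hJ hθ hd k hk hkJ
  have hR0 : 0 < R := by linarith
  have hκ0 : 0 < κ := (Real.rpow_pos_of_pos hR0 _).trans_le hκ
  rw [ncard_filter]
  refine le_trans (Nat.cast_le.2 (Finset.card_le_card ?_)) (hC R hR κ hκ α J k θ hk hkJ hJ
    (fun i hi => (hθ i hi).1) hd fun i hi => ENNReal.toReal_le_of_le_ofReal hκ0.le (hθ i hi).2)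
  intro I hI
  rw [mem_filter] at hI ⊢
  refine ⟨hI.1, fun hgood => hI.2 fun q p hq hp => ?_⟩
  have hW := wkA_of_opE μ Φ hΦ q p R hq hp
  have ht := opE_ne_top μ Φ hΦ Set.univ q p R hq hp
  refine (hgood q p hq hp _ ENNReal.toReal_nonneg hW).trans (le_of_eq ?_)
  have hlog : 0 ≤ Real.log R := Real.log_nonneg (by linarith)
  rw [mul_assoc _ (κ ^ (1 / 2 - 1 / p)), ENNReal.ofReal_mul (by positivity),
    ENNReal.ofReal_add (by positivity) (by positivity),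
    ENNReal.ofReal_mul (p := ((k : ℝ) / J.card) ^ (1 - 1 / q.toReal)) (by positivity),
    ENNReal.ofReal_toReal ht]

theorem exists_B (m W : ℝ) (hm : 0 ≤ m) (hW : 0 ≤ W) : ∃ B : ℝ, m ≤ B ∧ ∀ R : ℝ, 2 ≤ R →
    W * R ^ m ≤ R ^ B := by
  refine ⟨m + Real.log (W + 1) / Real.log 2, ?_, fun R hR => ?_⟩
  · have h1 : 0 ≤ Real.log (W + 1) := Real.log_nonneg (by linarith)
    have h2 : 0 ≤ Real.log 2 := Real.log_nonneg (by norm_num)
    have : 0 ≤ Real.log (W + 1) / Real.log 2 := div_nonneg h1 h2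
    linarith
  · have hR0 : 0 < R := by linarith
    have h1 : 0 ≤ Real.log (W + 1) := Real.log_nonneg (by linarith)
    have h2 : 0 < Real.log 2 := Real.log_pos (by norm_num)
    rw [Real.rpow_add hR0, mul_comm]
    refine mul_le_mul_of_nonneg_left ?_ (by positivity)
    calc W ≤ W + 1 := by linarith
      _ = (2 : ℝ) ^ (Real.log (W + 1) / Real.log 2) := by
          rw [Real.rpow_def_of_pos (by norm_num), mul_div_cancel₀ _ h2.ne',
            Real.exp_log (by linarith)]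
      _ ≤ R ^ (Real.log (W + 1) / Real.log 2) :=
          Real.rpow_le_rpow (by norm_num) hR (div_nonneg h1 h2.le)

include hΦ hρ0 hΦb hB0 hLt in
/-- the typical norm for caps -/
theorem capE (m K A : ℝ) (hm : 0 ≤ m) (hK : 1 ≤ K) (hA : 0 ≤ A) :
    ∃ C : ℝ, 0 ≤ C ∧ ∀ R : ℝ, 2 ≤ R → ∀ (α : Type) (J : Finset α) (θ : α → Set Y),
      Cps μ Φ m R K J θ → ∀ k : ℕ, 1 ≤ k → k ≤ J.card →
      ∀ (q : ℝ≥0∞) (p : ℝ), 2 ≤ q → 2 ≤ p → ∀ W : ℝ, 0 ≤ W →
      WkA μ (volume.restrict (Metric.ball 0 R)) (ker Φ) (1 / q.toReal) p W →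
      ∀ X : ℝ, C * Real.log R ^ 4 * ((k / J.card) ^ (1 - 1 / q.toReal) * W +
        (k / J.card) ^ (1 / 2 - 1 / q.toReal) * R ^ ((m + 1) / p - m / 2)) ≤ X →
      Typ μ Φ J θ k q p R (R ^ (-A)) X := by
  classical
  have hμ0 : 0 ≤ μ.real Set.univ := measureReal_nonneg
  obtain ⟨B, hBm, hB⟩ := exists_B m (K * μ.real Set.univ) hm (by positivity)
  obtain ⟨C, hC0, hC⟩ := countE μ Φ hΦ ρ0 hρ0 hΦb B0 hB0 hLt A B hA (by linarith)
  obtain ⟨V, hV⟩ : ∃ V : ℝ, V = 1 + μ.real Set.univ := ⟨_, rfl⟩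
  have hV1 : 1 ≤ V := by linarith
  refine ⟨C * (K ^ 2 * V * K), by positivity, ?_⟩
  intro R hR α J θ hJ k hk hkJ q p hq hp W hW hWk X hX
  have hR0 : 0 < R := by linarith
  have hK0 : 0 < K := by linarith
  have hp0 : 0 < p := by linarith
  have hN0 : (0 : ℝ) < J.card := by
    have : 0 < J.card := by omega
    exact_mod_cast this
  unfold Typ
  rw [ncard_filter]
  have hcard : (J.card : ℝ) ≤ R ^ B := (hJ.card_le hR0 hK0).trans (hB R hR)
  refine le_trans (Nat.cast_le.2 (Finset.card_le_card ?_)) (hC R hR (K * R ^ (-m)) (by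
    calc R ^ (-B) ≤ R ^ (-m) := Real.rpow_le_rpow_of_exponent_le (by linarith) (by linarith)
      _ = 1 * R ^ (-m) := (one_mul _).symm
      _ ≤ K * R ^ (-m) := mul_le_mul_of_nonneg_right hK (by positivity)) α J k θ hk hkJ hcard
    hJ.meas hJ.disj hJ.up)
  intro I hI
  rw [mem_filter] at hI ⊢
  refine ⟨hI.1, fun hgood => hI.2 ?_⟩
  refine (hgood q p hq hp W hW hWk).trans (ENNReal.ofReal_le_ofReal (le_trans ?_ hX))
  obtain ⟨hα0, hα2⟩ := inv_range q hq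
  obtain ⟨τ, hτ⟩ : ∃ τ : ℝ, τ = (k : ℝ) / J.card := ⟨_, rfl⟩
  obtain ⟨β, hβ⟩ : ∃ β : ℝ, β = 1 / q.toReal := ⟨_, rfl⟩
  rw [← hβ] at hα0 hα2 ⊢
  rw [← hτ]
  have hτ0 : 0 ≤ τ := by rw [hτ]; positivity
  have hlog : 0 ≤ Real.log R := Real.log_nonneg (by linarith)
  have hp2 : 1 / p ≤ 1 / 2 := by
    rw [div_le_div_iff₀ hp0 (by norm_num)]
    linarith
  have hp1 : 0 ≤ 1 / p := by positivity
  -- the second term
  have hkκ : (k : ℝ) * (K * R ^ (-m)) ≤ K ^ 2 * V * τ := by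
    have h1 := hJ.card_le hR0 hK0
    have h2 : R ^ (-m) * R ^ m = 1 := by rw [← Real.rpow_add hR0, neg_add_cancel, Real.rpow_zero]
    have h3 : (k : ℝ) = τ * J.card := by rw [hτ]; field_simp
    have h4 : (J.card : ℝ) * R ^ (-m) ≤ K * V := by
      calc (J.card : ℝ) * R ^ (-m) ≤ (K * μ.real Set.univ * R ^ m) * R ^ (-m) :=
            mul_le_mul_of_nonneg_right h1 (by positivity)
        _ = K * μ.real Set.univ * (R ^ (-m) * R ^ m) := by ring
        _ ≤ K * V := by rw [h2, mul_one]; gcongr; linarith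
    rw [h3]
    calc τ * J.card * (K * R ^ (-m)) = K * τ * (J.card * R ^ (-m)) := by ring
      _ ≤ K * τ * (K * V) := mul_le_mul_of_nonneg_left h4 (by positivity)
      _ = _ := by ring
  have hKV : 1 ≤ K ^ 2 * V := one_le_mul_of_one_le_of_one_le (one_le_pow₀ hK) hV1
  have hs1 : ((k : ℝ) * (K * R ^ (-m))) ^ (1 / 2 - β) ≤ (K ^ 2 * V) * τ ^ (1 / 2 - β) := by
    refine (Real.rpow_le_rpow (by positivity) hkκ (by linarith)).trans ?_
    rw [Real.mul_rpow (by positivity) hτ0]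
    refine mul_le_mul_of_nonneg_right ?_ (by positivity)
    calc (K ^ 2 * V) ^ (1 / 2 - β) ≤ (K ^ 2 * V) ^ (1 : ℝ) :=
          Real.rpow_le_rpow_of_exponent_le hKV (by linarith)
      _ = _ := Real.rpow_one _
  have hs2 : (K * R ^ (-m)) ^ (1 / 2 - 1 / p) * R ^ (1 / p) ≤ K * R ^ ((m + 1) / p - m / 2) := by
    rw [Real.mul_rpow hK0.le (by positivity), ← Real.rpow_mul hR0.le, mul_assoc,
      ← Real.rpow_add hR0]
    have e : -m * (1 / 2 - 1 / p) + 1 / p = (m + 1) / p - m / 2 := by ring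
    rw [e]
    refine mul_le_mul_of_nonneg_right ?_ (by positivity)
    calc K ^ (1 / 2 - 1 / p) ≤ K ^ (1 : ℝ) := Real.rpow_le_rpow_of_exponent_le hK (by linarith)
      _ = K := Real.rpow_one _
  have hs : ((k : ℝ) * (K * R ^ (-m))) ^ (1 / 2 - β) *
      ((K * R ^ (-m)) ^ (1 / 2 - 1 / p) * R ^ (1 / p)) ≤
      (K ^ 2 * V * K) * (τ ^ (1 / 2 - β) * R ^ ((m + 1) / p - m / 2)) := by
    calc _ ≤ ((K ^ 2 * V) * τ ^ (1 / 2 - β)) * (K * R ^ ((m + 1) / p - m / 2)) :=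
          mul_le_mul hs1 hs2 (by positivity) (by positivity)
      _ = _ := by ring
  have hKK : 1 ≤ K ^ 2 * V * K := one_le_mul_of_one_le_of_one_le hKV hK
  have hf : τ ^ (1 - β) * W ≤ (K ^ 2 * V * K) * (τ ^ (1 - β) * W) :=
    le_mul_of_one_le_left (by positivity) hKK
  calc C * Real.log R ^ 4 * (τ ^ (1 - β) * W + ((k : ℝ) * (K * R ^ (-m))) ^ (1 / 2 - β) *
      ((K * R ^ (-m)) ^ (1 / 2 - 1 / p) * R ^ (1 / p))) ≤ C * Real.log R ^ 4 *
      ((K ^ 2 * V * K) * (τ ^ (1 - β) * W) +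
        (K ^ 2 * V * K) * (τ ^ (1 / 2 - β) * R ^ ((m + 1) / p - m / 2))) := by
        refine mul_le_mul_of_nonneg_left (add_le_add hf hs) (by positivity)
    _ = _ := by ring

end main

end Pool.Agent.N248.LC
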