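import Pool.Agent.N248.LC.Cap

set_option autoImplicit false
set_option linter.unusedSectionVars false

/-!
# Data in `L^q`, `2 ≤ q ≤ ∞`: random caps, lower bounds and equivalence
-/

namespace Pool.Agent.N248.LC

open Finset MeasureTheory
open Pool.Agent.N248.RC
open scoped ENNReal

variable {d : ℕ} {Y : Type*} [MeasurableSpace Y] (μ : Measure Y) [IsFiniteMeasure μ]
  (Φ : Y → EuclideanSpace ℝ (Fin d)) (hΦ : Measurable Φ)

include hΦ in
/-- the square root lower bound -/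
theorem capSqrt (m K : ℝ) (hK : 1 ≤ K) : ∃ c : ℝ, 0 < c ∧ ∀ R : ℝ, 1 ≤ R →
    ∀ (α : Type) (J : Finset α) (θ : α → Set Y), Cps μ Φ m R K J θ →
    ∀ I : Finset α, I ⊆ J → I.Nonempty → ∀ (q : ℝ≥0∞) (p : ℝ), 2 ≤ q → 2 ≤ p →
    ENNReal.ofReal (c * ((I.card * R ^ (-m)) ^ (1 / 2 - 1 / q.toReal) *
      R ^ ((d : ℝ) / p - m / 2))) ≤ opE μ Φ (un θ I) q p R := by
  classical
  obtain ⟨c, hc0, hc⟩ := sqrt_low μ Φ hΦ K hK
  refine ⟨c * K⁻¹ * K⁻¹, by positivity, ?_⟩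
  intro R hR α J θ hJ I hI hne q p hq hp
  have hR0 : 0 < R := by linarith
  have hK0 : 0 < K := by linarith
  have hk0 : (0 : ℝ) < I.card := by exact_mod_cast hne.card_pos
  obtain ⟨k, hk⟩ : ∃ k : ℝ, k = I.card := ⟨_, rfl⟩
  rw [← hk] at hk0 ⊢
  obtain ⟨hβ0, hβ2⟩ := inv_range q hq
  obtain ⟨β, hβ⟩ : ∃ β : ℝ, β = 1 / q.toReal := ⟨_, rfl⟩
  have hSm : MeasurableSet (un θ I) := by
    unfold un
    exact Finset.measurableSet_biUnion _ fun i hi => hJ.meas i (hI hi)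
  have h := hc R hR0 α I θ (fun i hi => hJ.meas i (hI hi)) (hJ.disj.subset (by exact_mod_cast hI))
    (R ^ (-m) / K) (by positivity) (fun i hi => hJ.low i (hI hi))
    (fun i hi => hJ.diam i (hI hi)) p hp
  rw [← hk] at h
  have h3 := opN_le_opE μ Φ (un θ I) hSm q p R hq
  rw [← hβ] at hβ0 hβ2 h3 ⊢
  obtain ⟨w, hw⟩ : ∃ w : ℝ, w = k * R ^ (-m) := ⟨_, rfl⟩
  have hw0 : 0 < w := by rw [hw]; positivity
  have hμS : μ.real (un θ I) ≤ K * w := by
    unfold un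
    refine (measureReal_biUnion_finset_le I _).trans ?_
    refine (Finset.sum_le_sum fun i hi => hJ.up i (hI hi)).trans (le_of_eq ?_)
    rw [Finset.sum_const, nsmul_eq_mul, ← hk, hw]
    ring
  rw [← hw]
  have h4 : ENNReal.ofReal (μ.real (un θ I) ^ β) ≤ ENNReal.ofReal (K * w ^ β) := by
    refine ENNReal.ofReal_le_ofReal ?_
    refine (Real.rpow_le_rpow measureReal_nonneg hμS hβ0).trans ?_
    rw [Real.mul_rpow hK0.le hw0.le]
    refine mul_le_mul_of_nonneg_right ?_ (by positivity)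
    calc K ^ β ≤ K ^ (1 : ℝ) := Real.rpow_le_rpow_of_exponent_le hK (by linarith)
      _ = K := Real.rpow_one _
  have h5 := h.trans (h3.trans (mul_le_mul' le_rfl h4))
  have hwq : 0 < K * w ^ β := by positivity
  have hwq1 : ENNReal.ofReal (K * w ^ β) ≠ 0 := by
    rw [Ne, ENNReal.ofReal_eq_zero, not_le]; exact hwq
  have h6 : ENNReal.ofReal (K * w ^ β) * ENNReal.ofReal (c * K⁻¹ * K⁻¹ * (w ^ (1 / 2 - β) *
      R ^ ((d : ℝ) / p - m / 2))) ≤ ENNReal.ofReal (K * w ^ β) * opE μ Φ (un θ I) q p R := by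
    rw [mul_comm _ (opE _ _ _ _ _ _)]
    refine le_trans (le_of_eq ?_) h5
    rw [← ENNReal.ofReal_mul hwq.le]
    congr 1
    have e1 : w ^ β * w ^ (1 / 2 - β) = Real.sqrt k * R ^ (-(m / 2)) := by
      rw [← Real.rpow_add hw0, hw, Real.sqrt_eq_rpow]
      have e2 : β + (1 / 2 - β) = 1 / 2 := by ring
      rw [e2, Real.mul_rpow hk0.le (by positivity), ← Real.rpow_mul hR0.le]
      congr 2
      ring
    have e3 : R ^ (-(m / 2)) * R ^ ((d : ℝ) / p - m / 2) = R ^ (-m) * R ^ ((d : ℝ) / p) := by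
      rw [← Real.rpow_add hR0, ← Real.rpow_add hR0]
      congr 1
      ring
    calc K * w ^ β * (c * K⁻¹ * K⁻¹ * (w ^ (1 / 2 - β) * R ^ ((d : ℝ) / p - m / 2))) =
        (K * K⁻¹) * c * K⁻¹ * ((w ^ β * w ^ (1 / 2 - β)) * R ^ ((d : ℝ) / p - m / 2)) := by
          ring
      _ = c * K⁻¹ * (Real.sqrt k * (R ^ (-(m / 2)) * R ^ ((d : ℝ) / p - m / 2))) := by
          rw [e1, mul_inv_cancel₀ hK0.ne']; ring
      _ = _ := by rw [e3]; ring
  exact (ENNReal.mul_le_mul_iff_right hwq1 ENNReal.ofReal_ne_top).1 h6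

include hΦ in
/-- the lower bound by the full norm -/
theorem capLower (m K : ℝ) (hm : 0 ≤ m) (hK : 1 ≤ K) : ∃ T : ℝ, 0 ≤ T ∧ ∀ R : ℝ, 1 ≤ R →
    ∀ (α : Type) (J : Finset α) (θ : α → Set Y), Cps μ Φ m R K J θ →
    ∀ k : ℕ, 1 ≤ k → k ≤ J.card → ∀ (q : ℝ≥0∞) (p : ℝ), 2 ≤ q → 2 ≤ p →
    ∀ X δ : ℝ, 0 ≤ X → 0 ≤ δ → Typ μ Φ J θ k q p R δ X →
    ENNReal.ofReal (((k : ℝ) / J.card) ^ (1 - 1 / q.toReal)) * opE μ Φ Set.univ q p R ≤
      ENNReal.ofReal (X + T * δ * R ^ (d + m)) := by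
  classical
  obtain ⟨v, hv⟩ : ∃ v : ℝ, v = volume.real (Metric.ball (0 : EuclideanSpace ℝ (Fin d)) 1) :=
    ⟨_, rfl⟩
  have hv0 : 0 ≤ v := by rw [hv]; exact measureReal_nonneg
  have hμ0 : 0 ≤ μ.real Set.univ := measureReal_nonneg
  obtain ⟨T₀, hT₀⟩ : ∃ T₀ : ℝ, T₀ = (v + 1) * (1 + μ.real Set.univ + 1) := ⟨_, rfl⟩
  have hT₀0 : 0 ≤ T₀ := by rw [hT₀]; positivity
  refine ⟨T₀ * (K * μ.real Set.univ), by positivity, ?_⟩
  intro R hR α J θ hJ k hk hkJ q p hq hp X δ hX hδ hty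
  have hR0 : 0 < R := by linarith
  have hK0 : 0 < K := by linarith
  have htriv : ∀ S : Set Y, opE μ Φ S q p R ≤ ENNReal.ofReal (T₀ * R ^ (d : ℝ)) := by
    intro S
    have h1 := opE_triv μ Φ hΦ (1 + μ.real Set.univ) (by linarith) (by linarith) S q p R hq hp
    have h2 := vol_root (d := d) v hv R hR p (by linarith)
    refine h1.trans ((mul_le_mul' h2 le_rfl).trans ?_)
    rw [← ENNReal.ofReal_mul (by positivity)]
    refine ENNReal.ofReal_le_ofReal (le_of_eq ?_)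
    rw [hT₀]
    ring
  unfold Typ at hty
  rw [ncard_filter] at hty
  have h := avg_lowE μ Φ hΦ J k hk hkJ θ hJ.meas hJ.disj hJ.cover q p R hq hp X
    (T₀ * R ^ (d : ℝ)) δ hX (by positivity) hδ (fun I => htriv _) _ (Finset.filter_subset _ _) hty
    (fun I hI hIn => by
      by_contra hcon
      exact hIn (Finset.mem_filter.2 ⟨hI, hcon⟩))
  refine h.trans (ENNReal.ofReal_le_ofReal ?_)
  have h3 := hJ.card_le hR0 hK0
  have e : R ^ ((d : ℝ) + m) = R ^ (d : ℝ) * R ^ m := Real.rpow_add hR0 _ _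
  have h4 : δ * (T₀ * R ^ (d : ℝ)) * J.card ≤ δ * (T₀ * R ^ (d : ℝ)) *
      (K * μ.real Set.univ * R ^ m) := mul_le_mul_of_nonneg_left h3 (by positivity)
  rw [e]
  calc X + δ * (T₀ * R ^ (d : ℝ)) * J.card ≤ X + δ * (T₀ * R ^ (d : ℝ)) *
      (K * μ.real Set.univ * R ^ m) := by linarith
    _ = _ := by ring

/-- the number of caps at density `R^(-σ)` -/
noncomputable def dn (σ R : ℝ) (N : ℕ) : ℕ := ⌈R ^ (-σ) * N⌉₊

variable {μ Φ} in
theorem dn_facts {m R K : ℝ} {α : Type} {J : Finset α} {θ : α → Set Y}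
    (hJ : Cps μ Φ m R K J θ) (hR : 1 ≤ R) (hK : 1 ≤ K) (hμ : 0 < μ.real Set.univ) (σ : ℝ)
    (hσ : 0 ≤ σ) (hσm : σ ≤ m) :
    1 ≤ dn σ R J.card ∧ dn σ R J.card ≤ J.card ∧ R ^ (-σ) ≤ (dn σ R J.card : ℝ) / J.card ∧
      (dn σ R J.card : ℝ) / J.card ≤ (1 + K / μ.real Set.univ) * R ^ (-σ) := by
  have hR0 : 0 < R := by linarith
  have hK0 : 0 < K := by linarith
  have hN := hJ.le_card hR0 hK0
  have hRm : 0 < R ^ m := by positivity
  have hN0 : (0 : ℝ) < J.card := lt_of_lt_of_le (by positivity) hN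
  have hRσ : 0 < R ^ (-σ) := by positivity
  have h1 : R ^ (-σ) * J.card ≤ dn σ R J.card := Nat.le_ceil _
  have h2 : (dn σ R J.card : ℝ) ≤ R ^ (-σ) * J.card + 1 := (Nat.ceil_lt_add_one (by positivity)).le
  have h3 : μ.real Set.univ / K ≤ R ^ (-σ) * J.card := by
    calc μ.real Set.univ / K = R ^ (-m) * (μ.real Set.univ / K * R ^ m) := by
          have e : R ^ (-m) * R ^ m = 1 := by
            rw [← Real.rpow_add hR0, neg_add_cancel, Real.rpow_zero]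
          calc μ.real Set.univ / K = μ.real Set.univ / K * (R ^ (-m) * R ^ m) := by
                rw [e, mul_one]
            _ = _ := by ring
      _ ≤ R ^ (-σ) * J.card := by
          refine mul_le_mul ?_ hN (by positivity) hRσ.le
          exact Real.rpow_le_rpow_of_exponent_le hR (by linarith)
  refine ⟨?_, ?_, ?_, ?_⟩
  · have : (0 : ℝ) < (dn σ R J.card : ℕ) := lt_of_lt_of_le (by positivity) h1
    exact_mod_cast this
  · unfold dn
    rw [Nat.ceil_le]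
    refine mul_le_of_le_one_left hN0.le ?_
    exact Real.rpow_le_one_of_one_le_of_nonpos hR (by linarith)
  · rw [le_div_iff₀ hN0]
    exact h1
  · rw [div_le_iff₀ hN0]
    have h4 : 1 ≤ K / μ.real Set.univ * (R ^ (-σ) * J.card) := by
      calc (1 : ℝ) = K / μ.real Set.univ * (μ.real Set.univ / K) := by field_simp
        _ ≤ _ := mul_le_mul_of_nonneg_left h3 (by positivity)
    calc (dn σ R J.card : ℝ) ≤ R ^ (-σ) * J.card + 1 := h2
      _ ≤ R ^ (-σ) * J.card + K / μ.real Set.univ * (R ^ (-σ) * J.card) := by linarith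
      _ = _ := by ring

theorem const_rpow_le (C x e : ℝ) (hC : 1 ≤ C) (hx : 0 ≤ x) (he1 : e ≤ 1) :
    (C * x) ^ e ≤ C * x ^ e := by
  rw [Real.mul_rpow (by linarith) hx]
  refine mul_le_mul_of_nonneg_right ?_ (by positivity)
  calc C ^ e ≤ C ^ (1 : ℝ) := Real.rpow_le_rpow_of_exponent_le hC he1
    _ = C := Real.rpow_one _

variable (ρ0 : ℝ) (hρ0 : 0 ≤ ρ0) (hΦb : ∀ y, ‖Φ y‖ ≤ ρ0) (B0 : ℝ)
  (hB0 : 0 ≤ B0) (hLt : ∀ R : ℝ, 1 ≤ R → Lt μ Φ R B0)

include hΦ hρ0 hΦb hB0 hLt in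
/-- **Equivalence.** -/
theorem cap_iff (hμ : 0 < μ.real Set.univ) (m K : ℝ) (hK : 1 ≤ K) (ι : ℕ → Type)
    (J : ∀ R, Finset (ι R)) (θ : ∀ R, ι R → Set Y)
    (hJ : ∀ R : ℕ, 2 ≤ R → Cps μ Φ m R K (J R) (θ R)) (q : ℝ≥0∞) (p : ℝ) (hq : 2 ≤ q)
    (hp : 2 ≤ p) (σ a : ℝ) (hσ : 0 ≤ σ) (hσm : σ ≤ m) (ha : σ / 2 + (m + 1) / p - m / 2 ≤ a) :
    (∀ ε : ℝ, 0 < ε → ∃ C : ℝ, ∀ R : ℕ, 2 ≤ R →
      opE μ Φ Set.univ q p R ≤ ENNReal.ofReal (C * (R : ℝ) ^ (a + ε))) ↔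
    ∀ ε : ℝ, 0 < ε → ∀ A : ℝ, 0 ≤ A → ∃ C : ℝ, ∀ R : ℕ, 2 ≤ R →
      Typ μ Φ (J R) (θ R) (dn σ R (J R).card) q p R ((R : ℝ) ^ (-A))
        (C * (R : ℝ) ^ (a - σ * (1 - 1 / q.toReal) + ε)) := by
  classical
  obtain ⟨hβ0, hβ2⟩ := inv_range q hq
  obtain ⟨β, hβ⟩ : ∃ β : ℝ, β = 1 / q.toReal := ⟨_, rfl⟩
  have hm : 0 ≤ m := hσ.trans hσm
  have hp0 : 0 < p := by linarith
  constructor
  · intro h ε hε A hA
    obtain ⟨C₀, hC₀⟩ := h (ε / 2) (by linarith)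
    obtain ⟨C, hC0, hC⟩ := capE μ Φ hΦ ρ0 hρ0 hΦb B0 hB0 hLt m K A hm hK hA
    set C₁ : ℝ := max C₀ 0 with hC₁
    have hC₁0 : 0 ≤ C₁ := le_max_right _ _
    obtain ⟨C₂, hC₂⟩ : ∃ C₂ : ℝ, C₂ = 1 + K / μ.real Set.univ := ⟨_, rfl⟩
    have hC₂1 : 1 ≤ C₂ := by
      have : 0 ≤ K / μ.real Set.univ := by positivity
      linarith
    refine ⟨C * (8 / ε) ^ 4 * (C₂ * (C₁ + 1)), fun R hR => ?_⟩
    have hR2 : (2 : ℝ) ≤ R := by exact_mod_cast hR
    have hR1 : (1 : ℝ) ≤ R := by linarith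
    have hR0 : (0 : ℝ) < R := by linarith
    obtain ⟨hk1, hkN, hkl, hku⟩ := dn_facts (hJ R hR) hR1 hK hμ σ hσ hσm
    rw [← hC₂] at hku
    obtain ⟨W, hW⟩ : ∃ W : ℝ, W = (opE μ Φ Set.univ q p R).toReal := ⟨_, rfl⟩
    have hW0 : 0 ≤ W := by rw [hW]; exact ENNReal.toReal_nonneg
    have hWb : W ≤ C₁ * (R : ℝ) ^ (a + ε / 2) := by
      rw [hW]
      refine ENNReal.toReal_le_of_le_ofReal (by positivity) ((hC₀ R hR).trans
        (ENNReal.ofReal_le_ofReal ?_))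
      exact mul_le_mul_of_nonneg_right (le_max_left _ _) (by positivity)
    have hWk := wkA_of_opE μ Φ hΦ q p R hq hp
    rw [← hW] at hWk
    refine hC R hR2 (ι R) (J R) (θ R) (hJ R hR) _ hk1 hkN q p hq hp W hW0 hWk _ ?_
    rw [← hβ] at hβ0 hβ2 ⊢
    obtain ⟨τ, hτ⟩ : ∃ τ : ℝ, τ = (dn σ R (J R).card : ℝ) / (J R).card := ⟨_, rfl⟩
    rw [← hτ] at hkl hku ⊢
    have hτ0 : 0 ≤ τ := le_trans (by positivity) hkl
    have h1 : τ ^ (1 - β) ≤ C₂ * (R : ℝ) ^ (-(σ * (1 - β))) := by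
      refine (Real.rpow_le_rpow hτ0 hku (by linarith)).trans ?_
      refine (const_rpow_le _ _ _ hC₂1 (by positivity) (by linarith)).trans (le_of_eq ?_)
      rw [← Real.rpow_mul hR0.le]
      congr 2
      ring
    have h2 : τ ^ (1 / 2 - β) ≤ C₂ * (R : ℝ) ^ (-(σ * (1 / 2 - β))) := by
      refine (Real.rpow_le_rpow hτ0 hku (by linarith)).trans ?_
      refine (const_rpow_le _ _ _ hC₂1 (by positivity) (by linarith)).trans (le_of_eq ?_)
      rw [← Real.rpow_mul hR0.le]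
      congr 2
      ring
    obtain ⟨b, hb⟩ : ∃ b : ℝ, b = a - σ * (1 - β) + ε / 2 := ⟨_, rfl⟩
    have h3 : τ ^ (1 - β) * W ≤ C₂ * C₁ * (R : ℝ) ^ b := by
      calc τ ^ (1 - β) * W ≤ (C₂ * (R : ℝ) ^ (-(σ * (1 - β)))) *
            (C₁ * (R : ℝ) ^ (a + ε / 2)) := mul_le_mul h1 hWb hW0 (by positivity)
        _ = C₂ * C₁ * ((R : ℝ) ^ (-(σ * (1 - β))) * (R : ℝ) ^ (a + ε / 2)) := by ring
        _ = _ := by
            rw [← Real.rpow_add hR0, hb]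
            congr 2
            ring
    have h4 : τ ^ (1 / 2 - β) * (R : ℝ) ^ ((m + 1) / p - m / 2) ≤ C₂ * (R : ℝ) ^ b := by
      calc τ ^ (1 / 2 - β) * (R : ℝ) ^ ((m + 1) / p - m / 2) ≤
            (C₂ * (R : ℝ) ^ (-(σ * (1 / 2 - β)))) * (R : ℝ) ^ ((m + 1) / p - m / 2) :=
            mul_le_mul_of_nonneg_right h2 (by positivity)
        _ = C₂ * (R : ℝ) ^ (-(σ * (1 / 2 - β)) + ((m + 1) / p - m / 2)) := by
            rw [mul_assoc, ← Real.rpow_add hR0]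
        _ ≤ _ := by
            refine mul_le_mul_of_nonneg_left ?_ (by linarith)
            refine Real.rpow_le_rpow_of_exponent_le hR1 ?_
            rw [hb]
            have e : σ * (1 - β) = σ * (1 / 2 - β) + σ / 2 := by ring
            rw [e]
            linarith
    have hlog := log_four ε R hε hR1
    have hlog0 : 0 ≤ Real.log R := Real.log_nonneg hR1
    calc C * Real.log R ^ 4 * (τ ^ (1 - β) * W + τ ^ (1 / 2 - β) *
        (R : ℝ) ^ ((m + 1) / p - m / 2)) ≤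
        C * ((8 / ε) ^ 4 * (R : ℝ) ^ (ε / 2)) * (C₂ * C₁ * (R : ℝ) ^ b + C₂ * (R : ℝ) ^ b) := by
          refine mul_le_mul (mul_le_mul_of_nonneg_left hlog hC0) (add_le_add h3 h4) ?_
            (by positivity)
          positivity
      _ = C * (8 / ε) ^ 4 * (C₂ * (C₁ + 1)) * ((R : ℝ) ^ (ε / 2) * (R : ℝ) ^ b) := by ring
      _ = _ := by
          rw [← Real.rpow_add hR0, hb]
          congr 2
          ring
  · intro h ε hε
    obtain ⟨C, hC⟩ := h ε hε (d + 2 * m) (by positivity)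
    obtain ⟨T, hT0, hT⟩ := capLower μ Φ hΦ m K hm hK
    set C₁ : ℝ := max C 0 with hC₁
    have hC₁0 : 0 ≤ C₁ := le_max_right _ _
    refine ⟨C₁ + T, fun R hR => ?_⟩
    have hR2 : (2 : ℝ) ≤ R := by exact_mod_cast hR
    have hR1 : (1 : ℝ) ≤ R := by linarith
    have hR0 : (0 : ℝ) < R := by linarith
    obtain ⟨hk1, hkN, hkl, hku⟩ := dn_facts (hJ R hR) hR1 hK hμ σ hσ hσm
    have hty := hC R hR
    obtain ⟨b, hb⟩ : ∃ b : ℝ, b = a - σ * (1 - β) + ε := ⟨_, rfl⟩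
    rw [← hβ, ← hb] at hty
    have hty2 : Typ μ Φ (J R) (θ R) (dn σ R (J R).card) q p R ((R : ℝ) ^ (-((d : ℝ) + 2 * m)))
        (C₁ * (R : ℝ) ^ b) := by
      unfold Typ at hty ⊢
      rw [ncard_filter] at hty ⊢
      refine le_trans (Nat.cast_le.2 (Finset.card_le_card ?_)) hty
      intro I hI
      rw [Finset.mem_filter] at hI ⊢
      refine ⟨hI.1, fun hle => hI.2 (hle.trans (ENNReal.ofReal_le_ofReal ?_))⟩
      exact mul_le_mul_of_nonneg_right (le_max_left _ _) (by positivity)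
    have hlow := hT R hR1 (ι R) (J R) (θ R) (hJ R hR) _ hk1 hkN q p hq hp _ _ (by positivity)
      (by positivity) hty2
    rw [← hβ] at hβ0 hβ2 hlow
    obtain ⟨w, hw⟩ : ∃ w : ℝ, w = (R : ℝ) ^ (-(σ * (1 - β))) := ⟨_, rfl⟩
    have hw0 : 0 < w := by rw [hw]; positivity
    have hτq : w ≤ ((dn σ R (J R).card : ℝ) / (J R).card) ^ (1 - β) := by
      refine le_trans (le_of_eq ?_) (Real.rpow_le_rpow (by positivity) hkl (by linarith))
      rw [hw, ← Real.rpow_mul hR0.le]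
      congr 1
      ring
    have hw1 : ENNReal.ofReal w ≠ 0 := by
      rw [Ne, ENNReal.ofReal_eq_zero, not_le]; exact hw0
    have h1 : ENNReal.ofReal w * opE μ Φ Set.univ q p R ≤
        ENNReal.ofReal w * ENNReal.ofReal ((C₁ + T) * (R : ℝ) ^ (a + ε)) := by
      refine (mul_le_mul' (ENNReal.ofReal_le_ofReal hτq) le_rfl).trans (hlow.trans ?_)
      rw [← ENNReal.ofReal_mul hw0.le]
      refine ENNReal.ofReal_le_ofReal ?_
      have e1 : w * ((C₁ + T) * (R : ℝ) ^ (a + ε)) = (C₁ + T) * (R : ℝ) ^ b := by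
        have e2 : (R : ℝ) ^ b = (R : ℝ) ^ (-(σ * (1 - β))) * (R : ℝ) ^ (a + ε) := by
          rw [← Real.rpow_add hR0, hb]
          congr 1
          ring
        rw [e2, hw]
        ring
      rw [e1]
      have e3 : T * (R : ℝ) ^ (-((d : ℝ) + 2 * m)) * (R : ℝ) ^ ((d : ℝ) + m) ≤
          T * (R : ℝ) ^ b := by
        rw [mul_assoc, ← Real.rpow_add hR0]
        refine mul_le_mul_of_nonneg_left ?_ hT0
        refine Real.rpow_le_rpow_of_exponent_le hR1 ?_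
        have h5 : σ * (1 - β) ≤ σ * 1 := mul_le_mul_of_nonneg_left (by linarith) hσ
        have h6 : 0 ≤ (m + 1) / p := by positivity
        rw [hb]
        linarith
      calc C₁ * (R : ℝ) ^ b + T * (R : ℝ) ^ (-((d : ℝ) + 2 * m)) * (R : ℝ) ^ ((d : ℝ) + m) ≤
          C₁ * (R : ℝ) ^ b + T * (R : ℝ) ^ b := by linarith
        _ = _ := by ring
    exact (ENNReal.mul_le_mul_iff_right hw1 ENNReal.ofReal_ne_top).1 h1

end Pool.Agent.N248.LC
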