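import Pool.Agent.N248.LC.Par
import Pool.Agent.N248.RC.Eqv

set_option autoImplicit false
set_option linter.unusedSectionVars false

/-!
# Data in `L^q`: random caps of the paraboloid in `ℝ³`
-/

namespace Pool.Agent.N248.LC

open MeasureTheory Set
open Pool.Agent.N248.RC
open Pool.Agent.N248.RR (cub cub_meas cub_vol)
open scoped ENNReal

/-- plane -/
abbrev P2 := EuclideanSpace ℝ (Fin 2)

theorem card_caps (R : ℕ) : (Finset.univ : Finset (Fin 2 → Fin (2 * R))).card = (2 * R) ^ 2 := by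
  rw [Finset.card_univ, Fintype.card_fun, Fintype.card_fin, Fintype.card_fin]

open Classical in
/-- the count for caps -/
theorem caps_count (s : ℝ) (hs : s ≠ 0) (A : ℝ) (hA : 0 ≤ A) :
    ∃ C : ℝ, 0 ≤ C ∧ ∀ U : Set P2, MeasurableSet U → U ⊆ cub 2 →
      ∀ R : ℕ, 2 ≤ R → ∀ k : ℕ, 1 ≤ k → k ≤ (2 * R) ^ 2 →
      (((Finset.powersetCard k (Finset.univ : Finset (Fin 2 → Fin (2 * R)))).filter (fun I =>
        ¬ GoodQ (volume.restrict U) (Pq 2 s) C R ((R : ℝ) ^ (-(2 : ℝ))) (((2 * R) ^ 2 : ℕ) : ℝ) k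
          (un (cell R) I))).card : ℝ) ≤
        (R : ℝ) ^ (-A) * ((((2 * R) ^ 2).choose k : ℕ) : ℝ) := by
  obtain ⟨C, hC0, hC⟩ := para_genQ (n := 2) s hs A 4 hA (by norm_num)
  refine ⟨C, hC0, ?_⟩
  intro U hU hUc R hR k hk hkN
  have hR2 : (2 : ℝ) ≤ R := by exact_mod_cast hR
  have h := hC U hU hUc R hR2 ((R : ℝ) ^ (-(2 : ℝ)))
    (Real.rpow_le_rpow_of_exponent_le (by linarith) (by norm_num)) (Fin 2 → Fin (2 * R))
    Finset.univ k (cell R) hk (by rw [card_caps]; exact hkN) (by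
      rw [card_caps]
      push_cast
      have e : (R : ℝ) ^ (4 : ℝ) = ((R : ℝ) ^ 2) ^ 2 := by
        rw [show (4 : ℝ) = ((4 : ℕ) : ℝ) by norm_num, Real.rpow_natCast]
        ring
      rw [e]
      refine pow_le_pow_left₀ (by positivity) ?_ 2
      nlinarith)
    (fun i _ => cell_meas R i) (fun i _ j _ hij => cell_disj R i j hij)
    (fun i _ => by
      have h1 := cell_mc (n := 2) R (by omega) i
      push_cast at h1
      rw [← h1, ← mU_eq U hU hUc, measureReal_restrict_apply (cell_meas R i)]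
      exact measureReal_mono inter_subset_left)
  rw [card_caps] at h
  exact h

theorem kap (R : ℝ) (hR : 0 < R) (q : ℝ) (hq : 0 < q) :
    (R ^ (-(2 : ℝ))) ^ (1 / 2 - 1 / q) * R ^ (1 / q) = R ^ (3 / q - 1) := by
  rw [← Real.rpow_mul hR.le, ← Real.rpow_add hR]
  congr 1
  field_simp
  ring

/-- the good event at `p = q` -/
theorem good_pq (s : ℝ) (U : Set P2) (hU : MeasurableSet U) (hUc : U ⊆ cub 2) (C : ℝ)
    (R k : ℕ) (hR : 2 ≤ R) (S : Set P2)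
    (h : GoodQ (volume.restrict U) (Pq 2 s) C R ((R : ℝ) ^ (-(2 : ℝ))) (((2 * R) ^ 2 : ℕ) : ℝ) k S)
    (q : ℝ) (hq : 2 ≤ q) (K : ℝ) (hK : 0 ≤ K)
    (hW : WkA (volume.restrict U) (volume.restrict (Metric.ball 0 (R : ℝ))) (ker (Pq 2 s))
      (1 / q) q K) (hC : 0 ≤ C) :
    opQ (volume.restrict U) (Pq 2 s) S q q R ≤ ENNReal.ofReal (C * Real.log R ^ 4 *
      ((k / (R : ℝ) ^ 2) ^ (1 - 1 / q) * K +
        (k / (R : ℝ) ^ 2) ^ (1 / 2 - 1 / q) * (R : ℝ) ^ (3 / q - 1))) := by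
  have hR2 : (2 : ℝ) ≤ R := by exact_mod_cast hR
  have hR0 : (0 : ℝ) < R := by linarith
  have hq0 : 0 < q := by linarith
  have hq1 : 1 / q ≤ 1 / 2 := by
    rw [div_le_div_iff₀ hq0 (by norm_num)]
    linarith
  refine (h q q hq hq K hK hW).trans (ENNReal.ofReal_le_ofReal ?_)
  have hlog : 0 ≤ Real.log R := Real.log_nonneg (by linarith)
  rw [kap R hR0 q hq0]
  have e1 : (k : ℝ) * (R : ℝ) ^ (-(2 : ℝ)) = k / (R : ℝ) ^ 2 := by
    rw [Real.rpow_neg hR0.le, Real.rpow_two, div_eq_mul_inv]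
  rw [e1]
  have e2 : (k : ℝ) / (((2 * R) ^ 2 : ℕ) : ℝ) ≤ k / (R : ℝ) ^ 2 := by
    push_cast
    refine div_le_div_of_nonneg_left (Nat.cast_nonneg _) (by positivity) ?_
    exact pow_le_pow_left₀ hR0.le (by linarith) 2
  have e3 : ((k : ℝ) / (((2 * R) ^ 2 : ℕ) : ℝ)) ^ (1 - 1 / q) ≤ (k / (R : ℝ) ^ 2) ^ (1 - 1 / q) :=
    Real.rpow_le_rpow (by positivity) e2 (by linarith)
  refine mul_le_mul_of_nonneg_left ?_ (by positivity)
  exact add_le_add (mul_le_mul_of_nonneg_right e3 hK) le_rfl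

/-- the unconditional bound for the full operator -/
theorem full_WkA (s : ℝ) (hs : s ≠ 0) : ∃ K : ℝ, 0 ≤ K ∧ ∀ U : Set P2, MeasurableSet U →
    U ⊆ cub 2 → ∀ R : ℝ, 1 ≤ R → ∀ q : ℝ, 2 ≤ q → q ≤ 4 →
    WkA (volume.restrict U) (volume.restrict (Metric.ball 0 R)) (ker (Pq 2 s)) (1 / q) q
      (K * R ^ (2 / q - 1 / 2)) := by
  obtain ⟨K, hK0, hK⟩ := Pq_WkA (n := 2) (by norm_num) s hs
  have hμ0 : 0 ≤ (mc 2).real univ := measureReal_nonneg
  refine ⟨(1 + (mc 2).real univ) * K, by positivity, fun U hU hUc R hR q hq hq4 => ?_⟩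
  have hfin : IsFiniteMeasure ((volume : Measure P2).restrict U) := mU_fin U hUc
  have h1 := hK R hR q hq (by push_cast; linarith)
  have h2 := WkA_restrict (mc 2) (Pq 2 s) U hU _ _ _ _ h1
  rw [mU_eq U hU hUc] at h2
  have h3 := wkA_mono (volume.restrict U) (Pq 2 s) _ (1 + (mc 2).real univ) (by linarith)
    (by linarith [mU_real U hUc]) q _ (by positivity) h2 q hq
  have e : ((2 : ℕ) : ℝ) * (2 + 4 / ((2 : ℕ) : ℝ) - q) / (4 * q) = 2 / q - 1 / 2 := by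
    push_cast
    field_simp
    ring
  rw [e, ← mul_assoc] at h3
  exact h3

open Classical in
/-- the unconditional bound for random caps -/
theorem caps_uncond (s : ℝ) (hs : s ≠ 0) (A : ℝ) (hA : 0 ≤ A) :
    ∃ C : ℝ, 0 ≤ C ∧ ∀ U : Set P2, MeasurableSet U → U ⊆ cub 2 →
      ∀ R : ℕ, 2 ≤ R → ∀ k : ℕ, 1 ≤ k → k ≤ (2 * R) ^ 2 →
      (((Finset.powersetCard k (Finset.univ : Finset (Fin 2 → Fin (2 * R)))).filter (fun I =>
        ¬ ∀ q : ℝ, 2 ≤ q → q ≤ 4 → opQ (volume.restrict U) (Pq 2 s) (un (cell R) I) q q R ≤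
          ENNReal.ofReal (C * Real.log R ^ 4 *
            ((k / (R : ℝ) ^ 2) ^ (1 - 1 / q) * (R : ℝ) ^ (2 / q - 1 / 2) +
              (k / (R : ℝ) ^ 2) ^ (1 / 2 - 1 / q) * (R : ℝ) ^ (3 / q - 1))))).card : ℝ) ≤
        (R : ℝ) ^ (-A) * ((((2 * R) ^ 2).choose k : ℕ) : ℝ) := by
  obtain ⟨K, hK0, hK⟩ := full_WkA s hs
  obtain ⟨C, hC0, hC⟩ := caps_count s hs A hA
  refine ⟨C * (K + 1), by positivity, ?_⟩
  intro U hU hUc R hR k hk hkN
  refine le_trans (Nat.cast_le.2 (Finset.card_le_card ?_)) (hC U hU hUc R hR k hk hkN)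
  intro I hI
  rw [Finset.mem_filter] at hI ⊢
  refine ⟨hI.1, fun hgood => hI.2 fun q hq hq4 => ?_⟩
  have hR2 : (2 : ℝ) ≤ R := by exact_mod_cast hR
  have hR0 : (0 : ℝ) < R := by linarith
  have hlog : 0 ≤ Real.log R := Real.log_nonneg (by linarith)
  have h1 := good_pq s U hU hUc C R k hR (un (cell R) I) hgood q hq (K * (R : ℝ) ^ (2 / q - 1 / 2))
    (by positivity) (hK U hU hUc R (by linarith) q hq hq4) hC0
  refine h1.trans (ENNReal.ofReal_le_ofReal ?_)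
  obtain ⟨x, hx⟩ : ∃ x : ℝ, x = (k / (R : ℝ) ^ 2) ^ (1 - 1 / q) * (R : ℝ) ^ (2 / q - 1 / 2) :=
    ⟨_, rfl⟩
  obtain ⟨y, hy⟩ : ∃ y : ℝ, y = (k / (R : ℝ) ^ 2) ^ (1 / 2 - 1 / q) * (R : ℝ) ^ (3 / q - 1) :=
    ⟨_, rfl⟩
  have hx0 : 0 ≤ x := by rw [hx]; positivity
  have hy0 : 0 ≤ y := by rw [hy]; positivity
  rw [← hx, ← hy]
  have e : (k / (R : ℝ) ^ 2) ^ (1 - 1 / q) * (K * (R : ℝ) ^ (2 / q - 1 / 2)) = K * x := by
    rw [hx]; ring
  rw [e]
  have h2 : K * x + y ≤ (K + 1) * (x + y) := by nlinarith [mul_nonneg hK0 hy0]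
  calc C * Real.log R ^ 4 * (K * x + y) ≤ C * Real.log R ^ 4 * ((K + 1) * (x + y)) :=
        mul_le_mul_of_nonneg_left h2 (by positivity)
    _ = _ := by ring

/-- small densities -/
theorem small_density (R t q : ℝ) (hR : 1 ≤ R) (ht : 0 ≤ t) (hq : 3 ≤ q) (hq4 : q ≤ 4)
    (htR : t ≤ R ^ (-((4 - q) / (2 * (q - 1))))) :
    t ^ (1 - 1 / q) * R ^ (2 / q - 1 / 2) + t ^ (1 / 2 - 1 / q) * R ^ (3 / q - 1) ≤ 2 := by
  have hR0 : 0 < R := by linarith
  have hq0 : 0 < q := by linarith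
  have hq1 : 0 < q - 1 := by linarith
  have h3 : 1 / q ≤ 1 / 3 := by
    rw [div_le_div_iff₀ hq0 (by norm_num)]; linarith
  have ht1 : t ≤ 1 := by
    refine htR.trans (Real.rpow_le_one_of_one_le_of_nonpos hR ?_)
    rw [neg_nonpos]
    exact div_nonneg (by linarith) (by linarith)
  have h1 : t ^ (1 - 1 / q) * R ^ (2 / q - 1 / 2) ≤ 1 := by
    have h2 : t ^ (1 - 1 / q) ≤ R ^ (-(2 / q - 1 / 2)) := by
      refine (Real.rpow_le_rpow ht htR (by linarith)).trans (le_of_eq ?_)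
      rw [← Real.rpow_mul hR0.le]
      congr 1
      field_simp
      ring
    calc t ^ (1 - 1 / q) * R ^ (2 / q - 1 / 2) ≤ R ^ (-(2 / q - 1 / 2)) * R ^ (2 / q - 1 / 2) :=
          mul_le_mul_of_nonneg_right h2 (by positivity)
      _ = 1 := by rw [← Real.rpow_add hR0, neg_add_cancel, Real.rpow_zero]
  have h4 : t ^ (1 / 2 - 1 / q) ≤ 1 := Real.rpow_le_one ht ht1 (by linarith)
  have h5 : R ^ (3 / q - 1) ≤ 1 := by
    refine Real.rpow_le_one_of_one_le_of_nonpos hR ?_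
    rw [sub_nonpos, div_le_one hq0]
    exact hq
  have h6 : t ^ (1 / 2 - 1 / q) * R ^ (3 / q - 1) ≤ 1 := mul_le_one₀ h4 (by positivity) h5
  linarith

/-- a constant for the trivial bound -/
theorem triv_const (s : ℝ) : ∃ T : ℝ, 0 ≤ T ∧ ∀ U : Set P2, U ⊆ cub 2 → ∀ R : ℝ, 1 ≤ R →
    ∀ (S : Set P2) (q p : ℝ), 2 ≤ q → 1 ≤ p →
    opQ (volume.restrict U) (Pq 2 s) S q p R ≤ ENNReal.ofReal (T * R ^ (3 : ℝ)) := by
  obtain ⟨v, hv⟩ : ∃ v : ℝ, v = volume.real (Metric.ball (0 : EuclideanSpace ℝ (Fin 3)) 1) :=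
    ⟨_, rfl⟩
  have hv0 : 0 ≤ v := by rw [hv]; exact measureReal_nonneg
  have hμ0 : 0 ≤ (mc 2).real univ := measureReal_nonneg
  refine ⟨(v + 1) * (1 + (mc 2).real univ + 1), by positivity, fun U hUc R hR S q p hq hp => ?_⟩
  have hfin : IsFiniteMeasure ((volume : Measure P2).restrict U) := mU_fin U hUc
  have h1 := opQ_triv (volume.restrict U) (Pq 2 s) (Pq_meas s) (1 + (mc 2).real univ)
    (by linarith) (by linarith [mU_real U hUc]) S q p R hq hp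
  have h2 := vol_root (d := 3) v hv R hR p hp
  refine h1.trans ((mul_le_mul' h2 le_rfl).trans ?_)
  rw [← ENNReal.ofReal_mul (by positivity)]
  refine ENNReal.ofReal_le_ofReal (le_of_eq ?_)
  push_cast
  ring

open Classical in
/-- the lower bound by the full norm -/
theorem caps_lower (s : ℝ) : ∃ T : ℝ, 0 ≤ T ∧ ∀ U : Set P2, MeasurableSet U → U ⊆ cub 2 →
    ∀ R : ℕ, 1 ≤ R → ∀ k : ℕ, 1 ≤ k → k ≤ (2 * R) ^ 2 → ∀ q p : ℝ, 2 ≤ q → 2 ≤ p →
    ∀ X δ : ℝ, 0 ≤ X → 0 ≤ δ →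
    (((Finset.powersetCard k (Finset.univ : Finset (Fin 2 → Fin (2 * R)))).filter (fun I =>
        ¬ opQ (volume.restrict U) (Pq 2 s) (un (cell R) I) q p R ≤ ENNReal.ofReal X)).card : ℝ) ≤
      δ * ((((2 * R) ^ 2).choose k : ℕ) : ℝ) →
    ENNReal.ofReal (((k : ℝ) / (2 * R) ^ 2) ^ (1 - 1 / q)) *
      opQ (volume.restrict U) (Pq 2 s) Set.univ q p R ≤
        ENNReal.ofReal (X + T * δ * (R : ℝ) ^ (5 : ℝ)) := by
  obtain ⟨T, hT0, hT⟩ := triv_const s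
  refine ⟨4 * T, by positivity, ?_⟩
  intro U hU hUc R hR k hk hkN q p hq hp X δ hX hδ hbad
  have hR1 : (1 : ℝ) ≤ R := by exact_mod_cast hR
  have hR0 : (0 : ℝ) < R := by linarith
  have hfin : IsFiniteMeasure ((volume : Measure P2).restrict U) := mU_fin U hUc
  have hcov : ∀ᵐ ξ ∂((volume : Measure P2).restrict U), ξ ∈ un (cell (n := 2) R) Finset.univ := by
    rw [← mU_eq U hU hUc]
    exact ae_restrict_of_ae (cell_cover R hR)
  have h := avg_lowQ (volume.restrict U) (Pq 2 s) (Pq_meas s)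
    (Finset.univ : Finset (Fin 2 → Fin (2 * R))) k hk (by rw [card_caps]; exact hkN) (cell R)
    (fun i _ => cell_meas R i) (fun i _ j _ hij => cell_disj R i j hij) hcov q p R hq hp X
    (T * (R : ℝ) ^ (3 : ℝ)) δ hX (by positivity) hδ
    (fun I => hT U hUc R hR1 (un (cell R) I) q p hq (by linarith)) _ (Finset.filter_subset _ _)
    (by rw [card_caps]; exact hbad)
    (fun I hI hIn => by
      by_contra hcon
      exact hIn (Finset.mem_filter.2 ⟨hI, hcon⟩))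
  rw [card_caps] at h
  push_cast at h
  refine h.trans (ENNReal.ofReal_le_ofReal (le_of_eq ?_))
  have e : (R : ℝ) ^ (5 : ℝ) = (R : ℝ) ^ (3 : ℝ) * (R : ℝ) ^ 2 := by
    rw [← Real.rpow_two, ← Real.rpow_add hR0]
    norm_num
  rw [e]
  ring

end Pool.Agent.N248.LC
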