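import Pool.Agent.N248.LC.Str
import Pool.Agent.N248.RC.Low2

set_option autoImplicit false
set_option linter.unusedSectionVars false

/-!
# Random unions of cells and data in `L^q`: the count
-/

namespace Pool.Agent.N248.LC

open Finset MeasureTheory
open Pool.Agent.N248.RC
open scoped ENNReal

variable {d : ℕ} {Y : Type*} [MeasurableSpace Y]

/-- the conclusion for a set of cells -/
def GoodQ (μ : Measure Y) (Φ : Y → EuclideanSpace ℝ (Fin d)) (C R κ N k : ℝ) (S : Set Y) : Prop :=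
  ∀ q p : ℝ, 2 ≤ q → 2 ≤ p → ∀ K : ℝ, 0 ≤ K →
    WkA μ (volume.restrict (Metric.ball 0 R)) (ker Φ) (1 / q) p K →
    opQ μ Φ S q p R ≤ ENNReal.ofReal (C * Real.log R ^ 4 * ((k / N) ^ (1 - 1 / q) * K +
      (k * κ) ^ (1 / 2 - 1 / q) * (κ ^ (1 / 2 - 1 / p) * R ^ (1 / p))))

theorem clog_bound1 (B : ℝ) (hB : 0 ≤ B) (R : ℝ) (hR : 2 ≤ R) (k : ℕ) (hk : 1 ≤ k)
    (hkR : (k : ℝ) ≤ R ^ B) : ((Nat.clog 4 k : ℕ) : ℝ) + 1 ≤ (6 + 2 * B) * Real.log R := by
  have hℓ := log_half R hR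
  have hR0 : (0 : ℝ) < R := by linarith
  have hk1 : (1 : ℝ) ≤ k := by exact_mod_cast hk
  have hskk : Real.sqrt k ≤ k := Real.sqrt_le_iff.2 ⟨by linarith, by nlinarith⟩
  have h1 := (pow_clog k hk).1
  set m : ℕ := Nat.clog 4 k with hm
  have h2 : (2 : ℝ) ^ m ≤ 2 * R ^ B := by
    refine h1.trans ?_
    linarith
  have h3 : (m : ℝ) * Real.log 2 ≤ Real.log 2 + B * Real.log R := by
    have h4 := Real.log_le_log (by positivity) h2
    rw [Real.log_pow, Real.log_mul (by norm_num) (by positivity), Real.log_rpow hR0] at h4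
    exact h4
  have hl2 := Real.log_two_gt_d9
  have hl2' := Real.log_two_lt_d9
  have hm0 : (0 : ℝ) ≤ m := Nat.cast_nonneg m
  have hBℓ : 0 ≤ B * Real.log R := mul_nonneg hB (by linarith)
  have h5 : (m : ℝ) ≤ 2 + 2 * (B * Real.log R) := by
    have h6 : (m : ℝ) * (1 / 2) ≤ m * Real.log 2 := mul_le_mul_of_nonneg_left (by linarith) hm0
    linarith
  nlinarith

/-- the number of dyadic levels -/
theorem exists_J (v B : ℝ) (hv : 0 ≤ v) (hB : 0 ≤ B) (R : ℝ) (hR : 2 ≤ R) :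
    ∃ J : ℕ, (v + 1) * R ^ B ≤ 2 ^ J ∧
      (J : ℝ) ≤ (2 * (2 * Real.log (v + 1) + B) + 2) * Real.log R := by
  have hℓ := log_half R hR
  have hR0 : (0 : ℝ) < R := by linarith
  have hlv : 0 ≤ Real.log (v + 1) := Real.log_nonneg (by linarith)
  set w : ℝ := (v + 1) * R ^ B with hw
  have hw1 : 1 ≤ w := by
    have : 1 ≤ R ^ B := Real.one_le_rpow (by linarith) hB
    nlinarith
  have hw0 : 0 < w := by linarith
  have hlw : 0 ≤ Real.log w := Real.log_nonneg hw1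
  have hl2 := Real.log_two_gt_d9
  refine ⟨⌈Real.log w / Real.log 2⌉₊, ?_, ?_⟩
  · have h1 : Real.log w / Real.log 2 ≤ (⌈Real.log w / Real.log 2⌉₊ : ℝ) := Nat.le_ceil _
    rw [div_le_iff₀ (by linarith), ← Real.log_pow] at h1
    exact (Real.log_le_log_iff hw0 (by positivity)).1 h1
  · have h1 : (⌈Real.log w / Real.log 2⌉₊ : ℝ) ≤ Real.log w / Real.log 2 + 1 :=
      (Nat.ceil_lt_add_one (by positivity)).le
    have h2 : Real.log w / Real.log 2 ≤ 2 * Real.log w := by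
      rw [div_le_iff₀ (by linarith)]
      nlinarith
    have h3 : Real.log w = Real.log (v + 1) + B * Real.log R := by
      rw [hw, Real.log_mul (by linarith) (by positivity), Real.log_rpow hR0]
    have h4 : Real.log (v + 1) ≤ 2 * Real.log (v + 1) * Real.log R := by nlinarith
    nlinarith

/-- the volume of the ball -/
theorem vol_root (v : ℝ) (hv : v = volume.real (Metric.ball (0 : EuclideanSpace ℝ (Fin d)) 1))
    (R : ℝ) (hR : 1 ≤ R) (p : ℝ) (hp : 1 ≤ p) :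
    volume (Metric.ball (0 : EuclideanSpace ℝ (Fin d)) R) ^ (1 / p) ≤
      ENNReal.ofReal ((v + 1) * R ^ (d : ℝ)) := by
  have hv0 : 0 ≤ v := by rw [hv]; exact measureReal_nonneg
  have hR0 : 0 < R := by linarith
  have h1 : volume (Metric.ball (0 : EuclideanSpace ℝ (Fin d)) R) =
      ENNReal.ofReal (R ^ d * v) := by
    rw [hv, ← ball_real R hR0, Measure.real, ENNReal.ofReal_toReal measure_ball_lt_top.ne]
  rw [h1, ENNReal.ofReal_rpow_of_nonneg (by positivity) (by positivity)]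
  refine ENNReal.ofReal_le_ofReal ?_
  have h2 : 1 ≤ R ^ d := one_le_pow₀ hR
  have h3 : 1 ≤ R ^ d * (v + 1) := by nlinarith
  calc (R ^ d * v) ^ (1 / p) ≤ (R ^ d * (v + 1)) ^ (1 / p) :=
        Real.rpow_le_rpow (by positivity) (by nlinarith) (by positivity)
    _ ≤ (R ^ d * (v + 1)) ^ (1 : ℝ) :=
        Real.rpow_le_rpow_of_exponent_le h3 (by rw [div_le_one (by linarith)]; exact hp)
    _ = (v + 1) * R ^ (d : ℝ) := by
        rw [Real.rpow_one, Real.rpow_natCast, mul_comm]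

open Classical in
/-- **Random unions of cells.** -/
theorem genQ (V : ℝ) (hV : 1 ≤ V) (ρ0 : ℝ) (hρ0 : 0 ≤ ρ0) (B0 : ℝ) (hB0 : 0 ≤ B0) (A B : ℝ)
    (hA : 0 ≤ A) (hB : 0 ≤ B) :
    ∃ C : ℝ, 0 ≤ C ∧ ∀ (μ : Measure Y) [IsFiniteMeasure μ], μ.real Set.univ ≤ V →
      ∀ Φ : Y → EuclideanSpace ℝ (Fin d), Measurable Φ → (∀ y, ‖Φ y‖ ≤ ρ0) →
      ∀ R : ℝ, 2 ≤ R → Lt μ Φ R B0 → ∀ (κ : ℝ), R ^ (-B) ≤ κ →
      ∀ (α : Type) (J : Finset α) (k : ℕ)
      (θ : α → Set Y), 1 ≤ k → k ≤ J.card → (J.card : ℝ) ≤ R ^ B →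
      (∀ i ∈ J, MeasurableSet (θ i)) → ((J : Set α).PairwiseDisjoint θ) →
      (∀ i ∈ J, μ.real (θ i) ≤ κ) →
      (((powersetCard k J).filter (fun I => ¬ GoodQ μ Φ C R κ J.card k (un θ I))).card : ℝ) ≤
        R ^ (-A) * ((J.card.choose k : ℕ) : ℝ) := by
  set C1 : ℝ := 2 * Real.log 5 + 2 * d * Real.log (80 * (ρ0 + 1) * (d + 1)) + d * (B + 1) with hC1
  set C2 : ℝ := 2 + 2 * Real.log (4 * V + 1) + B with hC2
  have hd0 : (0 : ℝ) ≤ d := Nat.cast_nonneg d
  have hl5 : 0 ≤ Real.log 5 := Real.log_nonneg (by norm_num)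
  have hlc : 0 ≤ Real.log (80 * (ρ0 + 1) * (d + 1)) :=
    Real.log_nonneg (by nlinarith [mul_nonneg hρ0 hd0])
  have hlμ : 0 ≤ Real.log (4 * V + 1) := Real.log_nonneg (by linarith)
  have hC10 : 0 ≤ C1 := by positivity
  have hC20 : 0 ≤ C2 := by positivity
  set C3 : ℝ := 17412 * (C2 * C1) + 2 * (A + B) + 12 with hC3
  have hC30 : 0 ≤ C3 := by positivity
  obtain ⟨v, hv⟩ : ∃ v : ℝ, v = volume.real (Metric.ball (0 : EuclideanSpace ℝ (Fin d)) 1) :=
    ⟨_, rfl⟩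
  have hv0 : 0 ≤ v := by rw [hv]; exact measureReal_nonneg
  have hlv : 0 ≤ Real.log (v + 1) := Real.log_nonneg (by linarith)
  set C4 : ℝ := 6 + 2 * B with hC4
  set C5 : ℝ := 2 * (2 * Real.log (v + 1) + (d + B)) + 2 with hC5
  set C6 : ℝ := 2 * V + 2 * C5 + 2 with hC6
  have hC40 : 0 ≤ C4 := by positivity
  have hC50 : 0 ≤ C5 := by positivity
  have hC60 : 0 ≤ C6 := by positivity
  refine ⟨(64 * C4 ^ 2 + 2 * C4 * C3 * (B0 + 1)) * C6, by positivity, ?_⟩
  intro μ _ hμV Φ hΦ hΦb R hR hLt κ hκB α J k θ hk hkJ hJB hθ hdisj hθκ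
  have hμ0 : 0 ≤ μ.real Set.univ := measureReal_nonneg
  have hℓ := log_half R hR
  have hR0 : (0 : ℝ) < R := by linarith
  have hk1 : (1 : ℝ) ≤ k := by exact_mod_cast hk
  have hkR : (k : ℝ) ≤ R ^ B := le_trans (by exact_mod_cast hkJ) hJB
  have hN0 : (0 : ℝ) < J.card := by
    have : 0 < J.card := by omega
    exact_mod_cast this
  have hJne : J.Nonempty := Finset.card_pos.1 (by omega)
  have hκ : 0 < κ := (Real.rpow_pos_of_pos hR0 _).trans_le hκB
  set ρ : ℝ := 1 / (16 * (ρ0 + 1) * (d + 1) * Real.sqrt k) with hρd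
  have hsk : 1 ≤ Real.sqrt k := Real.one_le_sqrt.2 hk1
  have hρ : 0 < ρ := by positivity
  set M : ℕ := ⌈R / ρ⌉₊ with hMd
  have hM : R ≤ M * ρ := by
    rw [← div_le_iff₀ hρ]
    exact Nat.le_ceil _
  have hρk : ρ0 * (d * ρ) ≤ 1 / (16 * Real.sqrt k) := by
    rw [hρd]
    have e : ρ0 * (d * (1 / (16 * (ρ0 + 1) * (d + 1) * Real.sqrt k))) =
        (ρ0 / (ρ0 + 1)) * (d / (d + 1)) * (1 / (16 * Real.sqrt k)) := by
      field_simp
    rw [e]
    have h1 : ρ0 / (ρ0 + 1) ≤ 1 := by rw [div_le_one (by linarith)]; linarith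
    have h2 : (d : ℝ) / (d + 1) ≤ 1 := by rw [div_le_one (by linarith)]; linarith
    refine mul_le_of_le_one_left (by positivity) ?_
    exact mul_le_one₀ h1 (by positivity) h2
  set Li : ℝ := Real.log (((2 * (M : ℝ) + 1) ^ d) * 4 + 1) with hLid
  have hLi0 : 0 ≤ Li := by
    refine Real.log_nonneg ?_
    have : (0 : ℝ) ≤ (2 * (M : ℝ) + 1) ^ d := by positivity
    linarith
  have hcard : ((Fintype.card (Option ((Fin d → Fin (2 * M + 1)) × Fin 4)) : ℕ) : ℝ) ≤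
      Real.exp Li := by
    rw [hLid, Real.exp_log (by positivity), Fintype.card_option, Fintype.card_prod,
      Fintype.card_fin, Fintype.card_fun, Fintype.card_fin, Fintype.card_fin]
    push_cast
    exact le_rfl
  set Lg : ℝ := 1 + Real.log (4 * V + 1) + B * Real.log R with hLgd
  have hsℓ : 0 ≤ B * Real.log R := mul_nonneg hB (by linarith)
  have hLg1 : 1 ≤ Lg := by linarith
  set a : ℝ := (A + B) * Real.log R with had
  have ha : 0 ≤ a := mul_nonneg (by linarith) (by linarith)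
  have hexc : 4 * μ.real Set.univ * Real.exp (-Lg) ≤ κ := by
    have e : Real.exp (-Lg) = Real.exp (-1) * (4 * V + 1)⁻¹ * R ^ (-B) := by
      rw [hLgd, neg_add, neg_add, Real.exp_add, Real.exp_add, Real.exp_neg (Real.log _),
        Real.exp_log (by linarith), Real.rpow_def_of_pos hR0]
      congr 2
      ring
    rw [e]
    refine le_trans ?_ hκB
    have hκ : 0 < R ^ (-B) := Real.rpow_pos_of_pos hR0 _
    have h1 : Real.exp (-1) ≤ 1 := Real.exp_le_one_iff.2 (by norm_num)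
    have h2 : 4 * μ.real Set.univ * (4 * V + 1)⁻¹ ≤ 1 := by
      rw [← div_eq_mul_inv, div_le_one (by linarith)]
      linarith
    calc 4 * μ.real Set.univ * (Real.exp (-1) * (4 * V + 1)⁻¹ * R ^ (-B))
        = Real.exp (-1) * (4 * μ.real Set.univ * (4 * V + 1)⁻¹) * R ^ (-B) := by ring
      _ ≤ 1 * R ^ (-B) := by
          refine mul_le_mul_of_nonneg_right ?_ hκ.le
          exact mul_le_one₀ h1 (by positivity) h2
      _ = R ^ (-B) := one_mul _
  have hLile : Li ≤ C1 * Real.log R := Li_bound ρ0 hρ0 B R hR k hk hkR ρ hρd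
  have hLgle : Lg ≤ C2 * Real.log R := by
    rw [hLgd, hC2]
    nlinarith
  set T : ℝ := 17412 * Lg * Li + a + 3 with hTd
  have hT1 : 1 ≤ T := by
    have : 0 ≤ 17412 * Lg * Li := by positivity
    linarith
  have hTle : T ≤ C3 * Real.log R ^ 2 := by
    have h1 : Lg * Li ≤ (C2 * Real.log R) * (C1 * Real.log R) :=
      mul_le_mul hLgle hLile hLi0 (mul_nonneg hC20 (by linarith))
    have h2 : a ≤ 2 * (A + B) * Real.log R ^ 2 := by
      have h3 : Real.log R ≤ 2 * Real.log R ^ 2 := by nlinarith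
      calc a ≤ (A + B) * (2 * Real.log R ^ 2) := mul_le_mul_of_nonneg_left h3 (by linarith)
        _ = _ := by ring
    have h4 : (3 : ℝ) ≤ 12 * Real.log R ^ 2 := by nlinarith
    rw [hTd, hC3]
    nlinarith
  have hgc := good_count μ J hJne k hk θ hθ hdisj κ hκ hθκ (Al Φ ρ M) (Al_meas Φ hΦ ρ M) Lg Li a
    hcard
  have hbad : (k : ℝ) * Real.exp (-a) ≤ R ^ (-A) := by
    have e : Real.exp (-a) = R ^ (-(A + B)) := by
      rw [Real.rpow_def_of_pos hR0, had]
      congr 1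
      ring
    rw [e]
    calc (k : ℝ) * R ^ (-(A + B)) ≤ R ^ B * R ^ (-(A + B)) :=
          mul_le_mul_of_nonneg_right hkR (by positivity)
      _ = R ^ (-A) := by
          rw [← Real.rpow_add hR0]
          congr 1
          ring
  refine le_trans ?_ (hgc.trans (mul_le_mul_of_nonneg_right hbad (Nat.cast_nonneg _)))
  refine Nat.cast_le.2 (Finset.card_le_card ?_)
  intro I hI
  rw [Finset.mem_filter] at hI ⊢
  refine ⟨hI.1, fun hgood => hI.2 ?_⟩
  have hIJ := Finset.mem_powersetCard.1 hI.1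
  have hLv := lv_of_good μ Φ hΦ ρ0 hρ0 hΦb J k hk θ κ hκ R ρ hρ M hM hρk Lg Li a hLg1 hLi0
    ha hexc I hI.1 hgood
  rw [← hTd] at hLv
  have hSm : MeasurableSet (un θ I) := by
    unfold un
    exact Finset.measurableSet_biUnion _ fun i hi => hθ i (hIJ.1 hi)
  have hμS : μ.real (un θ I) ≤ k * κ := by
    unfold un
    refine (measureReal_biUnion_finset_le I θ).trans ?_
    refine (Finset.sum_le_sum fun i hi => hθκ i (hIJ.1 hi)).trans (le_of_eq ?_)
    rw [Finset.sum_const, hIJ.2, nsmul_eq_mul]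
  intro q p hq hp K hK hW
  have hq0 : 0 < q := by linarith
  have hp0 : 0 < p := by linarith
  have hα2 : 1 / q ≤ 1 / 2 := by
    rw [div_le_div_iff₀ hq0 (by norm_num)]
    linarith
  have hp2 : 1 / p ≤ 1 / 2 := by
    rw [div_le_div_iff₀ hp0 (by norm_num)]
    linarith
  have hq1 : 0 ≤ 1 / q := by positivity
  have hp1 : 0 ≤ 1 / p := by positivity
  obtain ⟨m, hm⟩ : ∃ m : ℕ, m = Nat.clog 4 k := ⟨_, rfl⟩
  rw [← hm] at hLv
  obtain ⟨τ, hτ⟩ : ∃ τ : ℝ, τ = (k : ℝ) / J.card := ⟨_, rfl⟩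
  have hτ0 : 0 ≤ τ := by rw [hτ]; positivity
  rw [← hτ] at hLv ⊢
  obtain ⟨X, hX⟩ : ∃ X : ℝ, X = τ ^ (1 - 1 / q) * K +
      (k * κ) ^ (1 / 2 - 1 / q) * (κ ^ (1 / 2 - 1 / p) * R ^ (1 / p)) := ⟨_, rfl⟩
  rw [← hX]
  have hX0 : 0 ≤ X := by rw [hX]; positivity
  have hXB : R ^ (-B) ≤ X := by
    have h1 : R ^ (-B) ≤ 1 := Real.rpow_le_one_of_one_le_of_nonpos (by linarith) (by linarith)
    have h2 : (R ^ (-B)) ^ (1 / 2 - 1 / q) ≤ (k * κ) ^ (1 / 2 - 1 / q) := by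
      refine Real.rpow_le_rpow (by positivity) ?_ (by linarith)
      nlinarith
    have h3 : (R ^ (-B)) ^ (1 / 2 - 1 / p) ≤ κ ^ (1 / 2 - 1 / p) :=
      Real.rpow_le_rpow (by positivity) hκB (by linarith)
    have h4 : 1 ≤ R ^ (1 / p) := Real.one_le_rpow (by linarith) hp1
    have h5 : R ^ (-B) ≤ (R ^ (-B)) ^ (1 / 2 - 1 / q) * ((R ^ (-B)) ^ (1 / 2 - 1 / p) * 1) := by
      rw [mul_one, ← Real.rpow_add (by positivity)]
      calc R ^ (-B) = (R ^ (-B)) ^ (1 : ℝ) := (Real.rpow_one _).symm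
        _ ≤ _ := Real.rpow_le_rpow_of_exponent_ge (by positivity) h1 (by linarith)
    calc R ^ (-B) ≤ _ := h5
      _ ≤ (k * κ) ^ (1 / 2 - 1 / q) * (κ ^ (1 / 2 - 1 / p) * R ^ (1 / p)) := by
          gcongr
      _ ≤ X := by
          rw [hX]
          have : 0 ≤ τ ^ (1 - 1 / q) * K := by positivity
          linarith
  have hm0 : (0 : ℝ) ≤ m := Nat.cast_nonneg m
  obtain ⟨D, hD⟩ : ∃ D : ℝ, D = 32 * ((m : ℝ) + 1) ^ 2 + 2 * (m + 1) * T * (B0 + 1) := ⟨_, rfl⟩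
  have hD1 : 1 ≤ D := by
    have h1 : 1 ≤ 32 * ((m : ℝ) + 1) ^ 2 := by nlinarith
    have h2 : 0 ≤ 2 * ((m : ℝ) + 1) * T * (B0 + 1) := by positivity
    rw [hD]
    linarith
  obtain ⟨Jn, hJ1, hJ2⟩ := exists_J v (d + B) hv0 (by positivity) R hR
  refine opQ_le μ Φ (un θ I) q p R _ fun f hf => ?_
  have hst := strongQ μ Φ hΦ (un θ I) hSm q p R (D * X) V hq (by linarith) (by positivity) hV hμV
    (by
      intro A' hA' hA'S g hg hg1 hgA
      rw [Eo_eLp μ Φ hΦ p hp R g hg hg1]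
      refine ENNReal.ofReal_le_ofReal ?_
      have h := norm_res μ Φ hΦ R hR0 B0 hB0 hLt (un θ I) k τ m hk1 hτ0
        (by rw [hm]; exact (pow_clog k hk).2) κ hκ T hT1 hLv hμS (1 / q) p hq1 hα2 hp K hK hW A'
        hA' hA'S g hg hg1 hgA
      refine h.trans (le_of_eq ?_)
      rw [hD, hX]
      ring)
    Jn f hf
  refine hst.trans ?_
  have hvol : volume (Metric.ball (0 : EuclideanSpace ℝ (Fin d)) R) ^ (1 / p) *
      ENNReal.ofReal (1 / 2 ^ Jn) ≤ ENNReal.ofReal X := by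
    refine (mul_le_mul' (vol_root v hv R (by linarith) p (by linarith)) le_rfl).trans ?_
    rw [← ENNReal.ofReal_mul (by positivity)]
    refine ENNReal.ofReal_le_ofReal (le_trans ?_ hXB)
    rw [mul_one_div, div_le_iff₀ (by positivity)]
    calc (v + 1) * R ^ (d : ℝ) = R ^ (-B) * ((v + 1) * R ^ ((d : ℝ) + B)) := by
          have e : R ^ (d : ℝ) = R ^ (-B) * R ^ ((d : ℝ) + B) := by
            rw [← Real.rpow_add hR0]
            congr 1
            ring
          rw [e]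
          ring
      _ ≤ R ^ (-B) * 2 ^ Jn := mul_le_mul_of_nonneg_left hJ1 (by positivity)
  refine (add_le_add le_rfl hvol).trans ?_
  rw [← ENNReal.ofReal_add (by positivity) hX0]
  refine ENNReal.ofReal_le_ofReal ?_
  have hm1 := clog_bound1 B hB R hR k hk hkR
  rw [← hm, ← hC4] at hm1
  have hDle : D ≤ (64 * C4 ^ 2 + 2 * C4 * C3 * (B0 + 1)) * Real.log R ^ 3 := by
    have h1 : ((m : ℝ) + 1) ^ 2 ≤ (C4 * Real.log R) ^ 2 := pow_le_pow_left₀ (by positivity) hm1 2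
    have h2 : ((m : ℝ) + 1) * T ≤ (C4 * Real.log R) * (C3 * Real.log R ^ 2) :=
      mul_le_mul hm1 hTle (by linarith) (by positivity)
    have h3 : (C4 * Real.log R) ^ 2 ≤ 2 * C4 ^ 2 * Real.log R ^ 3 := by
      have : Real.log R ^ 2 ≤ 2 * Real.log R ^ 3 := by
        have h5 : 0 ≤ Real.log R ^ 2 * (2 * Real.log R - 1) :=
          mul_nonneg (sq_nonneg _) (by linarith)
        have e : Real.log R ^ 2 * (2 * Real.log R - 1) = 2 * Real.log R ^ 3 - Real.log R ^ 2 := by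
          ring
        linarith
      calc (C4 * Real.log R) ^ 2 = C4 ^ 2 * Real.log R ^ 2 := by ring
        _ ≤ C4 ^ 2 * (2 * Real.log R ^ 3) := mul_le_mul_of_nonneg_left this (by positivity)
        _ = _ := by ring
    have hB1 : 0 ≤ B0 + 1 := by linarith
    calc D = 32 * ((m : ℝ) + 1) ^ 2 + 2 * (((m : ℝ) + 1) * T) * (B0 + 1) := by rw [hD]; ring
      _ ≤ 32 * (2 * C4 ^ 2 * Real.log R ^ 3) +
          2 * ((C4 * Real.log R) * (C3 * Real.log R ^ 2)) * (B0 + 1) := by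
          refine add_le_add (by linarith) ?_
          exact mul_le_mul_of_nonneg_right (by linarith) hB1
      _ = _ := by ring
  have hVJ : V + 2 * Jn + 1 ≤ C6 * Real.log R := by
    have h1 : V * 1 ≤ V * (2 * Real.log R) := mul_le_mul_of_nonneg_left (by linarith) (by linarith)
    have h2 : (1 : ℝ) ≤ 2 * Real.log R := by linarith
    rw [← hC5] at hJ2
    have e : C6 * Real.log R = V * (2 * Real.log R) + 2 * (C5 * Real.log R) + 2 * Real.log R := by
      rw [hC6]; ring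
    rw [e]
    linarith
  have hJ0 : (0 : ℝ) ≤ Jn := Nat.cast_nonneg _
  calc D * X * (V + 2 * Jn) + X ≤ D * X * (V + 2 * Jn) + D * X := by
        have : 1 * X ≤ D * X := mul_le_mul_of_nonneg_right hD1 hX0
        linarith
    _ = D * (V + 2 * Jn + 1) * X := by ring
    _ ≤ ((64 * C4 ^ 2 + 2 * C4 * C3 * (B0 + 1)) * Real.log R ^ 3) * (C6 * Real.log R) * X := by
        refine mul_le_mul_of_nonneg_right ?_ hX0
        exact mul_le_mul hDle hVJ (by positivity) (by positivity)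
    _ = _ := by ring

end Pool.Agent.N248.LC
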