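import Pool.Agent.N248.LC.Low

set_option autoImplicit false
set_option linter.unusedSectionVars false

/-!
# Random unions of cells and data in `L^q`, `2 ≤ q ≤ ∞`: the count
-/

namespace Pool.Agent.N248.LC

open Finset MeasureTheory
open Pool.Agent.N248.RC
open scoped ENNReal

variable {d : ℕ} {Y : Type*} [MeasurableSpace Y]

/-- the conclusion for restricted data on a set of cells -/
def GoodR (μ : Measure Y) (Φ : Y → EuclideanSpace ℝ (Fin d)) (C R κ N k : ℝ) (S : Set Y) : Prop :=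
  ∀ α p : ℝ, 0 ≤ α → α ≤ 1 / 2 → 2 ≤ p → ∀ K : ℝ, 0 ≤ K →
    WkA μ (volume.restrict (Metric.ball 0 R)) (ker Φ) α p K →
    ∀ A : Set Y, MeasurableSet A → A ⊆ S → ∀ f : Y → ℂ, Measurable f → (∀ y, ‖f y‖ ≤ 1) →
      (∀ y, y ∉ A → f y = 0) →
      eLpNorm (Eo μ (ker Φ) f) (ENNReal.ofReal p) (volume.restrict (Metric.ball 0 R)) ≤
        ENNReal.ofReal (C * Real.log R ^ 3 * ((k / N) ^ (1 - α) * K +
          (k * κ) ^ (1 / 2 - α) * (κ ^ (1 / 2 - 1 / p) * R ^ (1 / p))) * μ.real A ^ α)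

open Classical in
/-- **Random unions of cells.** -/
theorem genR (V : ℝ) (hV : 1 ≤ V) (ρ0 : ℝ) (hρ0 : 0 ≤ ρ0) (B0 : ℝ) (hB0 : 0 ≤ B0) (A B : ℝ)
    (hA : 0 ≤ A) (hB : 0 ≤ B) :
    ∃ C : ℝ, 0 ≤ C ∧ ∀ (μ : Measure Y) [IsFiniteMeasure μ], μ.real Set.univ ≤ V →
      ∀ Φ : Y → EuclideanSpace ℝ (Fin d), Measurable Φ → (∀ y, ‖Φ y‖ ≤ ρ0) →
      ∀ R : ℝ, 2 ≤ R → Lt μ Φ R B0 → ∀ (κ : ℝ), R ^ (-B) ≤ κ →
      ∀ (α : Type) (J : Finset α) (k : ℕ)
      (θ : α → Set Y), 1 ≤ k → k ≤ J.card → (J.card : ℝ) ≤ R ^ B →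
      (∀ i ∈ J, MeasurableSet (θ i)) → ((J : Set α).PairwiseDisjoint θ) →
      (∀ i ∈ J, μ.real (θ i) ≤ κ) →
      (((powersetCard k J).filter (fun I => ¬ GoodR μ Φ C R κ J.card k (un θ I))).card : ℝ) ≤
        R ^ (-A) * ((J.card.choose k : ℕ) : ℝ) := by
  set C1 : ℝ := 2 * Real.log 5 + 2 * d * Real.log (80 * (ρ0 + 1) * (d + 1)) + d * (B + 1) with hC1
  set C2 : ℝ := 2 + 2 * Real.log (4 * V + 1) + B with hC2
  have hd0 : (0 : ℝ) ≤ d := Nat.cast_nonneg d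
  have hl5 : 0 ≤ Real.log 5 := Real.log_nonneg (by norm_num)
  have hlc : 0 ≤ Real.log (80 * (ρ0 + 1) * (d + 1)) :=
    Real.log_nonneg (by nlinarith [mul_nonneg hρ0 hd0])
  have hlμ : 0 ≤ Real.log (4 * V + 1) := Real.log_nonneg (by linarith)
  have hC10 : 0 ≤ C1 := by positivity
  have hC20 : 0 ≤ C2 := by positivity
  set C3 : ℝ := 17412 * (C2 * C1) + 2 * (A + B) + 12 with hC3
  have hC30 : 0 ≤ C3 := by positivity
  set C4 : ℝ := 6 + 2 * B with hC4
  have hC40 : 0 ≤ C4 := by positivity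
  refine ⟨64 * C4 ^ 2 + 2 * C4 * C3 * (B0 + 1), by positivity, ?_⟩
  intro μ _ hμV Φ hΦ hΦb R hR hLt κ hκB α J k θ hk hkJ hJB hθ hdisj hθκ
  have hμ0 : 0 ≤ μ.real Set.univ := measureReal_nonneg
  have hℓ := log_half R hR
  have hR0 : (0 : ℝ) < R := by linarith
  have hk1 : (1 : ℝ) ≤ k := by exact_mod_cast hk
  have hkR : (k : ℝ) ≤ R ^ B := le_trans (by exact_mod_cast hkJ) hJB
  have hN0 : (0 : ℝ) < J.card := by
    have : 0 < J.card := by omega
    exact_mod_cast this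
  have hJne : J.Nonempty := Finset.card_pos.1 (by omega)
  have hκ : 0 < κ := (Real.rpow_pos_of_pos hR0 _).trans_le hκB
  set ρ : ℝ := 1 / (16 * (ρ0 + 1) * (d + 1) * Real.sqrt k) with hρd
  have hsk : 1 ≤ Real.sqrt k := Real.one_le_sqrt.2 hk1
  have hρ : 0 < ρ := by positivity
  set M : ℕ := ⌈R / ρ⌉₊ with hMd
  have hM : R ≤ M * ρ := by
    rw [← div_le_iff₀ hρ]
    exact Nat.le_ceil _
  have hρk : ρ0 * (d * ρ) ≤ 1 / (16 * Real.sqrt k) := by
    rw [hρd]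
    have e : ρ0 * (d * (1 / (16 * (ρ0 + 1) * (d + 1) * Real.sqrt k))) =
        (ρ0 / (ρ0 + 1)) * (d / (d + 1)) * (1 / (16 * Real.sqrt k)) := by
      field_simp
    rw [e]
    have h1 : ρ0 / (ρ0 + 1) ≤ 1 := by rw [div_le_one (by linarith)]; linarith
    have h2 : (d : ℝ) / (d + 1) ≤ 1 := by rw [div_le_one (by linarith)]; linarith
    refine mul_le_of_le_one_left (by positivity) ?_
    exact mul_le_one₀ h1 (by positivity) h2
  set Li : ℝ := Real.log (((2 * (M : ℝ) + 1) ^ d) * 4 + 1) with hLid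
  have hLi0 : 0 ≤ Li := by
    refine Real.log_nonneg ?_
    have : (0 : ℝ) ≤ (2 * (M : ℝ) + 1) ^ d := by positivity
    linarith
  have hcard : ((Fintype.card (Option ((Fin d → Fin (2 * M + 1)) × Fin 4)) : ℕ) : ℝ) ≤
      Real.exp Li := by
    rw [hLid, Real.exp_log (by positivity), Fintype.card_option, Fintype.card_prod,
      Fintype.card_fin, Fintype.card_fun, Fintype.card_fin, Fintype.card_fin]
    push_cast
    exact le_rfl
  set Lg : ℝ := 1 + Real.log (4 * V + 1) + B * Real.log R with hLgd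
  have hsℓ : 0 ≤ B * Real.log R := mul_nonneg hB (by linarith)
  have hLg1 : 1 ≤ Lg := by linarith
  set a : ℝ := (A + B) * Real.log R with had
  have ha : 0 ≤ a := mul_nonneg (by linarith) (by linarith)
  have hexc : 4 * μ.real Set.univ * Real.exp (-Lg) ≤ κ := by
    have e : Real.exp (-Lg) = Real.exp (-1) * (4 * V + 1)⁻¹ * R ^ (-B) := by
      rw [hLgd, neg_add, neg_add, Real.exp_add, Real.exp_add, Real.exp_neg (Real.log _),
        Real.exp_log (by linarith), Real.rpow_def_of_pos hR0]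
      congr 2
      ring
    rw [e]
    refine le_trans ?_ hκB
    have hκ : 0 < R ^ (-B) := Real.rpow_pos_of_pos hR0 _
    have h1 : Real.exp (-1) ≤ 1 := Real.exp_le_one_iff.2 (by norm_num)
    have h2 : 4 * μ.real Set.univ * (4 * V + 1)⁻¹ ≤ 1 := by
      rw [← div_eq_mul_inv, div_le_one (by linarith)]
      linarith
    calc 4 * μ.real Set.univ * (Real.exp (-1) * (4 * V + 1)⁻¹ * R ^ (-B))
        = Real.exp (-1) * (4 * μ.real Set.univ * (4 * V + 1)⁻¹) * R ^ (-B) := by ring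
      _ ≤ 1 * R ^ (-B) := by
          refine mul_le_mul_of_nonneg_right ?_ hκ.le
          exact mul_le_one₀ h1 (by positivity) h2
      _ = R ^ (-B) := one_mul _
  have hLile : Li ≤ C1 * Real.log R := Li_bound ρ0 hρ0 B R hR k hk hkR ρ hρd
  have hLgle : Lg ≤ C2 * Real.log R := by
    rw [hLgd, hC2]
    nlinarith
  set T : ℝ := 17412 * Lg * Li + a + 3 with hTd
  have hT1 : 1 ≤ T := by
    have : 0 ≤ 17412 * Lg * Li := by positivity
    linarith
  have hTle : T ≤ C3 * Real.log R ^ 2 := by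
    have h1 : Lg * Li ≤ (C2 * Real.log R) * (C1 * Real.log R) :=
      mul_le_mul hLgle hLile hLi0 (mul_nonneg hC20 (by linarith))
    have h2 : a ≤ 2 * (A + B) * Real.log R ^ 2 := by
      have h3 : Real.log R ≤ 2 * Real.log R ^ 2 := by nlinarith
      calc a ≤ (A + B) * (2 * Real.log R ^ 2) := mul_le_mul_of_nonneg_left h3 (by linarith)
        _ = _ := by ring
    have h4 : (3 : ℝ) ≤ 12 * Real.log R ^ 2 := by nlinarith
    rw [hTd, hC3]
    nlinarith
  have hgc := good_count μ J hJne k hk θ hθ hdisj κ hκ hθκ (Al Φ ρ M) (Al_meas Φ hΦ ρ M) Lg Li a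
    hcard
  have hbad : (k : ℝ) * Real.exp (-a) ≤ R ^ (-A) := by
    have e : Real.exp (-a) = R ^ (-(A + B)) := by
      rw [Real.rpow_def_of_pos hR0, had]
      congr 1
      ring
    rw [e]
    calc (k : ℝ) * R ^ (-(A + B)) ≤ R ^ B * R ^ (-(A + B)) :=
          mul_le_mul_of_nonneg_right hkR (by positivity)
      _ = R ^ (-A) := by
          rw [← Real.rpow_add hR0]
          congr 1
          ring
  refine le_trans ?_ (hgc.trans (mul_le_mul_of_nonneg_right hbad (Nat.cast_nonneg _)))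
  refine Nat.cast_le.2 (Finset.card_le_card ?_)
  intro I hI
  rw [Finset.mem_filter] at hI ⊢
  refine ⟨hI.1, fun hgood => hI.2 ?_⟩
  have hIJ := Finset.mem_powersetCard.1 hI.1
  have hLv := lv_of_good μ Φ hΦ ρ0 hρ0 hΦb J k hk θ κ hκ R ρ hρ M hM hρk Lg Li a hLg1 hLi0
    ha hexc I hI.1 hgood
  rw [← hTd] at hLv
  have hSm : MeasurableSet (un θ I) := by
    unfold un
    exact Finset.measurableSet_biUnion _ fun i hi => hθ i (hIJ.1 hi)
  have hμS : μ.real (un θ I) ≤ k * κ := by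
    unfold un
    refine (measureReal_biUnion_finset_le I θ).trans ?_
    refine (Finset.sum_le_sum fun i hi => hθκ i (hIJ.1 hi)).trans (le_of_eq ?_)
    rw [Finset.sum_const, hIJ.2, nsmul_eq_mul]
  intro α' p hα0 hα2 hp K hK hW A' hA' hA'S f hf hf1 hfA
  have hp0 : 0 < p := by linarith
  obtain ⟨m, hm⟩ : ∃ m : ℕ, m = Nat.clog 4 k := ⟨_, rfl⟩
  rw [← hm] at hLv
  obtain ⟨τ, hτ⟩ : ∃ τ : ℝ, τ = (k : ℝ) / J.card := ⟨_, rfl⟩
  have hτ0 : 0 ≤ τ := by rw [hτ]; positivity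
  rw [← hτ] at hLv ⊢
  obtain ⟨X, hX⟩ : ∃ X : ℝ, X = τ ^ (1 - α') * K +
      (k * κ) ^ (1 / 2 - α') * (κ ^ (1 / 2 - 1 / p) * R ^ (1 / p)) := ⟨_, rfl⟩
  rw [← hX]
  have hX0 : 0 ≤ X := by rw [hX]; positivity
  have hm0 : (0 : ℝ) ≤ m := Nat.cast_nonneg m
  obtain ⟨D, hD⟩ : ∃ D : ℝ, D = 32 * ((m : ℝ) + 1) ^ 2 + 2 * (m + 1) * T * (B0 + 1) := ⟨_, rfl⟩
  rw [Eo_eLp μ Φ hΦ p hp R f hf hf1]
  refine ENNReal.ofReal_le_ofReal ?_
  have h := norm_res μ Φ hΦ R hR0 B0 hB0 hLt (un θ I) k τ m hk1 hτ0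
    (by rw [hm]; exact (pow_clog k hk).2) κ hκ T hT1 hLv hμS α' p hα0 hα2 hp K hK hW A'
    hA' hA'S f hf hf1 hfA
  have hm1 := clog_bound1 B hB R hR k hk hkR
  rw [← hm, ← hC4] at hm1
  have hDle : D ≤ (64 * C4 ^ 2 + 2 * C4 * C3 * (B0 + 1)) * Real.log R ^ 3 := by
    have h1 : ((m : ℝ) + 1) ^ 2 ≤ (C4 * Real.log R) ^ 2 := pow_le_pow_left₀ (by positivity) hm1 2
    have h2 : ((m : ℝ) + 1) * T ≤ (C4 * Real.log R) * (C3 * Real.log R ^ 2) :=
      mul_le_mul hm1 hTle (by linarith) (by positivity)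
    have h3 : (C4 * Real.log R) ^ 2 ≤ 2 * C4 ^ 2 * Real.log R ^ 3 := by
      have : Real.log R ^ 2 ≤ 2 * Real.log R ^ 3 := by
        have h5 : 0 ≤ Real.log R ^ 2 * (2 * Real.log R - 1) :=
          mul_nonneg (sq_nonneg _) (by linarith)
        have e : Real.log R ^ 2 * (2 * Real.log R - 1) = 2 * Real.log R ^ 3 - Real.log R ^ 2 := by
          ring
        linarith
      calc (C4 * Real.log R) ^ 2 = C4 ^ 2 * Real.log R ^ 2 := by ring
        _ ≤ C4 ^ 2 * (2 * Real.log R ^ 3) := mul_le_mul_of_nonneg_left this (by positivity)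
        _ = _ := by ring
    have hB1 : 0 ≤ B0 + 1 := by linarith
    calc D = 32 * ((m : ℝ) + 1) ^ 2 + 2 * (((m : ℝ) + 1) * T) * (B0 + 1) := by rw [hD]; ring
      _ ≤ 32 * (2 * C4 ^ 2 * Real.log R ^ 3) +
          2 * ((C4 * Real.log R) * (C3 * Real.log R ^ 2)) * (B0 + 1) := by
          refine add_le_add (by linarith) ?_
          exact mul_le_mul_of_nonneg_right (by linarith) hB1
      _ = _ := by ring
  have hA0 : 0 ≤ μ.real A' ^ α' := Real.rpow_nonneg measureReal_nonneg _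
  calc _ ≤ D * (X * μ.real A' ^ α') := by
        refine h.trans (le_of_eq ?_)
        rw [hD, hX]
        ring
    _ ≤ ((64 * C4 ^ 2 + 2 * C4 * C3 * (B0 + 1)) * Real.log R ^ 3) * (X * μ.real A' ^ α') :=
        mul_le_mul_of_nonneg_right hDle (by positivity)
    _ = _ := by ring

/-! ### Data exponents up to infinity -/

variable (μ : Measure Y) [IsFiniteMeasure μ] (Φ : Y → EuclideanSpace ℝ (Fin d))

/-- `f` vanishes off `S` and its norm in `L^q` is at most `1` -/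
def AdmE (S : Set Y) (q : ℝ≥0∞) (f : Y → ℂ) : Prop :=
  Measurable f ∧ (∀ y, y ∉ S → f y = 0) ∧ eLpNorm f q μ ≤ 1

/-- the norm of the extension operator from `L^q(S)` to `L^p(B_R)`, `q ≤ ∞` -/
noncomputable def opE (S : Set Y) (q : ℝ≥0∞) (p R : ℝ) : ℝ≥0∞ :=
  ⨆ (f : Y → ℂ) (_ : AdmE μ S q f),
    eLpNorm (Eo μ (ker Φ) f) (ENNReal.ofReal p) (volume.restrict (Metric.ball 0 R))

theorem opE_real (S : Set Y) (q : ℝ≥0∞) (hq : q ≠ ∞) (p R : ℝ) :
    opE μ Φ S q p R = opQ μ Φ S q.toReal p R := by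
  unfold opE opQ AdmE AdmQ
  rw [ENNReal.ofReal_toReal hq]

theorem opE_top (S : Set Y) (p R : ℝ) : opE μ Φ S ∞ p R = opN μ Φ S p R := by
  refine le_antisymm (iSup₂_le fun f hf => ?_) (opN_le μ Φ S p R _ fun f hf => ?_)
  · have hae : ∀ᵐ y ∂μ, ‖f y‖ ≤ 1 := by
      have h := hf.2.2
      rw [eLpNorm_exponent_top] at h
      filter_upwards [ae_le_eLpNormEssSup (f := f) (μ := μ)] with y hy
      have h1 := hy.trans h
      rw [← ofReal_norm, ← ENNReal.ofReal_one] at h1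
      exact (ENNReal.ofReal_le_ofReal_iff zero_le_one).1 h1
    have hm : MeasurableSet {y | ‖f y‖ ≤ 1} := measurableSet_le hf.1.norm measurable_const
    have e : Eo μ (ker Φ) f = Eo μ (ker Φ) ({y | ‖f y‖ ≤ 1}.indicator f) := by
      ext x
      unfold Eo
      refine integral_congr_ae ?_
      filter_upwards [hae] with y hy
      rw [Set.indicator_of_mem (show y ∈ {y | ‖f y‖ ≤ 1} from hy)]
    rw [e]
    refine le_opN μ Φ S p R _ ⟨hf.1.indicator hm, fun y => ?_, fun y hy => ?_⟩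
    · by_cases hy : y ∈ {y | ‖f y‖ ≤ 1}
      · rw [Set.indicator_of_mem hy]; exact hy
      · rw [Set.indicator_of_notMem hy]; simp
    · exact Set.indicator_apply_eq_zero.2 fun _ => hf.2.1 y hy
  · refine le_iSup₂_of_le f ⟨hf.1, hf.2.2, ?_⟩ le_rfl
    rw [eLpNorm_exponent_top]
    refine eLpNormEssSup_le_of_ae_bound (C := 1) (Filter.Eventually.of_forall hf.2.1) |>.trans ?_
    rw [ENNReal.ofReal_one]

theorem toReal_top_inv : 1 / (∞ : ℝ≥0∞).toReal = 0 := by simp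

/-- Hölder's inequality -/
theorem wkA_of_opE (hΦ : Measurable Φ) (q : ℝ≥0∞) (p R : ℝ) (hq : 2 ≤ q) (hp : 2 ≤ p) :
    WkA μ (volume.restrict (Metric.ball 0 R)) (ker Φ) (1 / q.toReal) p
      (opE μ Φ Set.univ q p R).toReal := by
  by_cases hqt : q = ∞
  · subst hqt
    rw [toReal_top_inv, opE_top]
    intro A _ f hf hf1 _ G hG
    rw [Real.rpow_zero, mul_one]
    exact wk_of_opN μ Φ hΦ p R hp f hf hf1 G hG
  · rw [opE_real μ Φ _ q hqt]
    refine wkA_of_opQ μ Φ hΦ q.toReal p R ?_ hp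
    have h := ENNReal.toReal_mono hqt hq
    simpa using h

theorem opE_ne_top (hΦ : Measurable Φ) (S : Set Y) (q : ℝ≥0∞) (p R : ℝ) (hq : 2 ≤ q)
    (hp : 2 ≤ p) : opE μ Φ S q p R ≠ ∞ := by
  by_cases hqt : q = ∞
  · subst hqt
    rw [opE_top]
    exact opN_ne_top μ Φ hΦ S p R hp
  · rw [opE_real μ Φ _ q hqt]
    refine opQ_ne_top μ Φ hΦ S q.toReal p R ?_ (by linarith)
    have h := ENNReal.toReal_mono hqt hq
    simpa using h

/-- **From restricted data to all data.** -/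
theorem opE_of_goodR (d : ℕ) (Y : Type*) [MeasurableSpace Y] (V : ℝ) (hV : 1 ≤ V) (B : ℝ)
    (hB : 0 ≤ B) (C₀ : ℝ) (hC₀ : 0 ≤ C₀) :
    ∃ C : ℝ, 0 ≤ C ∧ ∀ (μ : Measure Y) [IsFiniteMeasure μ], μ.real Set.univ ≤ V →
      ∀ Φ : Y → EuclideanSpace ℝ (Fin d), Measurable Φ → ∀ R : ℝ, 2 ≤ R → ∀ κ : ℝ,
      R ^ (-B) ≤ κ → ∀ N k : ℝ, 0 ≤ N → 1 ≤ k → ∀ S : Set Y, MeasurableSet S →
      GoodR μ Φ C₀ R κ N k S → ∀ (q : ℝ≥0∞) (p : ℝ), 2 ≤ q → 2 ≤ p → ∀ K : ℝ, 0 ≤ K →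
      WkA μ (volume.restrict (Metric.ball 0 R)) (ker Φ) (1 / q.toReal) p K →
      opE μ Φ S q p R ≤ ENNReal.ofReal (C * Real.log R ^ 4 * ((k / N) ^ (1 - 1 / q.toReal) * K +
        (k * κ) ^ (1 / 2 - 1 / q.toReal) * (κ ^ (1 / 2 - 1 / p) * R ^ (1 / p)))) := by
  obtain ⟨v, hv⟩ : ∃ v : ℝ, v = volume.real (Metric.ball (0 : EuclideanSpace ℝ (Fin d)) 1) :=
    ⟨_, rfl⟩
  have hv0 : 0 ≤ v := by rw [hv]; exact measureReal_nonneg
  have hlv : 0 ≤ Real.log (v + 1) := Real.log_nonneg (by linarith)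
  set C5 : ℝ := 2 * (2 * Real.log (v + 1) + (d + B)) + 2 with hC5
  set C6 : ℝ := 2 * V + 2 * C5 with hC6
  have hC50 : 0 ≤ C5 := by positivity
  have hC60 : 2 ≤ C6 := by rw [hC6]; linarith
  refine ⟨C₀ * C6 + 16, by positivity, ?_⟩
  intro μ _ hμV Φ hΦ R hR κ hκB N k hN hk S hS hG q p hq hp K hK hW
  have hℓ := log_half R hR
  have hR0 : (0 : ℝ) < R := by linarith
  have hκ : 0 < κ := (Real.rpow_pos_of_pos hR0 _).trans_le hκB
  have hp0 : 0 < p := by linarith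
  have hp2 : 1 / p ≤ 1 / 2 := by
    rw [div_le_div_iff₀ hp0 (by norm_num)]
    linarith
  have hp1 : 0 ≤ 1 / p := by positivity
  -- the exponent
  have hα : 0 ≤ 1 / q.toReal ∧ 1 / q.toReal ≤ 1 / 2 := by
    by_cases hqt : q = ∞
    · subst hqt
      rw [toReal_top_inv]
      norm_num
    · have h : 2 ≤ q.toReal := by
        have h := ENNReal.toReal_mono hqt hq
        simpa using h
      refine ⟨by positivity, ?_⟩
      rw [div_le_div_iff₀ (by linarith) (by norm_num)]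
      linarith
  obtain ⟨α, hαd⟩ : ∃ α : ℝ, α = 1 / q.toReal := ⟨_, rfl⟩
  rw [← hαd] at hα hW ⊢
  obtain ⟨X, hX⟩ : ∃ X : ℝ, X = (k / N) ^ (1 - α) * K +
      (k * κ) ^ (1 / 2 - α) * (κ ^ (1 / 2 - 1 / p) * R ^ (1 / p)) := ⟨_, rfl⟩
  have hk0 : 0 < k := by linarith
  have hX0 : 0 ≤ X := by rw [hX]; positivity
  have hres := hG α p hα.1 hα.2 hp K hK hW
  rw [← hX] at hres ⊢
  have hXB : R ^ (-B) ≤ X := by
    have h1 : R ^ (-B) ≤ 1 := Real.rpow_le_one_of_one_le_of_nonpos (by linarith) (by linarith)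
    have h2 : (R ^ (-B)) ^ (1 / 2 - α) ≤ (k * κ) ^ (1 / 2 - α) := by
      refine Real.rpow_le_rpow (by positivity) ?_ (by linarith [hα.2])
      nlinarith
    have h3 : (R ^ (-B)) ^ (1 / 2 - 1 / p) ≤ κ ^ (1 / 2 - 1 / p) :=
      Real.rpow_le_rpow (by positivity) hκB (by linarith)
    have h4 : 1 ≤ R ^ (1 / p) := Real.one_le_rpow (by linarith) hp1
    have h5 : R ^ (-B) ≤ (R ^ (-B)) ^ (1 / 2 - α) * ((R ^ (-B)) ^ (1 / 2 - 1 / p) * 1) := by
      rw [mul_one, ← Real.rpow_add (by positivity)]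
      calc R ^ (-B) = (R ^ (-B)) ^ (1 : ℝ) := (Real.rpow_one _).symm
        _ ≤ _ := Real.rpow_le_rpow_of_exponent_ge (by positivity) h1 (by linarith [hα.1])
    calc R ^ (-B) ≤ _ := h5
      _ ≤ (k * κ) ^ (1 / 2 - α) * (κ ^ (1 / 2 - 1 / p) * R ^ (1 / p)) := by
          gcongr
      _ ≤ X := by
          rw [hX]
          have : 0 ≤ (k / N) ^ (1 - α) * K := by positivity
          linarith
  obtain ⟨Z, hZ⟩ : ∃ Z : ℝ, Z = C₀ * Real.log R ^ 3 * X := ⟨_, rfl⟩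
  rw [← hZ] at hres
  have hZ0 : 0 ≤ Z := by rw [hZ]; positivity
  have hl3 : Real.log R ^ 3 ≤ 2 * Real.log R ^ 4 := by
    have h5 : 0 ≤ Real.log R ^ 3 * (2 * Real.log R - 1) := mul_nonneg (by positivity) (by linarith)
    have e : Real.log R ^ 3 * (2 * Real.log R - 1) = 2 * Real.log R ^ 4 - Real.log R ^ 3 := by ring
    linarith
  by_cases hqt : q = ∞
  · subst hqt
    have hα0 : α = 0 := by rw [hαd]; exact toReal_top_inv
    rw [opE_top]
    refine opN_le μ Φ S p R _ fun f hf => ?_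
    refine (hres S hS subset_rfl f hf.1 hf.2.1 hf.2.2).trans (ENNReal.ofReal_le_ofReal ?_)
    rw [hα0, Real.rpow_zero, mul_one, hZ]
    refine mul_le_mul_of_nonneg_right ?_ hX0
    calc C₀ * Real.log R ^ 3 ≤ C₀ * (2 * Real.log R ^ 4) := mul_le_mul_of_nonneg_left hl3 hC₀
      _ ≤ C₀ * (C6 * Real.log R ^ 4) := by gcongr
      _ = C₀ * C6 * Real.log R ^ 4 := by ring
      _ ≤ (C₀ * C6 + 16) * Real.log R ^ 4 := by
          refine mul_le_mul_of_nonneg_right (by linarith) (by positivity)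
  · rw [opE_real μ Φ _ q hqt]
    have hq2 : 2 ≤ q.toReal := by
      have h := ENNReal.toReal_mono hqt hq
      simpa using h
    refine opQ_le μ Φ S q.toReal p R _ fun f hf => ?_
    obtain ⟨Jn, hJ1, hJ2⟩ := exists_J v (d + B) hv0 (by positivity) R hR
    have hst := strongQ μ Φ hΦ S hS q.toReal p R Z V hq2 (by linarith) hZ0 hV hμV
      (by
        intro A' hA' hA'S g hg hg1 hgA
        rw [← hαd]
        exact hres A' hA' hA'S g hg hg1 hgA) Jn f hf
    refine hst.trans ?_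
    have hvol : volume (Metric.ball (0 : EuclideanSpace ℝ (Fin d)) R) ^ (1 / p) *
        ENNReal.ofReal (1 / 2 ^ Jn) ≤ ENNReal.ofReal X := by
      refine (mul_le_mul' (vol_root v hv R (by linarith) p (by linarith)) le_rfl).trans ?_
      rw [← ENNReal.ofReal_mul (by positivity)]
      refine ENNReal.ofReal_le_ofReal (le_trans ?_ hXB)
      rw [mul_one_div, div_le_iff₀ (by positivity)]
      calc (v + 1) * R ^ (d : ℝ) = R ^ (-B) * ((v + 1) * R ^ ((d : ℝ) + B)) := by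
            have e : R ^ (d : ℝ) = R ^ (-B) * R ^ ((d : ℝ) + B) := by
              rw [← Real.rpow_add hR0]
              congr 1
              ring
            rw [e]
            ring
        _ ≤ R ^ (-B) * 2 ^ Jn := mul_le_mul_of_nonneg_left hJ1 (by positivity)
    refine (add_le_add le_rfl hvol).trans ?_
    have hJ0 : (0 : ℝ) ≤ Jn := Nat.cast_nonneg _
    rw [← ENNReal.ofReal_add (by positivity) hX0]
    refine ENNReal.ofReal_le_ofReal ?_
    have hVJ : V + 2 * Jn ≤ C6 * Real.log R := by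
      have h1 : V * 1 ≤ V * (2 * Real.log R) :=
        mul_le_mul_of_nonneg_left (by linarith) (by linarith)
      rw [← hC5] at hJ2
      have e : C6 * Real.log R = V * (2 * Real.log R) + 2 * (C5 * Real.log R) := by
        rw [hC6]; ring
      rw [e]
      linarith
    have hl4 : (1 : ℝ) ≤ 16 * Real.log R ^ 4 := by
      have h1 : (1 / 2 : ℝ) ^ 4 ≤ Real.log R ^ 4 := pow_le_pow_left₀ (by norm_num) hℓ 4
      norm_num at h1
      linarith
    calc Z * (V + 2 * Jn) + X ≤ Z * (C6 * Real.log R) + 16 * Real.log R ^ 4 * X := by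
          refine add_le_add (mul_le_mul_of_nonneg_left hVJ hZ0) ?_
          calc X = 1 * X := (one_mul _).symm
            _ ≤ 16 * Real.log R ^ 4 * X := mul_le_mul_of_nonneg_right hl4 hX0
      _ = _ := by rw [hZ]; ring

end Pool.Agent.N248.LC
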