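import Pool.Agent.N248.LC.Src

set_option autoImplicit false
set_option linter.unusedSectionVars false

/-!
# Data in `L^q`: lower bounds for the norms on unions of cells
-/

namespace Pool.Agent.N248.LC

open Finset MeasureTheory
open Pool.Agent.N248.RC
open scoped ENNReal

variable {d : ℕ} {Y : Type*} [MeasurableSpace Y] (μ : Measure Y) [IsFiniteMeasure μ]
  (Φ : Y → EuclideanSpace ℝ (Fin d)) {α : Type*} [DecidableEq α]

/-- homogeneity -/
theorem opQ_hom (S : Set Y) (q p R : ℝ) (hq : 1 ≤ q) (g : Y → ℂ) (hg : Measurable g)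
    (hgS : ∀ y, y ∉ S → g y = 0) (hgt : eLpNorm g (ENNReal.ofReal q) μ ≠ ∞) :
    eLpNorm (Eo μ (ker Φ) g) (ENNReal.ofReal p) (volume.restrict (Metric.ball 0 R)) ≤
      opQ μ Φ S q p R * eLpNorm g (ENNReal.ofReal q) μ := by
  have hq0 : ENNReal.ofReal q ≠ 0 := by
    rw [Ne, ENNReal.ofReal_eq_zero, not_le]; linarith
  by_cases h0 : eLpNorm g (ENNReal.ofReal q) μ = 0
  · have hz : g =ᵐ[μ] 0 := (eLpNorm_eq_zero_iff hg.aestronglyMeasurable hq0).1 h0
    have h1 : Eo μ (ker Φ) g = fun _ => 0 := by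
      ext x
      unfold Eo
      rw [← integral_zero Y ℂ (μ := μ)]
      refine integral_congr_ae ?_
      filter_upwards [hz] with y hy
      rw [hy, Pi.zero_apply, zero_mul]
    rw [h1]
    have h2 : eLpNorm (fun _ : EuclideanSpace ℝ (Fin d) => (0 : ℂ)) (ENNReal.ofReal p)
        (volume.restrict (Metric.ball 0 R)) = 0 := eLpNorm_zero
    rw [h2]
    exact bot_le
  · obtain ⟨t, ht⟩ : ∃ t : ℝ, t = (eLpNorm g (ENNReal.ofReal q) μ).toReal := ⟨_, rfl⟩
    have ht0 : 0 < t := by rw [ht]; exact ENNReal.toReal_pos h0 hgt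
    have hte : eLpNorm g (ENNReal.ofReal q) μ = ENNReal.ofReal t := by
      rw [ht, ENNReal.ofReal_toReal hgt]
    have hadm : AdmQ μ S q (((t⁻¹ : ℝ) : ℂ) • g) := by
      refine ⟨hg.const_smul _, fun y hy => by simp [hgS y hy], ?_⟩
      rw [eLpNorm_const_smul, hte, ← ofReal_norm, Complex.norm_real,
        Real.norm_of_nonneg (by positivity), ← ENNReal.ofReal_mul (by positivity),
        inv_mul_cancel₀ ht0.ne', ENNReal.ofReal_one]
    have h1 := le_opQ μ Φ S q p R _ hadm
    have h2 : Eo μ (ker Φ) g = ((t : ℝ) : ℂ) • Eo μ (ker Φ) (((t⁻¹ : ℝ) : ℂ) • g) := by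
      ext x
      rw [Pi.smul_apply, smul_eq_mul]
      unfold Eo
      rw [← integral_const_mul]
      refine integral_congr_ae (Filter.Eventually.of_forall fun y => ?_)
      simp only [Pi.smul_apply, smul_eq_mul]
      rw [← mul_assoc, ← mul_assoc, ← Complex.ofReal_mul, mul_inv_cancel₀ ht0.ne',
        Complex.ofReal_one, one_mul]
    rw [h2, eLpNorm_const_smul, ← ofReal_norm, Complex.norm_real, Real.norm_of_nonneg ht0.le, hte,
      mul_comm]
    exact mul_le_mul' h1 le_rfl

/-- the trivial bound -/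
theorem opQ_triv (hΦ : Measurable Φ) (V : ℝ) (hV : 1 ≤ V) (hμV : μ.real Set.univ ≤ V) (S : Set Y)
    (q p R : ℝ) (hq : 2 ≤ q) (hp : 1 ≤ p) :
    opQ μ Φ S q p R ≤ volume (Metric.ball (0 : EuclideanSpace ℝ (Fin d)) R) ^ (1 / p) *
      ENNReal.ofReal (V + 1) := by
  refine opQ_le μ Φ S q p R _ fun f hf => ?_
  have hfi := adm_int μ S q (by linarith) f hf
  have hgt : MeasurableSet {y | (1 : ℝ) < ‖f y‖} := measurableSet_lt measurable_const hf.1.norm
  have h1 : ∫ y, ‖f y‖ ∂μ ≤ V + 1 := by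
    have h2 := adm_high μ S q hq f hf 1 le_rfl
    rw [← integral_indicator hgt] at h2
    have h3 : ∀ y, ‖f y‖ ≤ 1 + {y | (1 : ℝ) < ‖f y‖}.indicator (fun y => ‖f y‖) y := by
      intro y
      by_cases hy : y ∈ {y | (1 : ℝ) < ‖f y‖}
      · rw [Set.indicator_of_mem hy]; linarith
      · rw [Set.indicator_of_notMem hy]
        have : ‖f y‖ ≤ 1 := not_lt.1 hy
        linarith
    calc ∫ y, ‖f y‖ ∂μ ≤ ∫ y, (1 + {y | (1 : ℝ) < ‖f y‖}.indicator (fun y => ‖f y‖) y) ∂μ :=
          integral_mono hfi.norm ((integrable_const _).add (hfi.norm.indicator hgt)) h3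
      _ = μ.real Set.univ + ∫ y, {y | (1 : ℝ) < ‖f y‖}.indicator (fun y => ‖f y‖) y ∂μ := by
          rw [integral_add (integrable_const _) (hfi.norm.indicator hgt), integral_const,
            smul_eq_mul, mul_one]
      _ ≤ V + 1 / 1 := add_le_add hμV h2
      _ = V + 1 := by norm_num
  have hb : ∀ x, ‖Eo μ (ker Φ) f x‖ ≤ V + 1 := fun x => (Eo_norm_le μ Φ f x hfi).trans h1
  refine (eLpNorm_le_of_ae_bound (Filter.Eventually.of_forall hb)).trans (le_of_eq ?_)
  rw [Measure.restrict_apply_univ, ENNReal.toReal_ofReal (by linarith), one_div p]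

theorem opQ_ne_top (hΦ : Measurable Φ) (S : Set Y)
    (q p R : ℝ) (hq : 2 ≤ q) (hp : 1 ≤ p) : opQ μ Φ S q p R ≠ ∞ := by
  have h0 : 0 ≤ μ.real Set.univ := measureReal_nonneg
  refine ((opQ_triv μ Φ hΦ (1 + μ.real Set.univ) (by linarith) (by linarith) S q p R hq
    hp).trans_lt ?_).ne
  refine ENNReal.mul_lt_top ?_ ENNReal.ofReal_lt_top
  exact ENNReal.rpow_lt_top_of_nonneg (by positivity) measure_ball_lt_top.ne

/-- Hölder's inequality -/
theorem wkA_of_opQ (hΦ : Measurable Φ) (q p R : ℝ) (hq : 2 ≤ q) (hp : 2 ≤ p) :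
    WkA μ (volume.restrict (Metric.ball 0 R)) (ker Φ) (1 / q) p
      (opQ μ Φ Set.univ q p R).toReal := by
  intro A hA f hf hf1 hfA G hG
  have hq0 : 0 < q := by linarith
  set ν := (volume : Measure (EuclideanSpace ℝ (Fin d))).restrict (Metric.ball 0 R) with hν
  have hm := Eo_meas μ (ker Φ) (ker_meas Φ hΦ) f hf
  have hfq : eLpNorm f (ENNReal.ofReal q) μ ≤ ENNReal.ofReal (μ.real A ^ (1 / q)) := by
    have h1 : eLpNorm f (ENNReal.ofReal q) μ ≤
        eLpNorm (A.indicator fun _ => (1 : ℝ)) (ENNReal.ofReal q) μ := by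
      refine eLpNorm_mono_real fun y => ?_
      by_cases hy : y ∈ A
      · rw [Set.indicator_of_mem hy]; exact hf1 y
      · rw [Set.indicator_of_notMem hy, hfA y hy, norm_zero]
    refine h1.trans ?_
    rw [eLpNorm_indicator_const hA (by rw [Ne, ENNReal.ofReal_eq_zero, not_le]; exact hq0)
      ENNReal.ofReal_ne_top, enorm_one, one_mul, ENNReal.toReal_ofReal hq0.le,
      ← ENNReal.ofReal_rpow_of_nonneg measureReal_nonneg (by positivity), Measure.real,
      ENNReal.ofReal_toReal (measure_ne_top _ _)]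
  have hft : eLpNorm f (ENNReal.ofReal q) μ ≠ ∞ := (hfq.trans_lt ENNReal.ofReal_lt_top).ne
  have hhom := (opQ_hom μ Φ Set.univ q p R (by linarith) f hf
    (fun y hy => absurd (Set.mem_univ y) hy) hft).trans (mul_le_mul' le_rfl hfq)
  have h1 : (1 : ℝ≥0∞) ≤ ENNReal.ofReal p := by
    rw [← ENNReal.ofReal_one]
    exact ENNReal.ofReal_le_ofReal (by linarith)
  have h2 := eLpNorm_le_eLpNorm_mul_rpow_measure_univ (μ := ν.restrict G) h1
    hm.aestronglyMeasurable
  have h3 : eLpNorm (Eo μ (ker Φ) f) (ENNReal.ofReal p) (ν.restrict G) ≤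
      opQ μ Φ Set.univ q p R * ENNReal.ofReal (μ.real A ^ (1 / q)) :=
    (eLpNorm_mono_measure _ Measure.restrict_le_self).trans hhom
  rw [integral_norm_eq_lintegral_enorm hm.aestronglyMeasurable, ← eLpNorm_one_eq_lintegral_enorm]
  have h4 : eLpNorm (Eo μ (ker Φ) f) 1 (ν.restrict G) ≤
      opQ μ Φ Set.univ q p R * ENNReal.ofReal (μ.real A ^ (1 / q)) * ν G ^ (1 - 1 / p) := by
    refine h2.trans ?_
    rw [ENNReal.toReal_one, ENNReal.toReal_ofReal (by linarith), Measure.restrict_apply_univ,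
      div_one]
    exact mul_le_mul' h3 le_rfl
  have hexp : 0 ≤ 1 - 1 / p := by
    rw [sub_nonneg, div_le_one (by linarith)]
    linarith
  have h5 : opQ μ Φ Set.univ q p R * ENNReal.ofReal (μ.real A ^ (1 / q)) *
      ν G ^ (1 - 1 / p) ≠ ∞ :=
    ENNReal.mul_ne_top (ENNReal.mul_ne_top (opQ_ne_top μ Φ hΦ _ q p R hq (by linarith))
      ENNReal.ofReal_ne_top) (ENNReal.rpow_ne_top_of_nonneg hexp (measure_ne_top _ _))
  refine (ENNReal.toReal_mono h5 h4).trans (le_of_eq ?_)
  rw [ENNReal.toReal_mul, ENNReal.toReal_mul, ENNReal.toReal_ofReal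
    (Real.rpow_nonneg measureReal_nonneg _)]
  congr 1
  exact (ENNReal.toReal_rpow _ _).symm

theorem lint_rpow (q : ℝ) (hq : 0 < q) (f : Y → ℂ) :
    eLpNorm f (ENNReal.ofReal q) μ ^ q = ∫⁻ y, ‖f y‖ₑ ^ q ∂μ := by
  rw [eLpNorm_eq_lintegral_rpow_enorm_toReal (by
      rw [Ne, ENNReal.ofReal_eq_zero, not_le]; exact hq) ENNReal.ofReal_ne_top,
    ENNReal.toReal_ofReal hq.le, ← ENNReal.rpow_mul, one_div_mul_cancel hq.ne', ENNReal.rpow_one]

/-- **The averages over the sets of cells.** -/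
theorem avg_lowQ (hΦ : Measurable Φ) (J : Finset α) (k : ℕ) (hk : 1 ≤ k) (hkJ : k ≤ J.card)
    (θ : α → Set Y) (hθ : ∀ i ∈ J, MeasurableSet (θ i)) (hd : (J : Set α).PairwiseDisjoint θ)
    (hcov : ∀ᵐ y ∂μ, y ∈ un θ J) (q p R : ℝ) (hq : 2 ≤ q) (hp : 2 ≤ p)
    (X T δ : ℝ) (hX : 0 ≤ X) (hT : 0 ≤ T) (hδ : 0 ≤ δ)
    (htriv : ∀ I, opQ μ Φ (un θ I) q p R ≤ ENNReal.ofReal T)
    (Bd : Finset (Finset α)) (hBd : Bd ⊆ powersetCard k J)
    (hBdc : (Bd.card : ℝ) ≤ δ * ((J.card.choose k : ℕ) : ℝ))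
    (hgood : ∀ I ∈ powersetCard k J, I ∉ Bd → opQ μ Φ (un θ I) q p R ≤ ENNReal.ofReal X) :
    ENNReal.ofReal (((k : ℝ) / J.card) ^ (1 - 1 / q)) * opQ μ Φ Set.univ q p R ≤
      ENNReal.ofReal (X + δ * T * J.card) := by
  have hq0 : 0 < q := by linarith
  have hkR : (0 : ℝ) < k := by exact_mod_cast hk
  have hN : (0 : ℝ) < J.card := by
    have : 0 < J.card := by omega
    exact_mod_cast this
  obtain ⟨c, hc⟩ : ∃ c : ℕ, c = (J.card - 1).choose (k - 1) := ⟨_, rfl⟩
  obtain ⟨M, hM⟩ : ∃ M : ℕ, M = J.card.choose k := ⟨_, rfl⟩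
  have hM0 : 0 < M := by rw [hM]; exact Nat.choose_pos hkJ
  have hMR : (0 : ℝ) < M := by exact_mod_cast hM0
  have hrel : (k : ℝ) * M = J.card * c := by
    have := choose_rel J.card k hk hkJ
    rw [← hM, ← hc] at this
    exact_mod_cast this
  rw [← hM] at hBdc
  -- the density
  obtain ⟨τ, hτ⟩ : ∃ τ : ℝ, τ = (k : ℝ) / J.card := ⟨_, rfl⟩
  rw [← hτ]
  have hτ0 : 0 < τ := by rw [hτ]; positivity
  have hcM : (c : ℝ) = τ * M := by
    rw [hτ]
    field_simp
    linarith
  have hτN : 1 ≤ τ * J.card := by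
    rw [hτ, div_mul_cancel₀ _ hN.ne']
    exact_mod_cast hk
  have hτ1 : τ ≤ 1 := by
    rw [hτ, div_le_one hN]
    exact_mod_cast hkJ
  -- for one function
  have key : ∀ f, AdmQ μ Set.univ q f →
      ENNReal.ofReal τ * eLpNorm (Eo μ (ker Φ) f) (ENNReal.ofReal p)
        (volume.restrict (Metric.ball 0 R)) ≤ ENNReal.ofReal (X * τ ^ (1 / q) + δ * T) := by
    intro f hf
    have hfi := adm_int μ Set.univ q (by linarith) f hf
    set ν := (volume : Measure (EuclideanSpace ℝ (Fin d))).restrict (Metric.ball 0 R) with hν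
    have hUm : ∀ I ∈ powersetCard k J, MeasurableSet (un θ I) := by
      intro I hI
      unfold un
      exact Finset.measurableSet_biUnion _ fun i hi => hθ i ((mem_powersetCard.1 hI).1 hi)
    -- the number of sets which contain a point
    have hmult : ∀ᵐ y ∂μ, ∀ z : ℂ, ∑ I ∈ powersetCard k J, (un θ I).indicator (fun _ => z) y =
        (c : ℂ) * z := by
      filter_upwards [hcov] with y hy z
      unfold un at hy
      rw [Set.mem_iUnion₂] at hy
      obtain ⟨j, hj, hyj⟩ := hy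
      have h1 : ∀ I ∈ powersetCard k J, (un θ I).indicator (fun _ => z) y =
          if j ∈ I then z else 0 := by
        intro I hI
        by_cases hjI : j ∈ I
        · rw [if_pos hjI, Set.indicator_of_mem]
          exact Set.mem_iUnion₂.2 ⟨j, hjI, hyj⟩
        · rw [if_neg hjI, Set.indicator_of_notMem]
          intro h2
          unfold un at h2
          rw [Set.mem_iUnion₂] at h2
          obtain ⟨i, hi, hyi⟩ := h2
          have hij : i ≠ j := fun h => hjI (h ▸ hi)
          have := hd ((mem_powersetCard.1 hI).1 hi) hj hij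
          exact Set.disjoint_left.1 this hyi hyj
      rw [Finset.sum_congr rfl h1, ← Finset.sum_filter, Finset.sum_const, card_mem J k hk j hj,
        nsmul_eq_mul, hc]
    have hsum : ∀ x, ∑ I ∈ powersetCard k J, Eo μ (ker Φ) ((un θ I).indicator f) x =
        (c : ℂ) * Eo μ (ker Φ) f x := by
      intro x
      unfold Eo
      rw [← integral_finsetSum _ fun I hI => ker_int μ Φ hΦ _ (hfi.indicator (hUm I hI)) x,
        ← integral_const_mul]
      refine integral_congr_ae ?_
      filter_upwards [hmult] with y hy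
      rw [← Finset.sum_mul, ← mul_assoc, ← hy (f y)]
      congr 1
    have h3 : (c : ℝ≥0∞) * eLpNorm (Eo μ (ker Φ) f) (ENNReal.ofReal p) ν =
        eLpNorm (∑ I ∈ powersetCard k J, Eo μ (ker Φ) ((un θ I).indicator f))
          (ENNReal.ofReal p) ν := by
      have h4 : ∑ I ∈ powersetCard k J, Eo μ (ker Φ) ((un θ I).indicator f) =
          (c : ℂ) • Eo μ (ker Φ) f := by
        ext x
        rw [Finset.sum_apply, hsum x]
        rfl
      rw [h4, eLpNorm_const_smul]
      congr 1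
      rw [← ofReal_norm, Complex.norm_natCast, ENNReal.ofReal_natCast]
    have h1 : (1 : ℝ≥0∞) ≤ ENNReal.ofReal p := by
      rw [← ENNReal.ofReal_one]
      exact ENNReal.ofReal_le_ofReal (by linarith)
    have hfI : ∀ I, eLpNorm ((un θ I).indicator f) (ENNReal.ofReal q) μ ≤ 1 := fun I =>
      (eLpNorm_indicator_le f).trans hf.2.2
    -- the norms of the restrictions
    have hnorms : ∑ I ∈ powersetCard k J, eLpNorm ((un θ I).indicator f) (ENNReal.ofReal q) μ ≤
        ENNReal.ofReal (τ ^ (1 / q) * M) := by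
      obtain ⟨s₁, hs₁⟩ : ∃ s₁ : ℝ≥0∞, s₁ =
        ∑ I ∈ powersetCard k J, eLpNorm ((un θ I).indicator f) (ENNReal.ofReal q) μ := ⟨_, rfl⟩
      rw [← hs₁]
      have hp1 := ENNReal.rpow_sum_le_const_mul_sum_rpow (powersetCard k J)
        (fun I => eLpNorm ((un θ I).indicator f) (ENNReal.ofReal q) μ) (show 1 ≤ q by linarith)
      rw [← hs₁, card_powersetCard, ← hM] at hp1
      have hqs : ∑ I ∈ powersetCard k J, eLpNorm ((un θ I).indicator f) (ENNReal.ofReal q) μ ^ q ≤
          (c : ℝ≥0∞) := by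
        simp_rw [lint_rpow μ q hq0]
        rw [← lintegral_finsetSum' _ fun I hI =>
          ((hf.1.indicator (hUm I hI)).enorm.pow_const q).aemeasurable]
        calc ∫⁻ y, ∑ I ∈ powersetCard k J, ‖(un θ I).indicator f y‖ₑ ^ q ∂μ =
            ∫⁻ y, (c : ℝ≥0∞) * ‖f y‖ₑ ^ q ∂μ := by
              refine lintegral_congr_ae ?_
              filter_upwards [hcov] with y hy
              unfold un at hy
              rw [Set.mem_iUnion₂] at hy
              obtain ⟨j, hj, hyj⟩ := hy
              have h1 : ∀ I ∈ powersetCard k J, ‖(un θ I).indicator f y‖ₑ ^ q =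
                  if j ∈ I then ‖f y‖ₑ ^ q else 0 := by
                intro I hI
                by_cases hjI : j ∈ I
                · rw [if_pos hjI, Set.indicator_of_mem]
                  exact Set.mem_iUnion₂.2 ⟨j, hjI, hyj⟩
                · rw [if_neg hjI, Set.indicator_of_notMem, enorm_zero,
                    ENNReal.zero_rpow_of_pos hq0]
                  intro h2
                  unfold un at h2
                  rw [Set.mem_iUnion₂] at h2
                  obtain ⟨i, hi, hyi⟩ := h2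
                  have hij : i ≠ j := fun h => hjI (h ▸ hi)
                  have := hd ((mem_powersetCard.1 hI).1 hi) hj hij
                  exact Set.disjoint_left.1 this hyi hyj
              rw [Finset.sum_congr rfl h1, ← Finset.sum_filter, Finset.sum_const,
                card_mem J k hk j hj, nsmul_eq_mul, hc]
          _ = (c : ℝ≥0∞) * ∫⁻ y, ‖f y‖ₑ ^ q ∂μ := lintegral_const_mul _ (hf.1.enorm.pow_const q)
          _ ≤ (c : ℝ≥0∞) * 1 := mul_le_mul' le_rfl (adm_lint μ Set.univ q (by linarith) f hf)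
          _ = c := mul_one _
      have hp2 : s₁ ^ q ≤ ENNReal.ofReal ((τ ^ (1 / q) * M) ^ q) := by
        refine (hp1.trans (mul_le_mul' le_rfl hqs)).trans (le_of_eq ?_)
        rw [← ENNReal.ofReal_natCast M, ← ENNReal.ofReal_natCast c,
          ENNReal.ofReal_rpow_of_pos hMR, ← ENNReal.ofReal_mul (by positivity)]
        congr 1
        rw [Real.mul_rpow (by positivity) hMR.le, ← Real.rpow_mul hτ0.le,
          one_div_mul_cancel hq0.ne', Real.rpow_one, hcM]
        have e : (M : ℝ) ^ q = (M : ℝ) ^ (q - 1) * M := by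
          rw [← Real.rpow_add_one hMR.ne']
          congr 1
          ring
        rw [e]
        ring
      rw [← ENNReal.ofReal_rpow_of_nonneg (by positivity) hq0.le] at hp2
      exact (ENNReal.rpow_le_rpow_iff hq0).1 hp2
    have hIs : ∀ I ∈ powersetCard k J,
        eLpNorm (Eo μ (ker Φ) ((un θ I).indicator f)) (ENNReal.ofReal p) ν ≤
          ENNReal.ofReal X * eLpNorm ((un θ I).indicator f) (ENNReal.ofReal q) μ +
            if I ∈ Bd then ENNReal.ofReal T else 0 := by
      intro I hI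
      have h5 := opQ_hom μ Φ (un θ I) q p R (by linarith) ((un θ I).indicator f)
        (hf.1.indicator (hUm I hI)) (fun y hy => Set.indicator_of_notMem hy _)
        ((hfI I).trans_lt ENNReal.one_lt_top).ne
      by_cases hb : I ∈ Bd
      · rw [if_pos hb]
        refine (h5.trans ?_).trans (self_le_add_left _ _)
        calc opQ μ Φ (un θ I) q p R * eLpNorm ((un θ I).indicator f) (ENNReal.ofReal q) μ ≤
            ENNReal.ofReal T * 1 := mul_le_mul' (htriv I) (hfI I)
          _ = _ := mul_one _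
      · rw [if_neg hb, add_zero]
        exact h5.trans (mul_le_mul' (hgood I hI hb) le_rfl)
    have hfin : (c : ℝ≥0∞) * eLpNorm (Eo μ (ker Φ) f) (ENNReal.ofReal p) ν ≤
        ENNReal.ofReal X * ENNReal.ofReal (τ ^ (1 / q) * M) +
          (Bd.card : ℝ≥0∞) * ENNReal.ofReal T := by
      rw [h3]
      refine (eLpNorm_sum_le (fun I hI => (Eo_meas μ (ker Φ) (ker_meas Φ hΦ) _
        (hf.1.indicator (hUm I hI))).aestronglyMeasurable) h1).trans ?_
      refine (Finset.sum_le_sum hIs).trans ?_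
      rw [Finset.sum_add_distrib, ← Finset.mul_sum]
      refine add_le_add (mul_le_mul' le_rfl hnorms) (le_of_eq ?_)
      rw [Finset.sum_ite_mem, Finset.inter_eq_right.2 hBd, Finset.sum_const, nsmul_eq_mul]
    -- divide by `M`
    have hMe : (M : ℝ≥0∞) = ENNReal.ofReal M := (ENNReal.ofReal_natCast M).symm
    have h6 : ENNReal.ofReal M * (ENNReal.ofReal τ *
        eLpNorm (Eo μ (ker Φ) f) (ENNReal.ofReal p) ν) ≤
        ENNReal.ofReal M * ENNReal.ofReal (X * τ ^ (1 / q) + δ * T) := by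
      calc _ = ENNReal.ofReal (τ * M) * eLpNorm (Eo μ (ker Φ) f) (ENNReal.ofReal p) ν := by
            rw [ENNReal.ofReal_mul hτ0.le]
            ring
        _ = (c : ℝ≥0∞) * eLpNorm (Eo μ (ker Φ) f) (ENNReal.ofReal p) ν := by
            rw [← hcM, ENNReal.ofReal_natCast]
        _ ≤ ENNReal.ofReal X * ENNReal.ofReal (τ ^ (1 / q) * M) +
            (Bd.card : ℝ≥0∞) * ENNReal.ofReal T := hfin
        _ ≤ ENNReal.ofReal X * ENNReal.ofReal (τ ^ (1 / q) * M) +
            ENNReal.ofReal (δ * M) * ENNReal.ofReal T := by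
            refine add_le_add le_rfl (mul_le_mul' ?_ le_rfl)
            rw [← ENNReal.ofReal_natCast]
            exact ENNReal.ofReal_le_ofReal hBdc
        _ = _ := by
            rw [← ENNReal.ofReal_mul hX, ← ENNReal.ofReal_mul (by positivity),
              ← ENNReal.ofReal_add (by positivity) (by positivity),
              ← ENNReal.ofReal_mul hMR.le]
            congr 1
            ring
    have hM1 : ENNReal.ofReal (M : ℝ) ≠ 0 := by
      rw [Ne, ENNReal.ofReal_eq_zero, not_le]; exact hMR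
    exact (ENNReal.mul_le_mul_iff_right hM1 ENNReal.ofReal_ne_top).1 h6
  -- the supremum
  have hτs : τ = τ ^ (1 / q) * τ ^ (1 - 1 / q) := by
    rw [← Real.rpow_add hτ0, add_sub_cancel, Real.rpow_one]
  have hτq : 0 < τ ^ (1 / q) := Real.rpow_pos_of_pos hτ0 _
  have hτq1 : ENNReal.ofReal (τ ^ (1 / q)) ≠ 0 := by
    rw [Ne, ENNReal.ofReal_eq_zero, not_le]; exact hτq
  unfold opQ
  rw [ENNReal.mul_iSup]
  refine iSup_le fun f => ?_
  rw [ENNReal.mul_iSup]
  refine iSup_le fun hf => ?_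
  have h7 := key f hf
  have h8 : ENNReal.ofReal (τ ^ (1 / q)) * (ENNReal.ofReal (τ ^ (1 - 1 / q)) *
      eLpNorm (Eo μ (ker Φ) f) (ENNReal.ofReal p) (volume.restrict (Metric.ball 0 R))) ≤
      ENNReal.ofReal (τ ^ (1 / q)) * ENNReal.ofReal (X + δ * T * J.card) := by
    rw [← mul_assoc, ← ENNReal.ofReal_mul hτq.le, ← hτs, ← ENNReal.ofReal_mul hτq.le]
    refine h7.trans (ENNReal.ofReal_le_ofReal ?_)
    have h9 : 1 ≤ τ ^ (1 / q) * J.card := by
      refine hτN.trans (mul_le_mul_of_nonneg_right ?_ hN.le)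
      calc τ = τ ^ (1 : ℝ) := (Real.rpow_one _).symm
        _ ≤ τ ^ (1 / q) := Real.rpow_le_rpow_of_exponent_ge hτ0 hτ1 (by
            rw [div_le_one hq0]; linarith)
    have h10 : δ * T * 1 ≤ δ * T * (τ ^ (1 / q) * J.card) :=
      mul_le_mul_of_nonneg_left h9 (by positivity)
    calc X * τ ^ (1 / q) + δ * T ≤ X * τ ^ (1 / q) + δ * T * (τ ^ (1 / q) * J.card) := by linarith
      _ = _ := by ring
  exact (ENNReal.mul_le_mul_iff_right hτq1 ENNReal.ofReal_ne_top).1 h8

/-- from bounded data to data in `L^q` -/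
theorem opN_le_opQ (S : Set Y) (hS : MeasurableSet S) (q p R : ℝ) (hq : 1 ≤ q) :
    opN μ Φ S p R ≤ opQ μ Φ S q p R * ENNReal.ofReal (μ.real S ^ (1 / q)) := by
  refine opN_le μ Φ S p R _ fun f hf => ?_
  have hq0 : 0 < q := by linarith
  have hfq : eLpNorm f (ENNReal.ofReal q) μ ≤ ENNReal.ofReal (μ.real S ^ (1 / q)) := by
    have h1 : eLpNorm f (ENNReal.ofReal q) μ ≤
        eLpNorm (S.indicator fun _ => (1 : ℝ)) (ENNReal.ofReal q) μ := by
      refine eLpNorm_mono_real fun y => ?_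
      by_cases hy : y ∈ S
      · rw [Set.indicator_of_mem hy]; exact hf.2.1 y
      · rw [Set.indicator_of_notMem hy, hf.2.2 y hy, norm_zero]
    refine h1.trans ?_
    rw [eLpNorm_indicator_const hS (by rw [Ne, ENNReal.ofReal_eq_zero, not_le]; exact hq0)
      ENNReal.ofReal_ne_top, enorm_one, one_mul, ENNReal.toReal_ofReal hq0.le,
      ← ENNReal.ofReal_rpow_of_nonneg measureReal_nonneg (by positivity), Measure.real,
      ENNReal.ofReal_toReal (measure_ne_top _ _)]
  exact (opQ_hom μ Φ S q p R hq f hf.1 hf.2.2 (hfq.trans_lt ENNReal.ofReal_lt_top).ne).trans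
    (mul_le_mul' le_rfl hfq)

end Pool.Agent.N248.LC
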