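import Pool.Agent.N248.LC.Gen2

set_option autoImplicit false
set_option linter.unusedSectionVars false

/-!
# Data in `L^q`, `2 ≤ q ≤ ∞`: lower bounds for the norms on unions of cells
-/

namespace Pool.Agent.N248.LC

open Finset MeasureTheory
open Pool.Agent.N248.RC
open scoped ENNReal

variable {d : ℕ} {Y : Type*} [MeasurableSpace Y] (μ : Measure Y) [IsFiniteMeasure μ]
  (Φ : Y → EuclideanSpace ℝ (Fin d)) {α : Type*} [DecidableEq α]

theorem toReal_two (q : ℝ≥0∞) (hqt : q ≠ ∞) (hq : 2 ≤ q) : 2 ≤ q.toReal := by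
  have h := ENNReal.toReal_mono hqt hq
  simpa using h

theorem inv_range (q : ℝ≥0∞) (hq : 2 ≤ q) : 0 ≤ 1 / q.toReal ∧ 1 / q.toReal ≤ 1 / 2 := by
  by_cases hqt : q = ∞
  · subst hqt
    rw [toReal_top_inv]
    norm_num
  · have h := toReal_two q hqt hq
    refine ⟨by positivity, ?_⟩
    rw [div_le_div_iff₀ (by linarith) (by norm_num)]
    linarith

/-- **The averages over the sets of cells.** -/
theorem avg_lowE (hΦ : Measurable Φ) (J : Finset α) (k : ℕ) (hk : 1 ≤ k) (hkJ : k ≤ J.card)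
    (θ : α → Set Y) (hθ : ∀ i ∈ J, MeasurableSet (θ i)) (hd : (J : Set α).PairwiseDisjoint θ)
    (hcov : ∀ᵐ y ∂μ, y ∈ un θ J) (q : ℝ≥0∞) (p R : ℝ) (hq : 2 ≤ q) (hp : 2 ≤ p)
    (X T δ : ℝ) (hX : 0 ≤ X) (hT : 0 ≤ T) (hδ : 0 ≤ δ)
    (htriv : ∀ I, opE μ Φ (un θ I) q p R ≤ ENNReal.ofReal T)
    (Bd : Finset (Finset α)) (hBd : Bd ⊆ powersetCard k J)
    (hBdc : (Bd.card : ℝ) ≤ δ * ((J.card.choose k : ℕ) : ℝ))
    (hgood : ∀ I ∈ powersetCard k J, I ∉ Bd → opE μ Φ (un θ I) q p R ≤ ENNReal.ofReal X) :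
    ENNReal.ofReal (((k : ℝ) / J.card) ^ (1 - 1 / q.toReal)) * opE μ Φ Set.univ q p R ≤
      ENNReal.ofReal (X + δ * T * J.card) := by
  by_cases hqt : q = ∞
  · subst hqt
    rw [toReal_top_inv, sub_zero, Real.rpow_one]
    simp_rw [opE_top] at htriv hgood ⊢
    have hkR : (0 : ℝ) < k := by exact_mod_cast hk
    have hN1 : (1 : ℝ) ≤ J.card := by
      have : 1 ≤ J.card := by omega
      exact_mod_cast this
    have hN : (0 : ℝ) < J.card := by linarith
    have h := avg_low μ Φ hΦ J k hk hkJ θ hθ hd hcov p R hp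
    obtain ⟨M, hM⟩ : ∃ M : ℕ, M = J.card.choose k := ⟨_, rfl⟩
    rw [← hM] at h hBdc
    have hM0 : 0 < M := by rw [hM]; exact Nat.choose_pos hkJ
    have hMR : (0 : ℝ) < M := by exact_mod_cast hM0
    have hsum : ∑ I ∈ powersetCard k J, opN μ Φ (un θ I) p R ≤
        ENNReal.ofReal (M * (X + δ * T)) := by
      have h1 : ∀ I ∈ powersetCard k J, opN μ Φ (un θ I) p R ≤
          ENNReal.ofReal X + if I ∈ Bd then ENNReal.ofReal T else 0 := by
        intro I hI
        by_cases hb : I ∈ Bd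
        · rw [if_pos hb]
          exact (htriv I).trans (self_le_add_left _ _)
        · rw [if_neg hb, add_zero]
          exact hgood I hI hb
      refine (Finset.sum_le_sum h1).trans ?_
      rw [Finset.sum_add_distrib, Finset.sum_const, card_powersetCard, ← hM, nsmul_eq_mul,
        Finset.sum_ite_mem, Finset.inter_eq_right.2 hBd, Finset.sum_const, nsmul_eq_mul]
      calc (M : ℝ≥0∞) * ENNReal.ofReal X + (Bd.card : ℝ≥0∞) * ENNReal.ofReal T ≤
            ENNReal.ofReal M * ENNReal.ofReal X + ENNReal.ofReal (δ * M) * ENNReal.ofReal T := by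
            rw [ENNReal.ofReal_natCast]
            refine add_le_add le_rfl (mul_le_mul' ?_ le_rfl)
            rw [← ENNReal.ofReal_natCast]
            exact ENNReal.ofReal_le_ofReal hBdc
        _ = _ := by
            rw [← ENNReal.ofReal_mul hMR.le, ← ENNReal.ofReal_mul (by positivity),
              ← ENNReal.ofReal_add (by positivity) (by positivity)]
            congr 1
            ring
    have h2 := h.trans (mul_le_mul' le_rfl hsum)
    have h3 : ENNReal.ofReal (J.card * M) * (ENNReal.ofReal ((k : ℝ) / J.card) *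
        opN μ Φ Set.univ p R) ≤ ENNReal.ofReal (J.card * M) *
        ENNReal.ofReal (X + δ * T * J.card) := by
      calc _ = (k : ℝ≥0∞) * (M : ℝ≥0∞) * opN μ Φ Set.univ p R := by
            rw [← mul_assoc, ← ENNReal.ofReal_mul (by positivity)]
            congr 1
            rw [← ENNReal.ofReal_natCast k, ← ENNReal.ofReal_natCast M,
              ← ENNReal.ofReal_mul hkR.le]
            congr 1
            field_simp
        _ ≤ (J.card : ℝ≥0∞) * ENNReal.ofReal (M * (X + δ * T)) := h2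
        _ = ENNReal.ofReal (J.card * (M * (X + δ * T))) := by
            rw [← ENNReal.ofReal_natCast J.card, ← ENNReal.ofReal_mul hN.le]
        _ ≤ _ := by
            rw [← ENNReal.ofReal_mul (by positivity)]
            refine ENNReal.ofReal_le_ofReal ?_
            rw [mul_assoc]
            refine mul_le_mul_of_nonneg_left (mul_le_mul_of_nonneg_left ?_ hMR.le) hN.le
            have : δ * T * 1 ≤ δ * T * J.card := mul_le_mul_of_nonneg_left hN1 (by positivity)
            linarith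
    have hM1 : ENNReal.ofReal ((J.card : ℝ) * M) ≠ 0 := by
      rw [Ne, ENNReal.ofReal_eq_zero, not_le]; positivity
    exact (ENNReal.mul_le_mul_iff_right hM1 ENNReal.ofReal_ne_top).1 h3
  · have hq2 := toReal_two q hqt hq
    simp_rw [opE_real μ Φ _ q hqt] at htriv hgood ⊢
    exact avg_lowQ μ Φ hΦ J k hk hkJ θ hθ hd hcov q.toReal p R hq2 hp X T δ hX hT hδ htriv Bd hBd
      hBdc hgood

/-- from bounded data to data in `L^q` -/
theorem opN_le_opE (S : Set Y) (hS : MeasurableSet S) (q : ℝ≥0∞) (p R : ℝ) (hq : 2 ≤ q) :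
    opN μ Φ S p R ≤ opE μ Φ S q p R * ENNReal.ofReal (μ.real S ^ (1 / q.toReal)) := by
  by_cases hqt : q = ∞
  · subst hqt
    rw [toReal_top_inv, Real.rpow_zero, ENNReal.ofReal_one, mul_one, opE_top]
  · rw [opE_real μ Φ _ q hqt]
    exact opN_le_opQ μ Φ S hS q.toReal p R (by linarith [toReal_two q hqt hq])

/-- the trivial bound -/
theorem opE_triv (hΦ : Measurable Φ) (V : ℝ) (hV : 1 ≤ V) (hμV : μ.real Set.univ ≤ V) (S : Set Y)
    (q : ℝ≥0∞) (p R : ℝ) (hq : 2 ≤ q) (hp : 2 ≤ p) :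
    opE μ Φ S q p R ≤ volume (Metric.ball (0 : EuclideanSpace ℝ (Fin d)) R) ^ (1 / p) *
      ENNReal.ofReal (V + 1) := by
  by_cases hqt : q = ∞
  · subst hqt
    rw [opE_top]
    refine (opN_lt_top μ Φ hΦ S p R hp).trans (mul_le_mul' le_rfl ?_)
    exact ENNReal.ofReal_le_ofReal (by linarith)
  · rw [opE_real μ Φ _ q hqt]
    exact opQ_triv μ Φ hΦ V hV hμV S q.toReal p R (toReal_two q hqt hq) (by linarith)

/-- data in `L^q` -/
theorem wkA_monoE (ν : Measure (EuclideanSpace ℝ (Fin d))) (V : ℝ) (hV : 1 ≤ V)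
    (hμV : μ.real Set.univ ≤ V) (p K : ℝ) (hK : 0 ≤ K) (hW : WkA μ ν (ker Φ) (1 / 2) p K)
    (q : ℝ≥0∞) (hq : 2 ≤ q) : WkA μ ν (ker Φ) (1 / q.toReal) p (V * K) := by
  by_cases hqt : q = ∞
  · subst hqt
    rw [toReal_top_inv]
    intro A hA f hf hf1 hfA G hG
    refine (hW A hA f hf hf1 hfA G hG).trans ?_
    refine mul_le_mul_of_nonneg_right ?_ (Real.rpow_nonneg measureReal_nonneg _)
    rw [Real.rpow_zero, mul_one, mul_comm V]
    refine mul_le_mul_of_nonneg_left ?_ hK
    have h1 : μ.real A ≤ V := (measureReal_mono (Set.subset_univ _)).trans hμV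
    calc μ.real A ^ (1 / 2 : ℝ) ≤ V ^ (1 / 2 : ℝ) :=
          Real.rpow_le_rpow measureReal_nonneg h1 (by norm_num)
      _ ≤ V ^ (1 : ℝ) := Real.rpow_le_rpow_of_exponent_le hV (by norm_num)
      _ = V := Real.rpow_one _
  · exact wkA_mono μ Φ ν V hV hμV p K hK hW q.toReal (toReal_two q hqt hq)

end Pool.Agent.N248.LC
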