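import Pool.Agent.N248.LC.Res

set_option autoImplicit false
set_option linter.unusedSectionVars false

/-!
# Random unions of cells and data in `L^q`: the levels of transforms
-/

namespace Pool.Agent.N248.LC

open Finset MeasureTheory
open Pool.Agent.N248.RC

variable {d : ℕ} {Y : Type*} [MeasurableSpace Y] (μ : Measure Y) [IsFiniteMeasure μ]
  (Φ : Y → EuclideanSpace ℝ (Fin d)) {α : Type*} [DecidableEq α]

theorem lv_of_good (hΦ : Measurable Φ) (ρ0 : ℝ) (hρ0 : 0 ≤ ρ0) (hΦb : ∀ y, ‖Φ y‖ ≤ ρ0)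
    (J : Finset α) (k : ℕ) (hk : 1 ≤ k) (θ : α → Set Y)
    (κ : ℝ) (hκ : 0 < κ) (R : ℝ) (ρ : ℝ) (hρ : 0 < ρ) (M : ℕ)
    (hM : R ≤ M * ρ) (hρk : ρ0 * (d * ρ) ≤ 1 / (16 * Real.sqrt k)) (Lg Li a : ℝ) (hLg : 1 ≤ Lg)
    (hLi : 0 ≤ Li) (ha : 0 ≤ a) (hexc : 4 * μ.real Set.univ * Real.exp (-Lg) ≤ κ)
    (I : Finset α) (hIJ : I ∈ powersetCard k J) (hI : GoodI μ J k θ κ (Al Φ ρ M) Lg Li a I) :
    Lv μ (volume.restrict (Metric.ball 0 R)) (ker Φ) (un θ I) (Nat.clog 4 k) ((k : ℝ) / J.card) κ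
      (17412 * Lg * Li + a + 3) := by
  classical
  intro g hgm hgi hg1 j hj
  have hbm : MeasurableSet (Metric.ball (0 : EuclideanSpace ℝ (Fin d)) R) := measurableSet_ball
  set g' : EuclideanSpace ℝ (Fin d) → ℂ := (Metric.ball 0 R).indicator g with hg'
  have hae : g' =ᵐ[volume.restrict (Metric.ball 0 R)] g := by
    filter_upwards [ae_restrict_mem hbm] with x hx
    rw [hg', Set.indicator_of_mem hx]
  have hg'i : Integrable g' (volume.restrict (Metric.ball 0 R)) := hgi.congr hae.symm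
  have hg'1 : ∫ x in Metric.ball 0 R, ‖g' x‖ ≤ 1 := by
    refine le_trans (le_of_eq (integral_congr_ae ?_)) hg1
    filter_upwards [hae] with x hx
    rw [hx]
  have htr : ∀ y, tr (volume.restrict (Metric.ball 0 R)) (ker Φ) g' y =
      tr (volume.restrict (Metric.ball 0 R)) (ker Φ) g y := by
    intro y
    unfold tr
    refine integral_congr_ae ?_
    filter_upwards [hae] with x hx
    rw [hx]
  have hφm := ker_meas Φ hΦ
  obtain ⟨w, hw0, hw1, hw⟩ := weights (volume.restrict (Metric.ball 0 R)) (ker Φ) hφm (ker_norm Φ)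
    (fun b => ker Φ (gpt ρ M b)) (fun b y => ker_norm Φ _ y) (rnd ρ M)
    (fun b => rnd_meas ρ M (measurableSet_singleton b)) (Metric.ball 0 R)
    (1 / (16 * Real.sqrt k)) (by positivity)
    (fun x hx y => (ker_close Φ ρ0 hΦb x _ y).trans
      ((mul_le_mul_of_nonneg_left (rnd_near ρ hρ M R hM x hx) hρ0).trans hρk))
    g' hg'i hg'1 (fun x hx => Set.indicator_of_notMem hx _)
  have hG : ∀ y, |‖tr (volume.restrict (Metric.ball 0 R)) (ker Φ) g y‖ -
      Real.sqrt 2 * ‖avg w (Al Φ ρ M) y‖| ≤ 1 / (16 * Real.sqrt k) := by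
    intro y
    rw [← htr y]
    exact hw y
  have hIJ' := mem_powersetCard.1 hIJ
  have hkJ : k ≤ J.card := hIJ'.2 ▸ card_le_card hIJ'.1
  have hk0 : (1 : ℝ) ≤ k := by exact_mod_cast hk
  have hsk : 1 ≤ Real.sqrt k := Real.one_le_sqrt.2 hk0
  obtain ⟨hK1, hK2⟩ := pow_clog k hk
  set K := Nat.clog 4 k with hK
  have hhalf : (1 / 2 : ℝ) ^ K = ((2 : ℝ) ^ K)⁻¹ := by rw [one_div, inv_pow]
  have hm1 : (4352 * 4 ^ (j + 1) * Lg : ℝ) ≤ mm Lg j := Nat.le_ceil _
  have h41 : (1 : ℝ) ≤ 4 ^ (j + 1) := one_le_pow₀ (by norm_num)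
  have hm0 : 1 ≤ mm Lg j := by
    have : (1 : ℝ) ≤ (mm Lg j : ℝ) := by nlinarith
    exact_mod_cast this
  have hlev := level μ J k hkJ θ κ (Al Φ ρ M) (Al_meas Φ hΦ ρ M) (Al_norm Φ ρ M) (mm Lg j) hm0
    ((1 / 2 : ℝ) ^ (j + 1)) (tt Lg Li a j) (by positivity) (by
      refine le_trans ?_ hexc
      refine mul_le_mul_of_nonneg_left (Real.exp_le_exp.2 (neg_le_neg ?_)) (by positivity)
      have e : ((1 / 2 : ℝ) ^ (j + 1) / 16) ^ 2 = ((4 : ℝ) ^ (j + 1))⁻¹ / 256 := by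
        rw [div_pow, ← pow_mul, mul_comm (j + 1) 2, pow_mul, ← inv_pow]
        norm_num
      rw [e]
      have h4p : (0 : ℝ) < 4 ^ (j + 1) := by positivity
      rw [show (mm Lg j : ℝ) * (((4 : ℝ) ^ (j + 1))⁻¹ / 256) / 17 =
        (mm Lg j : ℝ) / (4352 * 4 ^ (j + 1)) by field_simp; norm_num]
      rw [le_div_iff₀ (by positivity)]
      linarith) I (hI j hj) w hw0 hw1
    (fun y => ‖tr (volume.restrict (Metric.ball 0 R)) (ker Φ) g y‖) fun y => (hG y).trans (by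
      have h1 : (1 / 2 : ℝ) ^ K ≤ (1 / 2 : ℝ) ^ (j + 1) :=
        pow_le_pow_of_le_one (by norm_num) (by norm_num) hj
      rw [hhalf] at h1
      have h2 : 1 / (16 * Real.sqrt k) ≤ ((2 : ℝ) ^ K)⁻¹ / 8 := by
        rw [div_le_div_iff₀ (by positivity) (by norm_num), inv_mul_eq_div,
          le_div_iff₀ (by positivity)]
        linarith
      linarith)
  refine hlev.trans ?_
  have hT : tt Lg Li a j + 3 ≤ 4 ^ j * (17412 * Lg * Li + a + 3) := by
    have hm2 : (mm Lg j : ℝ) ≤ 4352 * 4 ^ (j + 1) * Lg + 1 := by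
      have := Nat.ceil_lt_add_one (show (0 : ℝ) ≤ 4352 * 4 ^ (j + 1) * Lg by positivity)
      exact this.le
    have hm3 : (mm Lg j : ℝ) ≤ 17412 * Lg * 4 ^ j := by
      have : (1 : ℝ) ≤ 4 ^ (j + 1) * Lg := by nlinarith
      rw [pow_succ] at this hm2
      nlinarith
    have h4 : (1 : ℝ) ≤ 4 ^ j := one_le_pow₀ (by norm_num)
    unfold tt
    have h5 : (mm Lg j : ℝ) * Li ≤ (17412 * Lg * 4 ^ j) * Li := mul_le_mul_of_nonneg_right hm3 hLi
    have h6 : a + 3 ≤ 4 ^ j * (a + 3) := by nlinarith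
    calc (mm Lg j : ℝ) * Li + a + 3 ≤ (17412 * Lg * 4 ^ j) * Li + 4 ^ j * (a + 3) := by linarith
      _ = _ := by ring
  have h7 := mul_le_mul_of_nonneg_left hT hκ.le
  linarith

/-- **The norm of restricted data.** -/
theorem norm_res (hΦ : Measurable Φ) (R : ℝ) (hR : 0 < R) (B0 : ℝ) (hB0 : 0 ≤ B0)
    (hL2 : Lt μ Φ R B0) (S : Set Y) (k τ : ℝ) (m : ℕ) (hk : 1 ≤ k) (hτ : 0 ≤ τ)
    (hm : Real.sqrt k ≤ 2 ^ m) (κ : ℝ) (hκ : 0 < κ) (T : ℝ) (hT : 1 ≤ T)
    (hLv : Lv μ (volume.restrict (Metric.ball 0 R)) (ker Φ) S m τ κ T)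
    (hμS : μ.real S ≤ k * κ) (α p : ℝ) (hα0 : 0 ≤ α) (hα2 : α ≤ 1 / 2) (hp : 2 ≤ p) (K : ℝ)
    (hK : 0 ≤ K) (hW : WkA μ (volume.restrict (Metric.ball 0 R)) (ker Φ) α p K)
    (A : Set Y) (hA : MeasurableSet A) (hAS : A ⊆ S) (f : Y → ℂ) (hf : Measurable f)
    (hf1 : ∀ y, ‖f y‖ ≤ 1) (hfA : ∀ y, y ∉ A → f y = 0) :
    (∫ x in Metric.ball 0 R, ‖Eo μ (ker Φ) f x‖ ^ p) ^ (1 / p) ≤
      (32 * (m + 1) ^ 2 + 2 * (m + 1) * T * (B0 + 1)) * μ.real A ^ α *
        (τ ^ (1 - α) * K + (k * κ) ^ (1 / 2 - α) * (κ ^ (1 / 2 - 1 / p) * R ^ (1 / p))) := by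
  have hp0 : 0 < p := by linarith
  have hφm := ker_meas Φ hΦ
  set F := Eo μ (ker Φ) f with hF
  have hFm : Measurable F := Eo_meas μ (ker Φ) hφm f hf
  obtain ⟨x, hx⟩ : ∃ x : ℝ, x = μ.real A := ⟨_, rfl⟩
  rw [← hx]
  have hx0 : 0 ≤ x := by rw [hx]; exact measureReal_nonneg
  have hAne : μ A ≠ ⊤ := measure_ne_top _ _
  have hxk : x ≤ k * κ := by rw [hx]; exact (measureReal_mono hAS).trans hμS
  have hFb : ∀ z, ‖F z‖ ≤ x := by
    intro z
    rw [hx]
    exact Eo_bound μ (ker Φ) (ker_norm Φ) A hA f hf1 hfA z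
  have hbr : 0 ≤ τ ^ (1 - α) * K + (k * κ) ^ (1 / 2 - α) * (κ ^ (1 / 2 - 1 / p) * R ^ (1 / p)) := by
    positivity
  rcases hx0.eq_or_lt with h0 | hx1
  · have hz : ∀ z, ‖F z‖ ^ p = 0 := by
      intro z
      have h1 : ‖F z‖ = 0 := le_antisymm ((hFb z).trans (le_of_eq h0.symm)) (norm_nonneg _)
      rw [h1, Real.zero_rpow hp0.ne']
    simp_rw [hz]
    rw [integral_zero, Real.zero_rpow (by positivity)]
    positivity
  have hm1 : (1 : ℝ) ≤ 2 ^ m := one_le_pow₀ (by norm_num)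
  have hm0 : (0 : ℝ) ≤ m := Nat.cast_nonneg _
  set b : ℝ := 2 * ((m + 1) * Real.sqrt (κ * T * x)) with hb
  have hκT : κ ≤ κ * T := by nlinarith
  have hsx : x ≤ 2 ^ m * Real.sqrt (κ * T * x) := by
    have h1 : x = Real.sqrt x * Real.sqrt x := (Real.mul_self_sqrt hx0).symm
    have h2 : Real.sqrt x ≤ 2 ^ m * Real.sqrt (κ * T) := by
      calc Real.sqrt x ≤ Real.sqrt (k * κ) := Real.sqrt_le_sqrt hxk
        _ = Real.sqrt k * Real.sqrt κ := Real.sqrt_mul (by linarith) _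
        _ ≤ 2 ^ m * Real.sqrt (κ * T) := by gcongr
    have h3 : Real.sqrt (κ * T * x) = Real.sqrt (κ * T) * Real.sqrt x :=
      Real.sqrt_mul (by positivity) _
    rw [h3]
    calc x = Real.sqrt x * Real.sqrt x := h1
      _ ≤ (2 ^ m * Real.sqrt (κ * T)) * Real.sqrt x := by gcongr
      _ = _ := by ring
  have hs0 : 0 < Real.sqrt (κ * T * x) := Real.sqrt_pos.2 (by positivity)
  have hb0 : 0 < b := by positivity
  have hbs : Real.sqrt (κ * T * x) ≤ b := by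
    rw [hb]
    nlinarith
  have htail : (1 / 2 : ℝ) ^ m * μ.real A ≤ Real.sqrt (κ * T * μ.real A) := by
    rw [← hx, one_div, inv_pow, inv_mul_le_iff₀ (by positivity)]
    exact hsx
  have hFb2 : ∀ z, ‖F z‖ ≤ 2 ^ m * b := fun z =>
    (hFb z).trans (hsx.trans (by gcongr))
  have hQ : ∫ z in Metric.ball 0 R, ‖F z‖ ^ 2 ≤ B0 * R * x := by
    refine (hL2 f hf hf1).trans ?_
    refine mul_le_mul_of_nonneg_left ?_ (by positivity)
    rw [hx]
    have h1 : ∀ y, ‖f y‖ ^ 2 ≤ A.indicator (fun _ => (1 : ℝ)) y := by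
      intro y
      by_cases hy : y ∈ A
      · rw [Set.indicator_of_mem hy]
        exact pow_le_one₀ (norm_nonneg _) (hf1 y)
      · rw [Set.indicator_of_notMem hy, hfA y hy, norm_zero]
        norm_num
    refine (integral_mono_of_nonneg (Filter.Eventually.of_forall fun y => by positivity)
      ((integrable_const (1 : ℝ)).indicator hA) (Filter.Eventually.of_forall h1)).trans ?_
    rw [integral_indicator hA, setIntegral_const, smul_eq_mul, mul_one]
  obtain ⟨A', hA'⟩ : ∃ A' : ℝ, A' = 16 * m * τ ^ (1 - α) * x ^ α * K := ⟨_, rfl⟩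
  have hA0 : 0 ≤ A' := by rw [hA']; positivity
  have hlev : ∀ l, b ≤ l →
      (volume.restrict (Metric.ball 0 R)).real {z | l < ‖F z‖} ≤ (A' / l) ^ p := by
    intro l hl
    have h := superA μ (volume.restrict (Metric.ball 0 R)) (ker Φ) hφm (ker_norm Φ) S m τ κ T hτ
      hκ.le (by linarith) hLv α p K hα0 (by linarith) (by linarith) hK hW A hA hAS htail f hf hf1
      hfA l (by rw [← hx]; exact hl) (hb0.trans_le hl)
    rw [← hx, ← hA'] at h
    exact h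
  have h1 := Pool.Agent.N248.RC.strong (volume.restrict (Metric.ball 0 R)) F hFm p A' b
    (B0 * R * x) m hp hA0 hb0 hFb2 hQ hlev
  have h2 : (∫ z in Metric.ball 0 R, ‖F z‖ ^ p) ^ (1 / p) ≤
      (b ^ (p - 2) * (B0 * R * x)) ^ (1 / p) + (m * (2 * A') ^ p) ^ (1 / p) := by
    refine (Real.rpow_le_rpow (integral_nonneg fun z => by positivity) h1 (by positivity)).trans ?_
    exact root_add _ _ p (by positivity) (by positivity) (by linarith)
  have h3 : ((m : ℝ) * (2 * A') ^ p) ^ (1 / p) ≤ 32 * (m + 1) ^ 2 * x ^ α * (τ ^ (1 - α) * K) := by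
    rw [Real.mul_rpow (by positivity) (by positivity), ← Real.rpow_mul (by positivity),
      mul_one_div_cancel hp0.ne', Real.rpow_one]
    have h4 : (m : ℝ) ^ (1 / p) ≤ m + 1 := by
      calc (m : ℝ) ^ (1 / p) ≤ ((m : ℝ) + 1) ^ (1 / p) :=
            Real.rpow_le_rpow (by positivity) (by linarith) (by positivity)
        _ ≤ ((m : ℝ) + 1) ^ (1 : ℝ) := by
            refine Real.rpow_le_rpow_of_exponent_le (by linarith) ?_
            rw [div_le_one hp0]; linarith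
        _ = m + 1 := Real.rpow_one _
    have h5 : 0 ≤ τ ^ (1 - α) * x ^ α * K := by positivity
    calc (m : ℝ) ^ (1 / p) * (2 * A') ≤ (m + 1) * (2 * A') :=
          mul_le_mul_of_nonneg_right h4 (by positivity)
      _ = 32 * ((m + 1) * m) * (τ ^ (1 - α) * x ^ α * K) := by rw [hA']; ring
      _ ≤ 32 * ((m + 1) * (m + 1)) * (τ ^ (1 - α) * x ^ α * K) := by gcongr; linarith
      _ = _ := by ring
  have h5 : (b ^ (p - 2) * (B0 * R * x)) ^ (1 / p) ≤
      2 * (m + 1) * T * (B0 + 1) * (x ^ α * ((k * κ) ^ (1 / 2 - α) *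
        (κ ^ (1 / 2 - 1 / p) * R ^ (1 / p)))) := by
    obtain ⟨D, hD⟩ : ∃ D : ℝ, D = 2 * (m + 1) * Real.sqrt T := ⟨_, rfl⟩
    have hsT : Real.sqrt T ≤ T := Real.sqrt_le_iff.2 ⟨by linarith, by nlinarith⟩
    have hsT1 : 1 ≤ Real.sqrt T := Real.one_le_sqrt.2 hT
    have hD1 : 1 ≤ D := by rw [hD]; nlinarith
    have hDle : D ≤ 2 * (m + 1) * T := by rw [hD]; gcongr
    have e2 : b = D * (κ * x) ^ (1 / 2 : ℝ) := by
      have e3 : κ * T * x = T * (κ * x) := by ring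
      rw [hb, hD, e3, Real.sqrt_mul (by linarith), Real.sqrt_eq_rpow (κ * x)]
      ring
    have e1 : b ^ (p - 2) * (B0 * R * x) =
        (D ^ (p - 2) * B0) * (κ ^ ((p - 2) / 2) * (x ^ (p / 2) * R)) := by
      rw [e2, Real.mul_rpow (by positivity) (by positivity), ← Real.rpow_mul (by positivity),
        Real.mul_rpow hκ.le hx0]
      have e3 : x ^ (p / 2) = x ^ (1 / 2 * (p - 2)) * x := by
        rw [← Real.rpow_add_one hx1.ne']
        congr 1; ring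
      have e4 : (p - 2) / 2 = 1 / 2 * (p - 2) := by ring
      rw [e3, e4]
      ring
    have f1 : (b ^ (p - 2) * (B0 * R * x)) ^ (1 / p) =
        (D ^ ((p - 2) * (1 / p)) * B0 ^ (1 / p)) *
          (κ ^ (1 / 2 - 1 / p) * (x ^ (1 / 2 : ℝ) * R ^ (1 / p))) := by
      rw [e1, Real.mul_rpow (by positivity) (by positivity), Real.mul_rpow (by positivity) hB0,
        Real.mul_rpow (by positivity) (by positivity), Real.mul_rpow (by positivity) hR.le,
        ← Real.rpow_mul (by positivity), ← Real.rpow_mul hκ.le, ← Real.rpow_mul hx0]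
      have g1 : (p - 2) / 2 * (1 / p) = 1 / 2 - 1 / p := by field_simp
      have g2 : p / 2 * (1 / p) = 1 / 2 := by field_simp
      rw [g1, g2]
    have f2 : D ^ ((p - 2) * (1 / p)) * B0 ^ (1 / p) ≤ 2 * (m + 1) * T * (B0 + 1) := by
      refine mul_le_mul ?_ ?_ (by positivity) (by positivity)
      · calc D ^ ((p - 2) * (1 / p)) ≤ D ^ (1 : ℝ) := by
              refine Real.rpow_le_rpow_of_exponent_le hD1 ?_
              rw [mul_one_div, div_le_one hp0]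
              linarith
          _ = D := Real.rpow_one _
          _ ≤ _ := hDle
      · calc B0 ^ (1 / p) ≤ (B0 + 1) ^ (1 / p) :=
              Real.rpow_le_rpow hB0 (by linarith) (by positivity)
          _ ≤ (B0 + 1) ^ (1 : ℝ) := by
              refine Real.rpow_le_rpow_of_exponent_le (by linarith) ?_
              rw [div_le_one hp0]; linarith
          _ = B0 + 1 := Real.rpow_one _
    have f3 : x ^ (1 / 2 : ℝ) ≤ x ^ α * (k * κ) ^ (1 / 2 - α) := by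
      calc x ^ (1 / 2 : ℝ) = x ^ α * x ^ (1 / 2 - α) := by
            rw [← Real.rpow_add hx1]
            congr 1; ring
        _ ≤ _ := by
            have : x ^ (1 / 2 - α) ≤ (k * κ) ^ (1 / 2 - α) :=
              Real.rpow_le_rpow hx0 hxk (by linarith)
            gcongr
    rw [f1]
    calc (D ^ ((p - 2) * (1 / p)) * B0 ^ (1 / p)) *
          (κ ^ (1 / 2 - 1 / p) * (x ^ (1 / 2 : ℝ) * R ^ (1 / p)))
        ≤ (2 * (m + 1) * T * (B0 + 1)) *
          (κ ^ (1 / 2 - 1 / p) * ((x ^ α * (k * κ) ^ (1 / 2 - α)) * R ^ (1 / p))) := by gcongr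
      _ = _ := by ring
  refine h2.trans ((add_le_add h5 h3).trans ?_)
  have g1 : 0 ≤ 32 * ((m : ℝ) + 1) ^ 2 * x ^ α * ((k * κ) ^ (1 / 2 - α) *
    (κ ^ (1 / 2 - 1 / p) * R ^ (1 / p))) := by positivity
  have g2 : 0 ≤ 2 * ((m : ℝ) + 1) * T * (B0 + 1) * x ^ α * (τ ^ (1 - α) * K) := by positivity
  calc _ ≤ 2 * (m + 1) * T * (B0 + 1) * (x ^ α * ((k * κ) ^ (1 / 2 - α) *
        (κ ^ (1 / 2 - 1 / p) * R ^ (1 / p)))) + 32 * (m + 1) ^ 2 * x ^ α * (τ ^ (1 - α) * K) +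
        (32 * ((m : ℝ) + 1) ^ 2 * x ^ α * ((k * κ) ^ (1 / 2 - α) *
          (κ ^ (1 / 2 - 1 / p) * R ^ (1 / p))) +
          2 * ((m : ℝ) + 1) * T * (B0 + 1) * x ^ α * (τ ^ (1 - α) * K)) := by linarith
    _ = _ := by ring

end Pool.Agent.N248.LC
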