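import Pool.Agent.N248.LC.Low
import Pool.Agent.N248.RC.Fin

set_option autoImplicit false
set_option linter.unusedSectionVars false

/-!
# Data in `L^q`: the paraboloid over a measurable set `U` and its caps
-/

namespace Pool.Agent.N248.LC

open MeasureTheory Set
open Pool.Agent.N248.RC
open Pool.Agent.N248.RR (ex ex_norm cub cub_meas cub_vol cub_norm sPhi sPhi_meas cub_fin
  para_energy kernel_time sPhi_bound sPhi_lip CEnergy)
open Pool.Agent.R412.RT (Phi inner_eq)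
open scoped RealInnerProductSpace ENNReal

variable {n : ℕ}

/-- the paraboloid, with the phase `s` -/
noncomputable def Pq (n : ℕ) (s : ℝ) : EuclideanSpace ℝ (Fin n) → EuclideanSpace ℝ (Fin (n + 1)) :=
  (cub n).indicator (sPhi s)

theorem Pq_meas (s : ℝ) : Measurable (Pq n s) := (sPhi_meas _).indicator (cub_meas n)

theorem Pq_ae (s : ℝ) : sPhi (n := n) s =ᵐ[mc n] Pq n s := by
  unfold mc
  filter_upwards [ae_restrict_mem (cub_meas n)] with ξ hξ
  unfold Pq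
  rw [indicator_of_mem hξ]

theorem Pq_bound (s : ℝ) (ξ : EuclideanSpace ℝ (Fin n)) :
    ‖Pq n s ξ‖ ≤ |s| * (2 * (n + 1) ^ 2) := by
  unfold Pq
  by_cases hξ : ξ ∈ cub n
  · rw [indicator_of_mem hξ]
    have h0 : (0 : EuclideanSpace ℝ (Fin n)) ∈ cub n := by intro j; simp
    have h1 := sPhi_lip s ξ 0 hξ h0 1 (by norm_num) (fun i => by
      simpa using hξ i)
    have h2 : sPhi s (0 : EuclideanSpace ℝ (Fin n)) = 0 := by
      unfold sPhi
      have : Phi (0 : EuclideanSpace ℝ (Fin n)) = 0 := by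
        ext i
        refine Fin.lastCases ?_ (fun j => ?_) i
        · simp [Phi]
        · simp [Phi]
      rw [this, smul_zero]
    rw [h2, sub_zero, mul_one] at h1
    exact h1
  · rw [indicator_of_notMem hξ, norm_zero]
    positivity

theorem Pq_Lt (s : ℝ) (hs : s ≠ 0) : ∃ B0 : ℝ, 0 ≤ B0 ∧ ∀ R : ℝ, 1 ≤ R →
    Lt (mc n) (Pq n s) R B0 := by
  refine ⟨2 * (|(s / (2 * Real.pi))| ^ n)⁻¹, by positivity, fun R hR => ?_⟩
  refine Lt_congr (mc n) _ _ (Pq_ae s) R _ ?_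
  exact lt_of_block (mc n) (sPhi s) (sPhi_meas _) _ _ (by positivity) (para_energy s hs) R hR

theorem Pq_WkA (hn : 1 ≤ n) (s : ℝ) (hs : s ≠ 0) : ∃ K : ℝ, 0 ≤ K ∧ ∀ R : ℝ, 1 ≤ R →
    ∀ p : ℝ, 2 ≤ p → p ≤ 2 + 4 / n →
    WkA (mc n) (volume.restrict (Metric.ball 0 R)) (ker (Pq n s)) (1 / 2) p
      (K * R ^ ((n : ℝ) * (2 + 4 / n - p) / (4 * p))) := by
  obtain ⟨ρ0, hρ0, hρ⟩ := sPhi_bound (n := n) s
  have hn0 : (0 : ℝ) < n := by exact_mod_cast hn
  set L₀ : ℝ := (|(s / (2 * Real.pi))| ^ n)⁻¹ + (5 * |s| ^ (-(1 / 2) : ℝ)) ^ n with hL₀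
  have e1 : 0 ≤ (|(s / (2 * Real.pi))| ^ n)⁻¹ := by positivity
  have e2 : 0 ≤ (5 * |s| ^ (-(1 / 2) : ℝ)) ^ n := by positivity
  have hμ0 : 0 ≤ (mc n).real univ := measureReal_nonneg
  obtain ⟨K, hK0, hK⟩ := wkA_source (mc n) (sPhi s) (sPhi_meas s) (fun _ : Fin 1 => Fin.last n)
    L₀ ((n : ℝ) / 2) (1 + (mc n).real univ)
    (by linarith) (by positivity) (by linarith) (by linarith) (by
      intro f B hB α τ hτ hBα
      refine (para_energy s hs f B hB α τ hτ hBα).trans ?_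
      refine mul_le_mul' (ENNReal.ofReal_le_ofReal ?_) le_rfl
      exact mul_le_mul_of_nonneg_right (by linarith) (by linarith))
    ρ0 hρ0 hρ (by
      intro x _ hx
      refine (kernel_time s hs x hx).trans ?_
      exact mul_le_mul_of_nonneg_right (by linarith) (by positivity))
  refine ⟨K, hK0, fun R hR p hp hpp => ?_⟩
  have f1 : 2 + 2 / ((n : ℝ) / 2) = 2 + 4 / n := by field_simp; ring
  have h := WkA_congr (mc n) _ _ (Pq_ae s) _ _ _ _ (hK R hR p hp (by rw [f1]; exact hpp))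
  have f2 : (n : ℝ) / 2 * (2 + 2 / ((n : ℝ) / 2) - p) / (2 * p) =
      (n : ℝ) * (2 + 4 / n - p) / (4 * p) := by
    rw [f1]
    have hp0 : p ≠ 0 := by linarith
    field_simp
    ring
  rw [f2] at h
  exact h

/-- Lebesgue measure on `U` -/
theorem mU_eq (U : Set (EuclideanSpace ℝ (Fin n))) (hU : MeasurableSet U) (hUc : U ⊆ cub n) :
    (mc n).restrict U = volume.restrict U := by
  unfold mc
  rw [Measure.restrict_restrict hU, inter_eq_left.2 hUc]

theorem mU_fin (U : Set (EuclideanSpace ℝ (Fin n))) (hUc : U ⊆ cub n) :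
    IsFiniteMeasure ((volume : Measure (EuclideanSpace ℝ (Fin n))).restrict U) :=
  ⟨by rw [Measure.restrict_apply_univ]; exact (measure_mono hUc).trans_lt (cub_vol n).lt_top⟩

theorem mU_real (U : Set (EuclideanSpace ℝ (Fin n))) (hUc : U ⊆ cub n) :
    ((volume : Measure (EuclideanSpace ℝ (Fin n))).restrict U).real univ ≤ (mc n).real univ := by
  unfold mc
  rw [measureReal_restrict_apply MeasurableSet.univ, measureReal_restrict_apply MeasurableSet.univ,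
    univ_inter, univ_inter]
  exact measureReal_mono hUc (cub_vol n)

theorem cell_diamq (s : ℝ) (R : ℕ) (hR : 1 ≤ R) (j : Fin n → Fin (2 * R))
    (ξ η : EuclideanSpace ℝ (Fin n)) (hξ : ξ ∈ cell R j) (hη : η ∈ cell R j) :
    ‖Pq n s ξ - Pq n s η‖ ≤ (|s| * (2 * (n + 1) ^ 2)) / R := by
  have hR0 : (0 : ℝ) < R := by exact_mod_cast hR
  have hξ' := cell_sub R hR j hξ
  have hη' := cell_sub R hR j hη
  unfold Pq
  rw [indicator_of_mem hξ', indicator_of_mem hη']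
  have h := sPhi_lip s ξ η hξ' hη' (1 / R) (by positivity) (fun i => by
    obtain ⟨h1, h2⟩ := hξ i
    obtain ⟨h3, h4⟩ := hη i
    rw [abs_le, neg_le, le_div_iff₀ hR0, le_div_iff₀ hR0]
    constructor <;> nlinarith)
  rw [mul_one_div] at h
  exact h

open Classical in
/-- the count -/
theorem para_genQ (s : ℝ) (hs : s ≠ 0) (A B : ℝ) (hA : 0 ≤ A) (hB : 0 ≤ B) :
    ∃ C : ℝ, 0 ≤ C ∧ ∀ U : Set (EuclideanSpace ℝ (Fin n)), MeasurableSet U → U ⊆ cub n →
      ∀ R : ℝ, 2 ≤ R → ∀ κ : ℝ, R ^ (-B) ≤ κ →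
      ∀ (α : Type) (J : Finset α) (k : ℕ) (θ : α → Set (EuclideanSpace ℝ (Fin n))),
      1 ≤ k → k ≤ J.card → (J.card : ℝ) ≤ R ^ B →
      (∀ i ∈ J, MeasurableSet (θ i)) → ((J : Set α).PairwiseDisjoint θ) →
      (∀ i ∈ J, (volume.restrict U).real (θ i) ≤ κ) →
      (((Finset.powersetCard k J).filter
        (fun I => ¬ GoodQ (volume.restrict U) (Pq n s) C R κ J.card k (un θ I))).card : ℝ) ≤
        R ^ (-A) * ((J.card.choose k : ℕ) : ℝ) := by
  obtain ⟨B0, hB0, hLt⟩ := Pq_Lt (n := n) s hs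
  have hμ0 : 0 ≤ (mc n).real univ := measureReal_nonneg
  obtain ⟨C, hC0, hC⟩ := genQ (d := n + 1) (Y := EuclideanSpace ℝ (Fin n)) (1 + (mc n).real univ)
    (by linarith) (|s| * (2 * (n + 1) ^ 2)) (by positivity) B0 hB0 A B hA hB
  refine ⟨C, hC0, ?_⟩
  intro U hU hUc R hR κ hκ α J k θ hk hkJ hJ hθ hd hθκ
  have : IsFiniteMeasure ((volume : Measure (EuclideanSpace ℝ (Fin n))).restrict U) := mU_fin U hUc
  refine hC (volume.restrict U) ?_ (Pq n s) (Pq_meas s) (Pq_bound s) R hR ?_ κ hκ α J k θ hk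
    hkJ hJ hθ hd hθκ
  · linarith [mU_real U hUc]
  · rw [← mU_eq U hU hUc]
    exact Lt_restrict (mc n) (Pq n s) U hU R B0 (hLt R (by linarith))

/-- the good event in terms of the full norm -/
theorem GQ_full (μ : Measure (EuclideanSpace ℝ (Fin n))) [IsFiniteMeasure μ]
    (Φ : EuclideanSpace ℝ (Fin n) → EuclideanSpace ℝ (Fin (n + 1))) (hΦ : Measurable Φ)
    (C R κ N k : ℝ) (hC : 0 ≤ C) (hN : 0 ≤ N) (hk : 0 ≤ k) (hκ : 0 ≤ κ) (hR : 2 ≤ R)
    (S : Set (EuclideanSpace ℝ (Fin n))) (h : GoodQ μ Φ C R κ N k S) (q p : ℝ) (hq : 2 ≤ q)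
    (hp : 2 ≤ p) :
    opQ μ Φ S q p R ≤ ENNReal.ofReal (C * Real.log R ^ 4) *
      (ENNReal.ofReal ((k / N) ^ (1 - 1 / q)) * opQ μ Φ Set.univ q p R +
        ENNReal.ofReal ((k * κ) ^ (1 / 2 - 1 / q) * (κ ^ (1 / 2 - 1 / p) * R ^ (1 / p)))) := by
  have hW := wkA_of_opQ μ Φ hΦ q p R hq hp
  have ht := opQ_ne_top μ Φ hΦ Set.univ q p R hq (by linarith)
  refine (h q p hq hp _ ENNReal.toReal_nonneg hW).trans (le_of_eq ?_)
  have hlog : 0 ≤ Real.log R := Real.log_nonneg (by linarith)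
  have hR0 : 0 ≤ R := by linarith
  rw [ENNReal.ofReal_mul (by positivity), ENNReal.ofReal_add (by positivity) (by positivity),
    ENNReal.ofReal_mul (p := (k / N) ^ (1 - 1 / q)) (by positivity), ENNReal.ofReal_toReal ht]

theorem opN_sub (μ : Measure (EuclideanSpace ℝ (Fin n))) [IsFiniteMeasure μ]
    (Φ : EuclideanSpace ℝ (Fin n) → EuclideanSpace ℝ (Fin (n + 1)))
    (U : Set (EuclideanSpace ℝ (Fin n))) (hU : MeasurableSet U)
    (S : Set (EuclideanSpace ℝ (Fin n))) (hS : S ⊆ U) (p R : ℝ) :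
    opN μ Φ S p R ≤ opN (μ.restrict U) Φ S p R := by
  refine opN_le μ Φ S p R _ fun f hf => ?_
  have h1 : U.indicator f = f := by
    ext y
    by_cases hy : y ∈ U
    · rw [indicator_of_mem hy]
    · rw [indicator_of_notMem hy, hf.2.2 y fun h => hy (hS h)]
  have h2 := Eo_restrict μ Φ U hU f
  rw [h1] at h2
  rw [← h2]
  exact le_opN (μ.restrict U) Φ S p R f hf

/-- the square root lower bound for caps inside `U` -/
theorem para_sqrtQ (n : ℕ) (s : ℝ) : ∃ c : ℝ, 0 < c ∧ ∀ U : Set (EuclideanSpace ℝ (Fin n)),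
    MeasurableSet U → U ⊆ cub n → ∀ R : ℕ, 1 ≤ R →
    ∀ I : Finset (Fin n → Fin (2 * R)), I.Nonempty → (∀ j ∈ I, cell R j ⊆ U) →
    ∀ q p : ℝ, 2 ≤ q → 2 ≤ p →
    ENNReal.ofReal (c * ((I.card * (R : ℝ) ^ (-(n : ℝ))) ^ (1 / 2 - 1 / q) *
      (R : ℝ) ^ (((n : ℝ) + 1) / p - n / 2))) ≤
      opQ (volume.restrict U) (Pq n s) (un (cell R) I) q p R := by
  obtain ⟨D, hD⟩ : ∃ D : ℝ, D = 1 + |s| * (2 * ((n : ℝ) + 1) ^ 2) := ⟨_, rfl⟩
  have hD1 : 1 ≤ D := by
    have : 0 ≤ |s| * (2 * ((n : ℝ) + 1) ^ 2) := by positivity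
    linarith
  obtain ⟨c, hc0, hc⟩ := sqrt_low (mc n) (Pq n s) (Pq_meas s) D hD1
  refine ⟨c, hc0, fun U hU hUc R hR I hne hI q p hq hp => ?_⟩
  have hfin : IsFiniteMeasure ((volume : Measure (EuclideanSpace ℝ (Fin n))).restrict U) :=
    mU_fin U hUc
  have hR0 : (0 : ℝ) < R := by exact_mod_cast hR
  have hq0 : 0 < q := by linarith
  have hk0 : (0 : ℝ) < I.card := by exact_mod_cast hne.card_pos
  obtain ⟨k, hk⟩ : ∃ k : ℝ, k = I.card := ⟨_, rfl⟩
  rw [← hk] at hk0 ⊢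
  have hSU : un (cell R) I ⊆ U := by
    unfold un
    exact iUnion₂_subset hI
  have hSm : MeasurableSet (un (cell R) I) := by
    unfold un
    exact Finset.measurableSet_biUnion _ fun i _ => cell_meas R i
  have h := hc R hR0 (Fin n → Fin (2 * R)) I (cell R) (fun i _ => cell_meas R i)
    (fun i _ j _ hij => cell_disj R i j hij) ((R : ℝ) ^ (-(n : ℝ))) (by positivity)
    (fun i _ => (cell_mc R hR i).ge) (fun i _ y hy y' hy' => by
      refine (cell_diamq s R hR i y y' hy hy').trans ?_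
      exact div_le_div_of_nonneg_right (by rw [hD]; linarith) hR0.le) p hp
  rw [← hk] at h
  have h2 := opN_sub (mc n) (Pq n s) U hU (un (cell R) I) hSU p R
  rw [mU_eq U hU hUc] at h2
  have h3 := opN_le_opQ (volume.restrict U) (Pq n s) (un (cell R) I) hSm q p R (by linarith)
  have hμS : ((volume : Measure (EuclideanSpace ℝ (Fin n))).restrict U).real (un (cell R) I) ≤
      k * (R : ℝ) ^ (-(n : ℝ)) := by
    unfold un
    refine (measureReal_biUnion_finset_le I _).trans ?_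
    refine (Finset.sum_le_sum fun i _ => show _ ≤ (R : ℝ) ^ (-(n : ℝ)) from ?_).trans (le_of_eq ?_)
    · rw [← cell_mc R hR i]
      rw [← mU_eq U hU hUc, measureReal_restrict_apply (cell_meas R i)]
      exact measureReal_mono inter_subset_left
    · rw [Finset.sum_const, nsmul_eq_mul, hk]
  obtain ⟨w, hw⟩ : ∃ w : ℝ, w = k * (R : ℝ) ^ (-(n : ℝ)) := ⟨_, rfl⟩
  have hw0 : 0 < w := by rw [hw]; positivity
  rw [← hw] at hμS ⊢
  have h4 : ENNReal.ofReal (((volume : Measure (EuclideanSpace ℝ (Fin n))).restrict U).real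
      (un (cell R) I) ^ (1 / q)) ≤ ENNReal.ofReal (w ^ (1 / q)) :=
    ENNReal.ofReal_le_ofReal (Real.rpow_le_rpow measureReal_nonneg hμS (by positivity))
  have h5 := (h.trans h2).trans (h3.trans (mul_le_mul' le_rfl h4))
  have hwq : 0 < w ^ (1 / q) := Real.rpow_pos_of_pos hw0 _
  have hwq1 : ENNReal.ofReal (w ^ (1 / q)) ≠ 0 := by
    rw [Ne, ENNReal.ofReal_eq_zero, not_le]; exact hwq
  have h6 : ENNReal.ofReal (w ^ (1 / q)) * ENNReal.ofReal (c * (w ^ (1 / 2 - 1 / q) *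
      (R : ℝ) ^ (((n : ℝ) + 1) / p - n / 2))) ≤ ENNReal.ofReal (w ^ (1 / q)) *
      opQ (volume.restrict U) (Pq n s) (un (cell R) I) q p R := by
    rw [mul_comm _ (opQ _ _ _ _ _ _)]
    refine le_trans (le_of_eq ?_) h5
    rw [← ENNReal.ofReal_mul hwq.le]
    congr 1
    have e1 : w ^ (1 / q) * w ^ (1 / 2 - 1 / q) = Real.sqrt k * (R : ℝ) ^ (-((n : ℝ) / 2)) := by
      rw [← Real.rpow_add hw0, hw, Real.sqrt_eq_rpow]
      have e2 : 1 / q + (1 / 2 - 1 / q) = 1 / 2 := by ring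
      rw [e2, Real.mul_rpow hk0.le (by positivity), ← Real.rpow_mul hR0.le]
      congr 2
      ring
    have e3 : (R : ℝ) ^ (-((n : ℝ) / 2)) * (R : ℝ) ^ (((n : ℝ) + 1) / p - n / 2) =
        (R : ℝ) ^ (-(n : ℝ)) * (R : ℝ) ^ (((n + 1 : ℕ) : ℝ) / p) := by
      rw [← Real.rpow_add hR0, ← Real.rpow_add hR0]
      congr 1
      push_cast
      ring
    calc w ^ (1 / q) * (c * (w ^ (1 / 2 - 1 / q) * (R : ℝ) ^ (((n : ℝ) + 1) / p - n / 2))) =
        c * ((w ^ (1 / q) * w ^ (1 / 2 - 1 / q)) * (R : ℝ) ^ (((n : ℝ) + 1) / p - n / 2)) := by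
          ring
      _ = c * (Real.sqrt k * ((R : ℝ) ^ (-((n : ℝ) / 2)) *
          (R : ℝ) ^ (((n : ℝ) + 1) / p - n / 2))) := by rw [e1]; ring
      _ = _ := by rw [e3]
  exact (ENNReal.mul_le_mul_iff_right hwq1 ENNReal.ofReal_ne_top).1 h6

end Pool.Agent.N248.LC
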