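import Pool.Agent.N248.RC.Gen

set_option autoImplicit false
set_option linter.unusedSectionVars false

/-!
# Random unions of cells and data in `L^q`: superlevel sets
-/

namespace Pool.Agent.N248.LC

open Finset MeasureTheory
open Pool.Agent.N248.RC
open scoped ComplexConjugate

variable {Y : Type*} [MeasurableSpace Y] (μ : Measure Y) [IsFiniteMeasure μ]
  {V : Type*} [MeasurableSpace V] (ν : Measure V) [IsFiniteMeasure ν]

theorem min_geom {x y : ℝ} (hx : 0 ≤ x) (hy : 0 ≤ y) {z : ℝ} (hz : 0 ≤ z) (hzx : z ≤ x)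
    (hzy : z ≤ y) {t : ℝ} (ht0 : 0 ≤ t) (ht1 : t ≤ 1) : z ≤ x ^ t * y ^ (1 - t) := by
  rcases hz.eq_or_lt with h | h
  · rw [← h]; positivity
  calc z = z ^ t * z ^ (1 - t) := by
        rw [← Real.rpow_add h, add_sub_cancel, Real.rpow_one]
    _ ≤ x ^ t * y ^ (1 - t) := by gcongr

/-- the dyadic sum over the levels -/
theorem int_levels (G : Y → ℝ) (hGm : Measurable G) (hG0 : ∀ y, 0 ≤ G y) (hG1 : ∀ y, G y ≤ 1)
    (S : Set Y) (hS : MeasurableSet S) (K : ℕ) :
    ∫ y in S, G y ∂μ ≤ ∑ j ∈ range K, (1 / 2 : ℝ) ^ j *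
      μ.real (S ∩ {y | (1 / 2 : ℝ) ^ (j + 1) < G y}) + (1 / 2 : ℝ) ^ K * μ.real S := by
  have hGint : Integrable G μ := by
    refine Integrable.mono' (integrable_const (1 : ℝ)) hGm.aestronglyMeasurable
      (Filter.Eventually.of_forall fun y => ?_)
    rw [Real.norm_of_nonneg (hG0 y)]
    exact hG1 y
  have hset : ∀ c : ℝ, MeasurableSet {y | c < G y} := fun c => measurableSet_lt measurable_const hGm
  have hind : ∀ (c : ℝ) (ν : Measure Y) [IsFiniteMeasure ν],
      ∫ y, (if c < G y then (1 : ℝ) else 0) ∂ν = ν.real {y | c < G y} := by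
    intro c ν _
    have : (fun y => if c < G y then (1 : ℝ) else 0) = {y | c < G y}.indicator 1 := by
      ext y
      simp [Set.indicator_apply]
    rw [this, integral_indicator_one (hset c)]
  have hiint : ∀ (c : ℝ) (ν : Measure Y) [IsFiniteMeasure ν],
      Integrable (fun y => if c < G y then (1 : ℝ) else 0) ν := by
    intro c ν _
    refine Integrable.mono' (integrable_const (1 : ℝ))
      (Measurable.ite (hset c) measurable_const measurable_const).aestronglyMeasurable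
      (Filter.Eventually.of_forall fun y => ?_)
    split_ifs <;> simp
  have h2 : ∫ y in S, G y ∂μ ≤ ∫ y in S, (∑ j ∈ range K, (1 / 2 : ℝ) ^ j *
      (if (1 / 2 : ℝ) ^ (j + 1) < G y then 1 else 0) + (1 / 2 : ℝ) ^ K) ∂μ := by
    refine integral_mono hGint.restrict ?_ fun y => dy1 K (G y) (hG1 y)
    exact (integrable_finsetSum _ fun j _ => (hiint _ _).const_mul _).add (integrable_const _)
  refine h2.trans (le_of_eq ?_)
  rw [integral_add (integrable_finsetSum _ fun j _ => (hiint _ _).const_mul _)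
    (integrable_const _), integral_finsetSum _ fun j _ => (hiint _ _).const_mul _,
    integral_const, smul_eq_mul]
  have e1 : (μ.restrict S).real Set.univ = μ.real S := by
    rw [measureReal_restrict_apply MeasurableSet.univ, Set.univ_inter]
  rw [e1, mul_comm (μ.real S)]
  congr 1
  refine sum_congr rfl fun j _ => ?_
  rw [integral_const_mul, hind, measureReal_restrict_apply (hset _), Set.inter_comm]

/-- a set `A` inside the union `S` of cells -/
theorem int_sub (G : Y → ℝ) (hGm : Measurable G) (hG0 : ∀ y, 0 ≤ G y) (hG1 : ∀ y, G y ≤ 1)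
    (S A : Set Y) (hA : MeasurableSet A) (hAS : A ⊆ S) (m : ℕ) (τ κ T α W : ℝ)
    (hτ : 0 ≤ τ) (hκ : 0 ≤ κ) (hT : 0 ≤ T) (hα0 : 0 ≤ α) (hα1 : α ≤ 1) (hW : 0 ≤ W)
    (hlev : ∀ j < m, μ.real (S ∩ {y | (1 / 2 : ℝ) ^ (j + 1) < G y}) ≤
      2 * τ * μ.real {y | (1 / 2 : ℝ) ^ (j + 1) / 2 < G y} + κ * (4 ^ j * T))
    (hweak : ∀ s : ℝ, 0 < s → s * μ.real {y | s < G y} ^ (1 - α) ≤ W)
    (htail : (1 / 2 : ℝ) ^ m * μ.real A ≤ Real.sqrt (κ * T * μ.real A)) :
    ∫ y in A, G y ∂μ ≤ 8 * m * τ ^ (1 - α) * μ.real A ^ α * W +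
      (m + 1) * Real.sqrt (κ * T * μ.real A) := by
  have hα' : 0 ≤ 1 - α := by linarith
  set x : ℝ := μ.real A with hx
  have hx0 : 0 ≤ x := measureReal_nonneg
  refine (int_levels μ G hGm hG0 hG1 A hA m).trans ?_
  have hterm : ∀ j ∈ range m, (1 / 2 : ℝ) ^ j * μ.real (A ∩ {y | (1 / 2 : ℝ) ^ (j + 1) < G y}) ≤
      8 * τ ^ (1 - α) * x ^ α * W + Real.sqrt (κ * T * x) := by
    intro j hj
    set z : ℝ := μ.real (A ∩ {y | (1 / 2 : ℝ) ^ (j + 1) < G y}) with hz
    set b1 : ℝ := 2 * τ * μ.real {y | (1 / 2 : ℝ) ^ (j + 1) / 2 < G y} with hb1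
    set b2 : ℝ := κ * (4 ^ j * T) with hb2
    have hz0 : 0 ≤ z := measureReal_nonneg
    have hzx : z ≤ x := measureReal_mono Set.inter_subset_left
    have hzb : z ≤ b1 + b2 :=
      (measureReal_mono (Set.inter_subset_inter_left _ hAS)).trans (hlev j (mem_range.1 hj))
    have hb10 : 0 ≤ b1 := by positivity
    have hb20 : 0 ≤ b2 := by positivity
    have h1 : z ≤ x ^ α * b1 ^ (1 - α) + Real.sqrt (x * b2) := by
      rcases le_or_gt z b1 with h | h
      · have := min_geom hx0 hb10 hz0 hzx h hα0 hα1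
        have h2 := Real.sqrt_nonneg (x * b2)
        linarith
      · have h2 := min_geom hx0 hb10 hb10 (h.le.trans hzx) le_rfl hα0 hα1
        have h3 : z - b1 ≤ Real.sqrt (x * b2) := by
          refine Real.le_sqrt_of_sq_le ?_
          have h4 : 0 ≤ z - b1 := by linarith
          nlinarith
        linarith
    have hp0 : (0 : ℝ) < (1 / 2 : ℝ) ^ j := by positivity
    have h2 : (1 / 2 : ℝ) ^ j * (x ^ α * b1 ^ (1 - α)) ≤ 8 * τ ^ (1 - α) * x ^ α * W := by
      have h3 := hweak ((1 / 2 : ℝ) ^ (j + 1) / 2) (by positivity)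
      have h4 : (1 / 2 : ℝ) ^ (j + 1) / 2 = (1 / 2 : ℝ) ^ j / 4 := by rw [pow_succ]; ring
      rw [h4] at h3
      have h5 : b1 ^ (1 - α) = 2 ^ (1 - α) * τ ^ (1 - α) *
          μ.real {y | (1 / 2 : ℝ) ^ j / 4 < G y} ^ (1 - α) := by
        rw [hb1, h4, Real.mul_rpow (by positivity) measureReal_nonneg,
          Real.mul_rpow (by norm_num) hτ]
      have h6 : (2 : ℝ) ^ (1 - α) ≤ 2 := by
        calc (2 : ℝ) ^ (1 - α) ≤ 2 ^ (1 : ℝ) :=
              Real.rpow_le_rpow_of_exponent_le (by norm_num) (by linarith)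
          _ = 2 := Real.rpow_one _
      calc (1 / 2 : ℝ) ^ j * (x ^ α * b1 ^ (1 - α)) =
            4 * 2 ^ (1 - α) * (τ ^ (1 - α) * x ^ α) * ((1 / 2 : ℝ) ^ j / 4 *
              μ.real {y | (1 / 2 : ℝ) ^ j / 4 < G y} ^ (1 - α)) := by rw [h5]; ring
        _ ≤ 4 * 2 * (τ ^ (1 - α) * x ^ α) * W := by gcongr
        _ = _ := by ring
    have h3 : (1 / 2 : ℝ) ^ j * Real.sqrt (x * b2) = Real.sqrt (κ * T * x) := by
      have h4 : x * b2 = (κ * T * x) * (2 ^ j) ^ 2 := by
        rw [hb2, ← pow_mul, mul_comm j 2, pow_mul]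
        norm_num
        ring
      rw [h4, Real.sqrt_mul (by positivity), Real.sqrt_sq (by positivity), mul_comm, mul_assoc,
        ← mul_pow]
      norm_num
    calc (1 / 2 : ℝ) ^ j * z ≤ (1 / 2 : ℝ) ^ j * (x ^ α * b1 ^ (1 - α) + Real.sqrt (x * b2)) := by
          gcongr
      _ = (1 / 2 : ℝ) ^ j * (x ^ α * b1 ^ (1 - α)) + (1 / 2 : ℝ) ^ j * Real.sqrt (x * b2) := by ring
      _ ≤ _ := by rw [h3]; linarith
  have hsum := sum_le_sum hterm
  rw [sum_const, card_range, nsmul_eq_mul] at hsum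
  calc _ ≤ m * (8 * τ ^ (1 - α) * x ^ α * W + Real.sqrt (κ * T * x)) +
        Real.sqrt (κ * T * x) := add_le_add hsum htail
    _ = _ := by ring

/-- the restricted weak type bound for the full operator, data in `L^q`, `α = 1 / q` -/
def WkA (φ : V → Y → ℂ) (α p K : ℝ) : Prop :=
  ∀ A : Set Y, MeasurableSet A → ∀ h : Y → ℂ, Measurable h → (∀ y, ‖h y‖ ≤ 1) →
    (∀ y, y ∉ A → h y = 0) → ∀ G : Set V, MeasurableSet G →
      ∫ x in G, ‖Eo μ φ h x‖ ∂ν ≤ K * μ.real A ^ α * (ν.real G) ^ (1 - 1 / p)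

/-- the levels of transforms on `S` -/
def Lv (φ : V → Y → ℂ) (S : Set Y) (m : ℕ) (τ κ T : ℝ) : Prop :=
  ∀ g : V → ℂ, Measurable g → Integrable g ν → ∫ x, ‖g x‖ ∂ν ≤ 1 → ∀ j < m,
    μ.real (S ∩ {y | (1 / 2 : ℝ) ^ (j + 1) < ‖tr ν φ g y‖}) ≤
      2 * τ * μ.real {y | (1 / 2 : ℝ) ^ (j + 1) / 2 < ‖tr ν φ g y‖} + κ * (4 ^ j * T)

/-- **Superlevel sets.** -/
theorem superA (φ : V → Y → ℂ) (hφm : Measurable (Function.uncurry φ))
    (hφ : ∀ x y, ‖φ x y‖ ≤ 1) (S : Set Y) (m : ℕ) (τ κ T : ℝ) (hτ : 0 ≤ τ)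
    (hκ : 0 ≤ κ) (hT : 0 ≤ T) (hLv : Lv μ ν φ S m τ κ T) (α p K : ℝ) (hα0 : 0 ≤ α)
    (hα1 : α < 1) (hp : 1 ≤ p) (hK : 0 ≤ K) (hW : WkA μ ν φ α p K) (A : Set Y)
    (hA : MeasurableSet A) (hAS : A ⊆ S)
    (htail : (1 / 2 : ℝ) ^ m * μ.real A ≤ Real.sqrt (κ * T * μ.real A))
    (f : Y → ℂ) (hf : Measurable f) (hf1 : ∀ y, ‖f y‖ ≤ 1) (hfA : ∀ y, y ∉ A → f y = 0)
    (l : ℝ) (hl : 2 * ((m + 1) * Real.sqrt (κ * T * μ.real A)) ≤ l) (hl0 : 0 < l) :
    ν.real {x | l < ‖Eo μ φ f x‖} ≤ (16 * m * τ ^ (1 - α) * μ.real A ^ α * K / l) ^ p := by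
  set F := Eo μ φ f with hF
  have hFm : Measurable F := Eo_meas μ φ hφm f hf
  set G : Set V := {x | l < ‖F x‖} with hG
  have hGm : MeasurableSet G := measurableSet_lt measurable_const hFm.norm
  set m' : ℝ := ν.real G with hm
  have hp0 : 0 < p := by linarith
  rcases (measureReal_nonneg (μ := ν) (s := G)).eq_or_lt with h0 | hmpos
  · rw [← hm] at h0
    rw [← h0]
    positivity
  rw [← hm] at hmpos
  set g : V → ℂ := G.indicator (fun x => ((m'⁻¹ : ℝ) : ℂ) * sg (F x)) with hg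
  have hgm : Measurable g := ((sg_meas.comp hFm).const_mul _).indicator hGm
  have hgn : ∀ x, ‖g x‖ = G.indicator (fun _ => m'⁻¹) x := by
    intro x
    by_cases hx : x ∈ G
    · rw [hg, Set.indicator_of_mem hx, Set.indicator_of_mem hx, norm_mul, sg_norm, mul_one,
        Complex.norm_real, Real.norm_of_nonneg (by positivity)]
    · rw [hg, Set.indicator_of_notMem hx, Set.indicator_of_notMem hx, norm_zero]
  have hgi : Integrable g ν := by
    refine Integrable.mono' (integrable_const (m'⁻¹ : ℝ)) hgm.aestronglyMeasurable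
      (Filter.Eventually.of_forall fun x => ?_)
    rw [hgn x]
    by_cases hx : x ∈ G
    · rw [Set.indicator_of_mem hx]
    · rw [Set.indicator_of_notMem hx]; positivity
  have hg1 : ∫ x, ‖g x‖ ∂ν ≤ 1 := by
    rw [integral_congr_ae (Filter.Eventually.of_forall hgn), integral_indicator hGm,
      setIntegral_const, smul_eq_mul, ← hm, mul_inv_cancel₀ hmpos.ne']
  have hFb : ∀ x, ‖F x‖ ≤ μ.real A := Eo_bound μ φ hφ A hA f hf1 hfA
  have hFint : Integrable (fun x => ‖F x‖) ν := by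
    refine Integrable.mono' (integrable_const (μ.real A)) hFm.norm.aestronglyMeasurable
      (Filter.Eventually.of_forall fun x => ?_)
    rw [norm_norm]
    exact hFb x
  -- lower bound
  have hlow : l ≤ ‖∫ x, g x * F x ∂ν‖ := by
    have e : ∫ x, g x * F x ∂ν = ((m'⁻¹ * ∫ x in G, ‖F x‖ ∂ν : ℝ) : ℂ) := by
      have e1 : ∀ x, g x * F x = ((G.indicator (fun x => m'⁻¹ * ‖F x‖) x : ℝ) : ℂ) := by
        intro x
        by_cases hx : x ∈ G
        · rw [hg, Set.indicator_of_mem hx, Set.indicator_of_mem hx, mul_assoc, sg_mul]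
          push_cast
          ring
        · rw [hg, Set.indicator_of_notMem hx, Set.indicator_of_notMem hx, zero_mul]
          simp
      rw [integral_congr_ae (Filter.Eventually.of_forall e1), integral_complex_ofReal,
        integral_indicator hGm, integral_const_mul]
    rw [e, Complex.norm_real, Real.norm_of_nonneg (mul_nonneg (by positivity)
      (integral_nonneg fun x => norm_nonneg _))]
    have h1 : l * m' ≤ ∫ x in G, ‖F x‖ ∂ν := by
      have h2 : ∫ x in G, l ∂ν ≤ ∫ x in G, ‖F x‖ ∂ν := by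
        refine setIntegral_mono_on (integrableOn_const (measure_ne_top _ _)) hFint.integrableOn
          hGm fun x hx => ?_
        exact (show l < ‖F x‖ from hx).le
      rw [setIntegral_const, smul_eq_mul, ← hm] at h2
      linarith
    rw [← div_eq_inv_mul, le_div_iff₀ hmpos]
    exact h1
  have htm := tr_meas ν φ hφm g hgm
  -- upper bound
  have hup : ‖∫ x, g x * F x ∂ν‖ ≤ ∫ y in A, ‖tr ν φ g y‖ ∂μ := by
    rw [hF, pairing μ ν φ hφm hφ f hf hf1 g hgm hgi]
    refine (norm_integral_le_integral_norm _).trans ?_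
    rw [← integral_indicator hA]
    refine integral_mono_of_nonneg (Filter.Eventually.of_forall fun y => norm_nonneg _) ?_
      (Filter.Eventually.of_forall fun y => ?_)
    · refine Integrable.indicator ?_ hA
      refine Integrable.mono' (integrable_const (1 : ℝ)) htm.norm.aestronglyMeasurable
        (Filter.Eventually.of_forall fun y => ?_)
      rw [norm_norm]
      exact tr_norm ν φ hφ g hgi hg1 y
    · simp only
      by_cases hy : y ∈ A
      · rw [Set.indicator_of_mem hy, norm_mul]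
        exact mul_le_of_le_one_left (norm_nonneg _) (hf1 y)
      · rw [Set.indicator_of_notMem hy, hfA y hy, zero_mul, norm_zero]
  -- duality for the full operator
  have hdual : ∀ s : ℝ, 0 < s → s * μ.real {y | s < ‖tr ν φ g y‖} ^ (1 - α) ≤
      K * m' ^ (-(1 / p)) := by
    intro s hs
    set D : Set Y := {y | s < ‖tr ν φ g y‖} with hD
    have hDm : MeasurableSet D := measurableSet_lt measurable_const htm.norm
    set v : ℝ := μ.real D with hv
    have hv0 : 0 ≤ v := measureReal_nonneg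
    rcases hv0.eq_or_lt with h0 | hv1
    · rw [← h0, Real.zero_rpow (by linarith), mul_zero]
      positivity
    set h : Y → ℂ := D.indicator fun y => sg (tr ν φ g y) with hh
    have hhm : Measurable h := (sg_meas.comp htm).indicator hDm
    have hh1 : ∀ y, ‖h y‖ ≤ 1 := by
      intro y
      by_cases hy : y ∈ D
      · rw [hh, Set.indicator_of_mem hy]; exact (sg_norm _).le
      · rw [hh, Set.indicator_of_notMem hy, norm_zero]; exact zero_le_one
    have hhD : ∀ y, y ∉ D → h y = 0 := fun y hy => Set.indicator_of_notMem hy _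
    have hti : Integrable (fun y => ‖tr ν φ g y‖) μ := by
      refine Integrable.mono' (integrable_const (1 : ℝ)) htm.norm.aestronglyMeasurable
        (Filter.Eventually.of_forall fun y => ?_)
      rw [norm_norm]
      exact tr_norm ν φ hφ g hgi hg1 y
    have e1 : ∫ y, h y * tr ν φ g y ∂μ = ((∫ y in D, ‖tr ν φ g y‖ ∂μ : ℝ) : ℂ) := by
      rw [← integral_indicator hDm, ← integral_complex_ofReal]
      refine integral_congr_ae (Filter.Eventually.of_forall fun y => ?_)
      simp only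
      by_cases hy : y ∈ D
      · rw [hh, Set.indicator_of_mem hy, Set.indicator_of_mem hy]
        exact sg_mul _
      · rw [hh, Set.indicator_of_notMem hy, Set.indicator_of_notMem hy, zero_mul]
        simp
    have e2 := pairing μ ν φ hφm hφ h hhm hh1 g hgm hgi
    rw [e1] at e2
    have h3 : ∫ y in D, ‖tr ν φ g y‖ ∂μ = ‖∫ x, g x * Eo μ φ h x ∂ν‖ := by
      rw [e2, Complex.norm_real, Real.norm_of_nonneg (integral_nonneg fun y => norm_nonneg _)]
    have h4 : s * v ≤ ∫ y in D, ‖tr ν φ g y‖ ∂μ := by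
      have h5 : ∫ y in D, s ∂μ ≤ ∫ y in D, ‖tr ν φ g y‖ ∂μ := by
        refine setIntegral_mono_on (integrableOn_const (measure_ne_top _ _)) hti.integrableOn
          hDm fun y hy => ?_
        exact (show s < ‖tr ν φ g y‖ from hy).le
      rw [setIntegral_const, smul_eq_mul, ← hv] at h5
      linarith
    have hEm := Eo_meas μ φ hφm h hhm
    have e3 : ∀ x, ‖g x * Eo μ φ h x‖ = G.indicator (fun x => m'⁻¹ * ‖Eo μ φ h x‖) x := by
      intro x
      rw [norm_mul, hgn x]
      by_cases hx : x ∈ G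
      · rw [Set.indicator_of_mem hx, Set.indicator_of_mem hx]
      · rw [Set.indicator_of_notMem hx, Set.indicator_of_notMem hx, zero_mul]
    have h5 : ‖∫ x, g x * Eo μ φ h x ∂ν‖ ≤ m'⁻¹ * ∫ x in G, ‖Eo μ φ h x‖ ∂ν := by
      refine (norm_integral_le_integral_norm _).trans (le_of_eq ?_)
      rw [integral_congr_ae (Filter.Eventually.of_forall e3), integral_indicator hGm,
        integral_const_mul]
    have h6 := hW D hDm h hhm hh1 hhD G hGm
    rw [← hm, ← hv] at h6
    have h7 : s * v ≤ (K * m' ^ (-(1 / p))) * v ^ α := by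
      calc s * v ≤ m'⁻¹ * ∫ x in G, ‖Eo μ φ h x‖ ∂ν := h4.trans (h3 ▸ h5)
        _ ≤ m'⁻¹ * (K * v ^ α * m' ^ (1 - 1 / p)) := mul_le_mul_of_nonneg_left h6 (by positivity)
        _ = (K * m' ^ (-(1 / p))) * v ^ α := by
            rw [sub_eq_add_neg, Real.rpow_add hmpos, Real.rpow_one]
            field_simp
    have hva : 0 < v ^ α := Real.rpow_pos_of_pos hv1 _
    have h8 : v = v ^ (1 - α) * v ^ α := by
      rw [← Real.rpow_add hv1, sub_add_cancel, Real.rpow_one]
    have h9 : (s * v ^ (1 - α)) * v ^ α ≤ (K * m' ^ (-(1 / p))) * v ^ α := by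
      calc (s * v ^ (1 - α)) * v ^ α = s * v := by rw [mul_assoc, ← h8]
        _ ≤ _ := h7
    exact le_of_mul_le_mul_right h9 hva
  have hR := int_sub μ (fun y => ‖tr ν φ g y‖) htm.norm (fun y => norm_nonneg _)
    (tr_norm ν φ hφ g hgi hg1) S A hA hAS m τ κ T α (K * m' ^ (-(1 / p))) hτ hκ hT hα0 hα1.le
    (by positivity) (hLv g hgm hgi hg1) hdual htail
  have h5 : l ≤ 8 * m * τ ^ (1 - α) * μ.real A ^ α * (K * m' ^ (-(1 / p))) +
      (m + 1) * Real.sqrt (κ * T * μ.real A) := hlow.trans (hup.trans hR)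
  have h6 : l / 2 ≤ 8 * m * τ ^ (1 - α) * μ.real A ^ α * K * m' ^ (-(1 / p)) := by
    have : 8 * m * τ ^ (1 - α) * μ.real A ^ α * (K * m' ^ (-(1 / p))) =
      8 * m * τ ^ (1 - α) * μ.real A ^ α * K * m' ^ (-(1 / p)) := by ring
    linarith
  have h7 : m' ^ (1 / p) ≤ 16 * m * τ ^ (1 - α) * μ.real A ^ α * K / l := by
    rw [Real.rpow_neg hmpos.le] at h6
    have hmp : 0 < m' ^ (1 / p) := Real.rpow_pos_of_pos hmpos _
    rw [← div_eq_mul_inv, le_div_iff₀ hmp] at h6
    rw [le_div_iff₀ hl0]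
    linarith
  have h8 : m' = (m' ^ (1 / p)) ^ p := by
    rw [← Real.rpow_mul hmpos.le, one_div_mul_cancel hp0.ne', Real.rpow_one]
  rw [h8]
  exact Real.rpow_le_rpow (Real.rpow_nonneg hmpos.le _) h7 hp0.le

end Pool.Agent.N248.LC
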