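import Pool.Agent.N248.LC.Cap2
import Pool.Agent.N248.RR.S4

set_option autoImplicit false
set_option linter.unusedSectionVars false

/-!
# Data in `L^q`: the sphere
-/

namespace Pool.Agent.N248.LC

open MeasureTheory Set
open Pool.Agent.N248.RC hiding sg
open Pool.Agent.N248.RR (ex ex_norm sS sS_meas sph_energy sph_decay sg_fin coord_pow CEnergy)
open Pool.Agent.H789R2.FR (sg T sg_finite sg_ae)
open scoped RealInnerProductSpace ENNReal

variable {n : ℕ}

/-- the unit sphere -/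
abbrev Sp (n : ℕ) := Metric.sphere (0 : EuclideanSpace ℝ (Fin n)) 1

/-- surface measure -/
noncomputable def sm (n : ℕ) : Measure (Sp n) :=
  (volume : Measure (EuclideanSpace ℝ (Fin n))).toSphere

instance sm_fin (n : ℕ) : IsFiniteMeasure (sm n) := by
  unfold sm; infer_instance

/-- the scaled sphere -/
noncomputable def Ps (n : ℕ) (s : ℝ) (y : Sp n) : EuclideanSpace ℝ (Fin n) :=
  s • (y : EuclideanSpace ℝ (Fin n))

theorem Ps_meas (s : ℝ) : Measurable (Ps n s) := measurable_subtype_coe.const_smul s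

theorem Ps_norm (s : ℝ) (y : Sp n) : ‖Ps n s y‖ = |s| := by
  unfold Ps
  rw [norm_smul, Real.norm_eq_abs, norm_eq_of_mem_sphere y, mul_one]

theorem Ps_emb (n : ℕ) : MeasurableEmbedding (Subtype.val : Sp n → EuclideanSpace ℝ (Fin n)) :=
  MeasurableEmbedding.subtype_coe Metric.isClosed_sphere.measurableSet

theorem sg_mapq (n : ℕ) : sg n = (sm n).map Subtype.val := rfl

/-- extension by zero -/
noncomputable def ez (f : Sp n → ℂ) : EuclideanSpace ℝ (Fin n) → ℂ :=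
  Function.extend Subtype.val f 0

theorem ez_val (f : Sp n → ℂ) (y : Sp n) : ez f y = f y :=
  Function.Injective.extend_apply Subtype.val_injective f 0 y

theorem ez_meas (f : Sp n → ℂ) (hf : Measurable f) : Measurable (ez f) :=
  (Ps_emb n).measurable_extend hf measurable_const

theorem ez_norm (f : Sp n → ℂ) (hf1 : ∀ y, ‖f y‖ ≤ 1) (x : EuclideanSpace ℝ (Fin n)) :
    ‖ez f x‖ ≤ 1 := by
  by_cases hx : x ∈ Metric.sphere (0 : EuclideanSpace ℝ (Fin n)) 1
  · have h := ez_val f ⟨x, hx⟩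
    rw [h]
    exact hf1 _
  · unfold ez
    rw [Function.extend_apply' _ _ _ (fun ⟨y, hy⟩ => hx (hy ▸ y.2))]
    simp

theorem ez_zero (f : Sp n → ℂ) (A : Set (Sp n)) (hfA : ∀ y, y ∉ A → f y = 0)
    (x : EuclideanSpace ℝ (Fin n)) (hx : x ∉ Subtype.val '' A) : ez f x = 0 := by
  by_cases hxs : x ∈ Metric.sphere (0 : EuclideanSpace ℝ (Fin n)) 1
  · have h := ez_val f ⟨x, hxs⟩
    rw [h]
    exact hfA _ fun hA => hx ⟨⟨x, hxs⟩, hA, rfl⟩
  · unfold ez
    rw [Function.extend_apply' _ _ _ (fun ⟨y, hy⟩ => hxs (hy ▸ y.2))]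
    rfl

theorem Eo_sphere (s : ℝ) (f : Sp n → ℂ) (x : EuclideanSpace ℝ (Fin n)) :
    Eo (sg n) (ker (sS s)) (ez f) x = Eo (sm n) (ker (Ps n s)) f x := by
  unfold Eo
  rw [sg_mapq, (Ps_emb n).integral_map]
  refine integral_congr_ae (Filter.Eventually.of_forall fun y => ?_)
  simp only
  rw [ez_val]
  rfl

theorem sg_image (A : Set (Sp n)) : (sg n).real (Subtype.val '' A) = (sm n).real A := by
  rw [sg_mapq, Measure.real, (Ps_emb n).map_apply, preimage_image_eq _ Subtype.val_injective,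
    Measure.real]

theorem WkA_sphere (s : ℝ) (ν : Measure (EuclideanSpace ℝ (Fin n))) (α p K : ℝ)
    (h : WkA (sg n) ν (ker (sS s)) α p K) : WkA (sm n) ν (ker (Ps n s)) α p K := by
  intro A hA f hf hf1 hfA G hG
  have h1 := h (Subtype.val '' A) ((Ps_emb n).measurableSet_image.2 hA) (ez f) (ez_meas f hf)
    (ez_norm f hf1) (ez_zero f A hfA) G hG
  rw [sg_image] at h1
  simp_rw [Eo_sphere] at h1
  exact h1

theorem Lt_sphere (s R B0 : ℝ) (h : Lt (sg n) (sS s) R B0) : Lt (sm n) (Ps n s) R B0 := by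
  intro f hf hf1
  have h1 := h (ez f) (ez_meas f hf) (ez_norm f hf1)
  simp_rw [Eo_sphere] at h1
  refine h1.trans (le_of_eq ?_)
  congr 1
  rw [sg_mapq, (Ps_emb n).integral_map]
  refine integral_congr_ae (Filter.Eventually.of_forall fun y => ?_)
  simp only
  rw [ez_val]

theorem Ps_Lt (hn : 2 ≤ n) (s : ℝ) (hs : s ≠ 0) : ∃ B0 : ℝ, 0 ≤ B0 ∧ ∀ R : ℝ, 1 ≤ R →
    Lt (sm n) (Ps n s) R B0 := by
  obtain ⟨L₀, hL₀, hE⟩ := sph_energy hn s hs
  refine ⟨2 * L₀, by positivity, fun R hR => Lt_sphere s R _ ?_⟩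
  exact lt_of_block (sg n) (sS s) (sS_meas s) _ L₀ hL₀ hE R hR

theorem Ps_WkA (hn : 2 ≤ n) (s : ℝ) (hs : s ≠ 0) : ∃ K : ℝ, 0 ≤ K ∧ ∀ R : ℝ, 1 ≤ R →
    ∀ p : ℝ, 2 ≤ p → p ≤ 2 * (n + 1) / (n - 1) → ∀ q : ℝ≥0∞, 2 ≤ q →
    WkA (sm n) (volume.restrict (Metric.ball 0 R)) (ker (Ps n s)) (1 / q.toReal) p
      (K * R ^ (((n : ℝ) + 1) / (2 * p) - ((n : ℝ) - 1) / 4)) := by
  have hnR : (2 : ℝ) ≤ n := by exact_mod_cast hn
  have hn1 : (0 : ℝ) < n - 1 := by linarith
  obtain ⟨L₁, hL₁, hE⟩ := sph_energy hn s hs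
  obtain ⟨L₂, hL₂, hD⟩ := sph_decay hn s hs
  have hμ0 : 0 ≤ (sg n).real univ := measureReal_nonneg
  obtain ⟨K, hK0, hK⟩ := wkA_source (sg n) (sS s) (sS_meas s) (id : Fin n → Fin n)
    (L₁ + L₂) (((n : ℝ) - 1) / 2) (1 + (sg n).real univ)
    (by linarith) (by positivity) (by linarith) (by linarith) (by
      intro f B hB α τ hτ hBα
      refine (hE f B hB α τ hτ hBα).trans ?_
      refine mul_le_mul' (ENNReal.ofReal_le_ofReal ?_) le_rfl
      exact mul_le_mul_of_nonneg_right (by linarith) (by linarith))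
    |s| (abs_nonneg s) (by
      filter_upwards [sg_ae n] with w hw
      unfold sS
      rw [norm_smul, Real.norm_eq_abs, hw, mul_one]) (by
      intro x t hx
      have hx0 : x ≠ 0 := by
        intro h
        rw [h] at hx
        simp at hx
        linarith
      refine (hD x hx0).trans ?_
      have h1 := coord_pow hn x t hx
      calc L₂ * ‖x‖ ^ (-(((n : ℝ) - 1) / 2)) ≤ L₂ * |x t| ^ (-(((n : ℝ) - 1) / 2)) :=
            mul_le_mul_of_nonneg_left h1 hL₂
        _ ≤ (L₁ + L₂) * |x (id t)| ^ (-(((n : ℝ) - 1) / 2)) :=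
            mul_le_mul_of_nonneg_right (by linarith) (by positivity))
  have hμs : 0 ≤ (sm n).real univ := measureReal_nonneg
  refine ⟨(1 + (sm n).real univ) * K, by positivity, fun R hR p hp hpp q hq => ?_⟩
  have f1 : 2 + 2 / (((n : ℝ) - 1) / 2) = 2 * (n + 1) / (n - 1) := by field_simp; ring
  have h1 := WkA_sphere s _ _ _ _ (hK R hR p hp (by rw [f1]; exact hpp))
  have h2 := wkA_monoE (sm n) (Ps n s) _ (1 + (sm n).real univ) (by linarith) (by linarith) p _
    (by positivity) h1 q hq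
  have f2 : ((n : ℝ) - 1) / 2 * (2 + 2 / (((n : ℝ) - 1) / 2) - p) / (2 * p) =
      ((n : ℝ) + 1) / (2 * p) - ((n : ℝ) - 1) / 4 := by
    rw [f1]
    have hp0 : p ≠ 0 := by linarith
    field_simp
    ring
  rw [f2, ← mul_assoc] at h2
  exact h2

theorem sm_pos (hn : 2 ≤ n) : 0 < (sm n).real univ := by
  obtain ⟨c, hc0, hc⟩ := Pool.Agent.H789R2.FR.cap_lower n hn
  obtain ⟨e, he⟩ := Pool.Agent.H789R2.FR.exists_unit n hn
  have h1 := hc 1 one_pos le_rfl e he
  have h2 : (sg n).real {w | ‖e - w‖ < 1} ≤ (sg n).real univ := measureReal_mono (subset_univ _)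
  have h3 : 0 < c * 1 ^ (n - 1) := by positivity
  have h4 : (sg n).real univ = (sm n).real univ := by
    rw [sg_mapq, Measure.real, (Ps_emb n).map_apply, preimage_univ, Measure.real]
  linarith

end Pool.Agent.N248.LC
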