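import Pool.Agent.N248.LC.Gen
import Pool.Agent.N248.RC.Mid

set_option autoImplicit false
set_option linter.unusedSectionVars false

/-!
# Data in `L^q`: the weak type bounds from energy and decay
-/

namespace Pool.Agent.N248.LC

open Finset MeasureTheory
open Pool.Agent.N248.RC
open Pool.Agent.N248.RR (ex ex_norm ps ps_inner ps_meas CEnergy hit uq uq_meas uq_vol energy_of
  ps_norm ps_inner_ps ps_sub block_count)
open scoped RealInnerProductSpace ENNReal

variable {d : ℕ} {Y : Type*} [MeasurableSpace Y] (μ : Measure Y) [IsFiniteMeasure μ]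
  (Φ : Y → EuclideanSpace ℝ (Fin d)) (hΦ : Measurable Φ)

include hΦ in
theorem lt_of_block {m : ℕ} (e : Fin m → Fin d) (L₀ : ℝ) (hL₀ : 0 ≤ L₀)
    (hC : CEnergy μ Φ hΦ e L₀) (R : ℝ) (hR : 1 ≤ R) : Lt μ Φ R (2 * L₀) := by
  intro f hf hf1
  obtain ⟨F, hF1, hF2⟩ := Eo_ps μ Φ hΦ f hf hf1
  have h1 := hC F (Metric.ball 0 R) measurableSet_ball (fun _ => -R) (2 * R) (by linarith) (by
    intro x hx t
    have h2 : ‖x (e t)‖ ≤ ‖x‖ := PiLp.norm_apply_le x (e t)
    rw [Real.norm_eq_abs] at h2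
    rw [mem_ball_zero_iff] at hx
    have h3 := abs_le.1 (h2.trans hx.le)
    constructor <;> linarith [h3.1, h3.2])
  simp_rw [hF1] at h1
  rw [hF2] at h1
  have hm := Eo_meas μ (ker Φ) (ker_meas Φ hΦ) f hf
  rw [integral_eq_lintegral_of_nonneg_ae (Filter.Eventually.of_forall fun x => by positivity)
    (hm.norm.pow_const 2).aestronglyMeasurable]
  have h4 : ∫⁻ x in Metric.ball 0 R, ENNReal.ofReal (‖Eo μ (ker Φ) f x‖ ^ 2) =
      ∫⁻ x in Metric.ball 0 R, ‖Eo μ (ker Φ) f x‖ₑ ^ 2 := by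
    refine lintegral_congr fun x => ?_
    rw [ENNReal.ofReal_pow (norm_nonneg _), ofReal_norm]
  rw [h4]
  have hI0 : 0 ≤ ∫ y, ‖f y‖ ^ 2 ∂μ := integral_nonneg fun y => by positivity
  refine (ENNReal.toReal_mono (by simp [ENNReal.mul_eq_top]) h1).trans ?_
  rw [ENNReal.toReal_mul, ENNReal.toReal_ofReal (by positivity), ENNReal.toReal_ofReal hI0]
  exact le_of_eq (by ring)

/-- the energy of a function of modulus at most one -/
theorem sq_le (A : Set Y) (hA : MeasurableSet A) (f : Y → ℂ) (hf1 : ∀ y, ‖f y‖ ≤ 1)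
    (hfA : ∀ y, y ∉ A → f y = 0) : ∫ y, ‖f y‖ ^ 2 ∂μ ≤ μ.real A := by
  have h1 : ∀ y, ‖f y‖ ^ 2 ≤ A.indicator (fun _ => (1 : ℝ)) y := by
    intro y
    by_cases hy : y ∈ A
    · rw [Set.indicator_of_mem hy]
      exact pow_le_one₀ (norm_nonneg _) (hf1 y)
    · rw [Set.indicator_of_notMem hy, hfA y hy, norm_zero]
      norm_num
  refine (integral_mono_of_nonneg (Filter.Eventually.of_forall fun y => by positivity)
    ((integrable_const (1 : ℝ)).indicator hA) (Filter.Eventually.of_forall h1)).trans ?_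
  rw [integral_indicator hA, setIntegral_const, smul_eq_mul, mul_one]

include hΦ in
theorem weak_of_countA (L p V : ℝ) (hL : 0 ≤ L) (hV : 1 ≤ V)
    (hμV : μ.real Set.univ ≤ V)
    (hcount : ∀ F : Lp ℂ 2 μ, ‖F‖ ≤ 1 → ∀ lam : ℝ, 0 < lam → lam ≤ 1 →
      ∀ J : Finset (Fin d → ℤ), (∀ j ∈ J, hit (ps μ Φ hΦ) lam F j) → (J.card : ℝ) ≤ L * lam ^ (-p))
    (R : ℝ) (A : Set Y) (hA : MeasurableSet A) (hA0 : 0 < μ.real A) (f : Y → ℂ) (hf : Measurable f)
    (hf1 : ∀ y, ‖f y‖ ≤ 1) (hfA : ∀ y, y ∉ A → f y = 0) (l : ℝ) (hl : 0 < l) :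
    (volume.restrict (Metric.ball 0 R)).real {x | l < ‖Eo μ (ker Φ) f x‖} ≤
      (L * V ^ p) * μ.real A ^ (p / 2) * l ^ (-p) := by
  classical
  have hV0 : 0 < V := by linarith
  obtain ⟨F, hF1, hF2⟩ := Eo_ps μ Φ hΦ f hf hf1
  have hm := Eo_meas μ (ker Φ) (ker_meas Φ hΦ) f hf
  obtain ⟨a, ha⟩ : ∃ a : ℝ, a = μ.real A := ⟨_, rfl⟩
  rw [← ha] at hA0 ⊢
  have haV : a ≤ V := by rw [ha]; exact (measureReal_mono (Set.subset_univ _)).trans hμV
  have hsa : 0 < Real.sqrt a := Real.sqrt_pos.2 hA0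
  obtain ⟨W, hW⟩ : ∃ W : ℝ, W = V * Real.sqrt a := ⟨_, rfl⟩
  have hW0 : 0 < W := by rw [hW]; positivity
  have haW : a ≤ W := by
    have h1 : Real.sqrt a ≤ V := Real.sqrt_le_iff.2 ⟨by linarith, by nlinarith⟩
    calc a = Real.sqrt a * Real.sqrt a := (Real.mul_self_sqrt hA0.le).symm
      _ ≤ V * Real.sqrt a := mul_le_mul_of_nonneg_right h1 hsa.le
      _ = W := hW.symm
  have hFb : ∀ x, ‖Eo μ (ker Φ) f x‖ ≤ W := fun x =>
    (Eo_bound μ (ker Φ) (ker_norm Φ) A hA f hf1 hfA x).trans (by rw [← ha]; exact haW)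
  have hWp : W ^ p = V ^ p * a ^ (p / 2) := by
    rw [hW, Real.mul_rpow hV0.le hsa.le, Real.sqrt_eq_rpow, ← Real.rpow_mul hA0.le]
    congr 2
    ring
  rw [mul_assoc L, ← hWp]
  rcases le_or_gt W l with h | h
  · have : {x | l < ‖Eo μ (ker Φ) f x‖} = ∅ := by
      ext x
      simp only [Set.mem_setOf_eq, Set.mem_empty_iff_false, iff_false, not_lt]
      exact (hFb x).trans h
    rw [this, measureReal_empty]
    positivity
  · have hF3 : ‖F‖ ≤ W := by
      have h1 : ‖F‖ ^ 2 ≤ a := by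
        rw [hF2, ha]
        exact sq_le μ A hA f hf1 hfA
      have h2 : ‖F‖ ^ 2 ≤ W ^ 2 := by
        refine h1.trans ?_
        rw [hW, mul_pow, Real.sq_sqrt hA0.le]
        nlinarith [one_le_pow₀ hV (n := 2)]
      exact (pow_le_pow_iff_left₀ (norm_nonneg _) hW0.le (by norm_num)).1 h2
    set F' : Lp ℂ 2 μ := ((W⁻¹ : ℝ) : ℂ) • F with hF'
    have hF'1 : ‖F'‖ ≤ 1 := by
      rw [hF', norm_smul, Complex.norm_real, Real.norm_of_nonneg (by positivity)]
      rw [inv_mul_le_one₀ hW0]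
      exact hF3
    set J : Finset (Fin d → ℤ) := (bxR d R).filter fun j => hit (ps μ Φ hΦ) (l / W) F' j with hJ
    have hc := hcount F' hF'1 (l / W) (by positivity) (by rw [div_le_one hW0]; exact h.le) J
      (fun j hj => (Finset.mem_filter.1 hj).2)
    have hsub : {x | l < ‖Eo μ (ker Φ) f x‖} ∩ Metric.ball 0 R ⊆ ⋃ j ∈ J, uq j := by
      rintro x ⟨hx1, hx2⟩
      obtain ⟨h3, h4⟩ := bxR_mem R x hx2
      rw [Set.mem_iUnion₂]
      refine ⟨_, ?_, h4⟩
      rw [hJ, Finset.mem_filter]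
      refine ⟨h3, x, h4, ?_⟩
      rw [hF', inner_smul_right, norm_mul, Complex.norm_real, Real.norm_of_nonneg (by positivity),
        hF1, div_eq_inv_mul]
      exact mul_le_mul_of_nonneg_left (le_of_lt hx1) (by positivity)
    have hset : MeasurableSet {x | l < ‖Eo μ (ker Φ) f x‖} :=
      measurableSet_lt measurable_const hm.norm
    have h5 : (volume.restrict (Metric.ball 0 R)).real {x | l < ‖Eo μ (ker Φ) f x‖} ≤
        (J.card : ℝ) := by
      rw [measureReal_restrict_apply hset]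
      have h6 : volume.real (⋃ j ∈ J, uq j) ≤ (J.card : ℝ) := by
        refine (measureReal_biUnion_finset_le J _).trans (le_of_eq ?_)
        rw [Finset.sum_congr rfl fun j _ => show volume.real (uq j) = 1 by
          rw [Measure.real, uq_vol]; simp]
        simp
      refine (measureReal_mono hsub ?_).trans h6
      refine ((measure_biUnion_finset_le J _).trans_lt ?_).ne
      refine ENNReal.sum_lt_top.2 fun j _ => ?_
      rw [uq_vol]
      exact ENNReal.one_lt_top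
    refine h5.trans (hc.trans (le_of_eq ?_))
    rw [Real.div_rpow hl.le hW0.le, Real.rpow_neg hW0.le, div_inv_eq_mul]
    ring

include hΦ in
theorem wkA_mid (R B0 C₁ p₁ V : ℝ) (hR : 1 ≤ R) (hB0 : 1 ≤ B0) (hC₁ : 1 ≤ C₁)
    (hp₁ : 2 < p₁) (hμV : μ.real Set.univ ≤ V) (hLt : Lt μ Φ R B0)
    (hw : ∀ A : Set Y, MeasurableSet A → 0 < μ.real A → ∀ f : Y → ℂ, Measurable f →
      (∀ y, ‖f y‖ ≤ 1) → (∀ y, y ∉ A → f y = 0) → ∀ l : ℝ, 0 < l →
      (volume.restrict (Metric.ball 0 R)).real {x | l < ‖Eo μ (ker Φ) f x‖} ≤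
        C₁ * μ.real A ^ (p₁ / 2) * l ^ (-p₁))
    (p : ℝ) (hp : 2 ≤ p) (hpp : p ≤ p₁) :
    WkA μ (volume.restrict (Metric.ball 0 R)) (ker Φ) (1 / 2) p
      (5 * (B0 * C₁ * R ^ ((p₁ - p) / ((p₁ - 2) * p)))) := by
  intro A hA f hf hf1 hfA G hG
  have hm := Eo_meas μ (ker Φ) (ker_meas Φ hΦ) f hf
  have hR0 : 0 < R := by linarith
  have hp0 : 0 < p := by linarith
  obtain ⟨a, ha⟩ : ∃ a : ℝ, a = μ.real A := ⟨_, rfl⟩
  rw [← ha]
  have ha0 : 0 ≤ a := by rw [ha]; exact measureReal_nonneg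
  have hFb : ∀ x, ‖Eo μ (ker Φ) f x‖ ≤ a := fun x => by
    rw [ha]
    exact Eo_bound μ (ker Φ) (ker_norm Φ) A hA f hf1 hfA x
  rcases ha0.eq_or_lt with h0 | hapos
  · have hz : ∀ x, ‖Eo μ (ker Φ) f x‖ = 0 := fun x =>
      le_antisymm ((hFb x).trans (le_of_eq h0.symm)) (norm_nonneg _)
    simp_rw [hz]
    rw [integral_zero]
    positivity
  set Q : ℝ := B0 * R * a with hQ
  have hQ0 : 0 < Q := by positivity
  have hint : ∫ x in Metric.ball 0 R, ‖Eo μ (ker Φ) f x‖ ^ 2 ≤ Q := by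
    refine (hLt f hf hf1).trans ?_
    rw [hQ, ha]
    exact mul_le_mul_of_nonneg_left (sq_le μ A hA f hf1 hfA) (by positivity)
  have hset : ∀ c : ℝ, MeasurableSet {x | c < ‖Eo μ (ker Φ) f x‖} :=
    fun c => measurableSet_lt measurable_const hm.norm
  have hcheb : ∀ l : ℝ, 0 < l →
      (volume.restrict (Metric.ball 0 R)).real {x | l < ‖Eo μ (ker Φ) f x‖} ≤ Q * l ^ (-2 : ℝ) := by
    intro l hl
    have h2i : Integrable (fun x => ‖Eo μ (ker Φ) f x‖ ^ 2) (volume.restrict (Metric.ball 0 R)) := by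
      refine Integrable.mono' (integrable_const (a ^ 2 : ℝ))
        (hm.norm.pow_const 2).aestronglyMeasurable (Filter.Eventually.of_forall fun x => ?_)
      rw [Real.norm_of_nonneg (by positivity)]
      exact pow_le_pow_left₀ (norm_nonneg _) (hFb x) 2
    have h3 := mul_meas_ge_le_integral_of_nonneg (μ := volume.restrict (Metric.ball 0 R))
      (f := fun x => ‖Eo μ (ker Φ) f x‖ ^ 2) (Filter.Eventually.of_forall fun x => by positivity)
      h2i (l ^ 2)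
    have h4 : (volume.restrict (Metric.ball 0 R)).real {x | l < ‖Eo μ (ker Φ) f x‖} ≤
        (volume.restrict (Metric.ball 0 R)).real {x | l ^ 2 ≤ ‖Eo μ (ker Φ) f x‖ ^ 2} := by
      refine measureReal_mono (fun x hx => ?_)
      exact pow_le_pow_left₀ hl.le (le_of_lt hx) 2
    have h5 : l ^ 2 * (volume.restrict (Metric.ball 0 R)).real
        {x | l < ‖Eo μ (ker Φ) f x‖} ≤ Q :=
      (mul_le_mul_of_nonneg_left h4 (by positivity)).trans (h3.trans hint)
    rw [Real.rpow_neg hl.le, Real.rpow_two, ← div_eq_mul_inv, le_div_iff₀ (by positivity)]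
    linarith
  -- the geometric mean
  obtain ⟨θ, hθ⟩ : ∃ θ : ℝ, θ = (p - 2) / (p₁ - 2) := ⟨_, rfl⟩
  have hp12 : 0 < p₁ - 2 := by linarith
  have hθ0 : 0 ≤ θ := by rw [hθ]; exact div_nonneg (by linarith) hp12.le
  have hθ1 : θ ≤ 1 := by rw [hθ, div_le_one hp12]; linarith
  have hθp : p = 2 * (1 - θ) + p₁ * θ := by
    rw [hθ]; field_simp; ring
  have hθe : (p₁ - p) / ((p₁ - 2) * p) = (1 - θ) / p := by
    rw [hθ]; field_simp; ring
  rw [hθe]
  set W : ℝ := B0 * C₁ * R ^ ((1 - θ) / p) * a ^ (1 / 2 : ℝ) with hW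
  have hW0 : 0 < W := by positivity
  have hWp : (B0 * R * a) ^ (1 - θ) * (C₁ * a ^ (p₁ / 2)) ^ θ ≤ W ^ p := by
    have e1 : (B0 * R * a) ^ (1 - θ) * (C₁ * a ^ (p₁ / 2)) ^ θ =
        (B0 ^ (1 - θ) * C₁ ^ θ) * (R ^ (1 - θ) * a ^ (p / 2)) := by
      rw [Real.mul_rpow (by positivity) hapos.le, Real.mul_rpow (by positivity) (by positivity),
        Real.mul_rpow (by positivity) (by positivity), ← Real.rpow_mul hapos.le]
      have e2 : a ^ (p / 2) = a ^ (1 - θ) * a ^ (p₁ / 2 * θ) := by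
        rw [← Real.rpow_add hapos]
        congr 1
        linarith
      rw [e2]
      ring
    have e3 : W ^ p = (B0 * C₁) ^ p * (R ^ (1 - θ) * a ^ (p / 2)) := by
      rw [hW, Real.mul_rpow (by positivity) (by positivity),
        Real.mul_rpow (by positivity) (by positivity), ← Real.rpow_mul hR0.le,
        ← Real.rpow_mul hapos.le, div_mul_cancel₀ _ hp0.ne']
      have : 1 / 2 * p = p / 2 := by ring
      rw [this]
      ring
    rw [e1, e3]
    refine mul_le_mul_of_nonneg_right ?_ (by positivity)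
    have h1 : B0 ^ (1 - θ) ≤ B0 ^ p := Real.rpow_le_rpow_of_exponent_le hB0 (by linarith)
    have h2 : C₁ ^ θ ≤ C₁ ^ p := Real.rpow_le_rpow_of_exponent_le hC₁ (by linarith)
    rw [Real.mul_rpow (by positivity) (by positivity)]
    exact mul_le_mul h1 h2 (by positivity) (by positivity)
  have hlev : ∀ l, 0 < l →
      (volume.restrict (Metric.ball 0 R)).real {x | l < ‖Eo μ (ker Φ) f x‖} ≤
        W ^ p * l ^ (-p) := by
    intro l hl
    have h1 := hcheb l hl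
    have h2 := hw A hA (by rw [← ha]; exact hapos) f hf hf1 hfA l hl
    rw [← ha] at h2
    obtain ⟨D, hD⟩ : ∃ D : ℝ, D =
      (volume.restrict (Metric.ball 0 R)).real {x | l < ‖Eo μ (ker Φ) f x‖} := ⟨_, rfl⟩
    rw [← hD] at h1 h2 ⊢
    have hD0 : 0 ≤ D := by rw [hD]; exact measureReal_nonneg
    have h3 := min_geom (show 0 ≤ C₁ * a ^ (p₁ / 2) * l ^ (-p₁) by positivity)
      (show 0 ≤ Q * l ^ (-2 : ℝ) by positivity) hD0 h2 h1 hθ0 hθ1
    refine h3.trans ?_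
    have e : (C₁ * a ^ (p₁ / 2) * l ^ (-p₁)) ^ θ * (Q * l ^ (-2 : ℝ)) ^ (1 - θ) =
        ((B0 * R * a) ^ (1 - θ) * (C₁ * a ^ (p₁ / 2)) ^ θ) * l ^ (-p) := by
      rw [Real.mul_rpow (by positivity) (by positivity), Real.mul_rpow hQ0.le (by positivity),
        ← Real.rpow_mul hl.le, ← Real.rpow_mul hl.le]
      have e2 : l ^ (-p) = l ^ (-p₁ * θ) * l ^ (-2 * (1 - θ)) := by
        rw [← Real.rpow_add hl]
        congr 1
        linarith
      rw [e2, hQ]
      ring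
    rw [e]
    exact mul_le_mul_of_nonneg_right hWp (by positivity)
  have hres := restricted (volume.restrict (Metric.ball 0 R)) (Eo μ (ker Φ) f) hm p W a hp hW0 hFb
    hlev G hG
  refine hres.trans (le_of_eq ?_)
  rw [hW]
  ring

/-- **The restricted weak type bounds, from energy and decay.** -/
theorem wkA_source {m : ℕ} (e : Fin m → Fin d) (L₀ g V : ℝ) (hL₀ : 0 ≤ L₀) (hg : 0 < g)
    (hV : 1 ≤ V) (hμV : μ.real Set.univ ≤ V)
    (hC : CEnergy μ Φ hΦ e L₀) (ρ0 : ℝ) (hρ0 : 0 ≤ ρ0)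
    (hΦb : ∀ᵐ y ∂μ, ‖Φ y‖ ≤ ρ0)
    (hdec : ∀ (x : EuclideanSpace ℝ (Fin d)) (t : Fin m), 1 ≤ |x (e t)| →
      ‖∫ y, ex ⟪Φ y, x⟫ ∂μ‖ ≤ L₀ * |x (e t)| ^ (-g)) :
    ∃ K : ℝ, 0 ≤ K ∧ ∀ R : ℝ, 1 ≤ R → ∀ p : ℝ, 2 ≤ p → p ≤ 2 + 2 / g →
      WkA μ (volume.restrict (Metric.ball 0 R)) (ker Φ) (1 / 2) p
        (K * R ^ (g * (2 + 2 / g - p) / (2 * p))) := by
  obtain ⟨L, hL0, hE⟩ := energy_of μ Φ hΦ e L₀ hL₀ hC ρ0 hρ0 hΦb
  set L₁ : ℝ := 1 + L + L₀ with hL₁
  have hcount : ∀ F : Lp ℂ 2 μ, ‖F‖ ≤ 1 → ∀ lam : ℝ, 0 < lam → lam ≤ 1 →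
      ∀ J : Finset (Fin d → ℤ), (∀ j ∈ J, hit (ps μ Φ hΦ) lam F j) →
      (J.card : ℝ) ≤ (4 * 3 ^ m * L₁ * (2 * L₁) ^ (1 / g)) * lam ^ (-(2 + 2 / g)) := by
    intro F hF lam h0 h1 J hJ
    refine block_count e (ps μ Φ hΦ) L₁ g (by linarith) hg ?_ ?_ F hF lam h0 h1
      J hJ
    · intro f τ hτ J s hJ x hx
      refine (hE f τ hτ J s hJ x hx).trans ?_
      refine mul_le_mul_of_nonneg_right ?_ (by positivity)
      exact mul_le_mul_of_nonneg_right (by linarith) (Nat.cast_nonneg _)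
    · intro x y t ht
      rw [ps_inner_ps]
      refine (hdec (x - y) t ht).trans ?_
      exact mul_le_mul_of_nonneg_right (by linarith) (by positivity)
  set C₀ : ℝ := 4 * 3 ^ m * L₁ * (2 * L₁) ^ (1 / g) with hC₀
  have hC₀0 : 0 < C₀ := by positivity
  have hg2 : 0 < 2 / g := by positivity
  set p₁ : ℝ := 2 + 2 / g with hp₁
  refine ⟨5 * ((2 * L₀ + 1) * (C₀ * V ^ p₁ + 1)), by positivity, ?_⟩
  intro R hR p hp hpp
  have hLt : Lt μ Φ R (2 * L₀ + 1) := by
    intro f hf hf1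
    refine (lt_of_block μ Φ hΦ e L₀ hL₀ hC R hR f hf hf1).trans ?_
    refine mul_le_mul_of_nonneg_right ?_ (integral_nonneg fun y => by positivity)
    exact mul_le_mul_of_nonneg_right (by linarith) (by linarith)
  have h := wkA_mid μ Φ hΦ R (2 * L₀ + 1) (C₀ * V ^ p₁ + 1) p₁ V hR (by linarith)
    (by have : 0 ≤ C₀ * V ^ p₁ := by positivity
        linarith) (by linarith) hμV hLt
    (fun A hA hA0 f hf hf1 hfA l hl => by
      refine (weak_of_countA μ Φ hΦ C₀ p₁ V hC₀0.le hV hμV hcount R A hA hA0 f hf hf1 hfA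
        l hl).trans ?_
      refine mul_le_mul_of_nonneg_right ?_ (by positivity)
      exact mul_le_mul_of_nonneg_right (by linarith) (by positivity)) p hp hpp
  have e1 : (p₁ - p) / ((p₁ - 2) * p) = g * (2 + 2 / g - p) / (2 * p) := by
    rw [hp₁]; field_simp; ring
  rw [e1, ← mul_assoc] at h
  exact h

/-- data in `L^q` -/
theorem wkA_mono (ν : Measure (EuclideanSpace ℝ (Fin d))) (V : ℝ) (hV : 1 ≤ V)
    (hμV : μ.real Set.univ ≤ V) (p K : ℝ) (hK : 0 ≤ K) (hW : WkA μ ν (ker Φ) (1 / 2) p K)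
    (q : ℝ) (hq : 2 ≤ q) : WkA μ ν (ker Φ) (1 / q) p (V * K) := by
  intro A hA f hf hf1 hfA G hG
  refine (hW A hA f hf hf1 hfA G hG).trans ?_
  refine mul_le_mul_of_nonneg_right ?_ (Real.rpow_nonneg measureReal_nonneg _)
  obtain ⟨a, ha⟩ : ∃ a : ℝ, a = μ.real A := ⟨_, rfl⟩
  rw [← ha]
  have ha0 : 0 ≤ a := by rw [ha]; exact measureReal_nonneg
  have haV : a ≤ V := by rw [ha]; exact (measureReal_mono (Set.subset_univ _)).trans hμV
  have hq0 : 0 < q := by linarith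
  have hq2 : 1 / q ≤ 1 / 2 := by
    rw [div_le_div_iff₀ hq0 (by norm_num)]
    linarith
  have hq1 : 0 ≤ 1 / q := by positivity
  rcases ha0.eq_or_lt with h0 | hapos
  · rw [← h0, Real.zero_rpow (by norm_num), mul_zero]
    positivity
  have h1 : a ^ (1 / 2 : ℝ) ≤ V * a ^ (1 / q) := by
    calc a ^ (1 / 2 : ℝ) = a ^ (1 / 2 - 1 / q) * a ^ (1 / q) := by
          rw [← Real.rpow_add hapos]
          congr 1
          ring
      _ ≤ V * a ^ (1 / q) := by
          refine mul_le_mul_of_nonneg_right ?_ (by positivity)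
          calc a ^ (1 / 2 - 1 / q) ≤ V ^ (1 / 2 - 1 / q) :=
                Real.rpow_le_rpow ha0 haV (by linarith)
            _ ≤ V ^ (1 : ℝ) := Real.rpow_le_rpow_of_exponent_le hV (by linarith)
            _ = V := Real.rpow_one _
  calc K * a ^ (1 / 2 : ℝ) ≤ K * (V * a ^ (1 / q)) := mul_le_mul_of_nonneg_left h1 hK
    _ = _ := by ring

/-! ### The restriction of the measure -/

theorem Eo_restrict (U : Set Y) (hU : MeasurableSet U) (f : Y → ℂ) :
    Eo (μ.restrict U) (ker Φ) f = Eo μ (ker Φ) (U.indicator f) := by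
  ext x
  unfold Eo
  rw [← integral_indicator hU]
  refine integral_congr_ae (Filter.Eventually.of_forall fun y => ?_)
  simp only
  by_cases hy : y ∈ U
  · rw [Set.indicator_of_mem hy, Set.indicator_of_mem hy]
  · rw [Set.indicator_of_notMem hy, Set.indicator_of_notMem hy, zero_mul]

theorem ind_norm (U : Set Y) (f : Y → ℂ) (hf1 : ∀ y, ‖f y‖ ≤ 1) (y : Y) :
    ‖U.indicator f y‖ ≤ 1 := by
  by_cases hy : y ∈ U
  · rw [Set.indicator_of_mem hy]; exact hf1 y
  · rw [Set.indicator_of_notMem hy]; simp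

theorem Lt_restrict (U : Set Y) (hU : MeasurableSet U) (R B0 : ℝ) (h : Lt μ Φ R B0) :
    Lt (μ.restrict U) Φ R B0 := by
  intro f hf hf1
  rw [Eo_restrict μ Φ U hU]
  refine (h _ (hf.indicator hU) (ind_norm U f hf1)).trans (le_of_eq ?_)
  congr 1
  rw [← integral_indicator hU]
  refine integral_congr_ae (Filter.Eventually.of_forall fun y => ?_)
  simp only
  by_cases hy : y ∈ U
  · rw [Set.indicator_of_mem hy, Set.indicator_of_mem hy]
  · rw [Set.indicator_of_notMem hy, Set.indicator_of_notMem hy]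
    simp

theorem WkA_restrict (U : Set Y) (hU : MeasurableSet U)
    (ν : Measure (EuclideanSpace ℝ (Fin d))) (α p K : ℝ) (h : WkA μ ν (ker Φ) α p K) :
    WkA (μ.restrict U) ν (ker Φ) α p K := by
  intro A hA f hf hf1 hfA G hG
  rw [Eo_restrict μ Φ U hU]
  have h1 := h (A ∩ U) (hA.inter hU) _ (hf.indicator hU) (ind_norm U f hf1) (fun y hy => by
    by_cases hyU : y ∈ U
    · rw [Set.indicator_of_mem hyU]
      exact hfA y fun hyA => hy ⟨hyA, hyU⟩
    · rw [Set.indicator_of_notMem hyU]) G hG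
  rw [measureReal_restrict_apply hA]
  exact h1

theorem Eo_congr' (Ψ : Y → EuclideanSpace ℝ (Fin d)) (h : Φ =ᵐ[μ] Ψ) (f : Y → ℂ) :
    Eo μ (ker Φ) f = Eo μ (ker Ψ) f := by
  ext x
  unfold Eo ker
  refine integral_congr_ae ?_
  filter_upwards [h] with y hy
  rw [hy]

theorem WkA_congr (Ψ : Y → EuclideanSpace ℝ (Fin d)) (h : Φ =ᵐ[μ] Ψ)
    (ν : Measure (EuclideanSpace ℝ (Fin d))) (α p K : ℝ)
    (hL : WkA μ ν (ker Φ) α p K) : WkA μ ν (ker Ψ) α p K := by
  intro A hA f hf hf1 hfA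
  rw [← Eo_congr' μ Φ Ψ h f]
  exact hL A hA f hf hf1 hfA

end Pool.Agent.N248.LC
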