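import Pool.Agent.N248.LC.Lvl
import Pool.Agent.N248.RC.Op

set_option autoImplicit false
set_option linter.unusedSectionVars false

/-!
# Random unions of cells and data in `L^q`: from restricted data to all data
-/

namespace Pool.Agent.N248.LC

open Finset MeasureTheory
open Pool.Agent.N248.RC
open scoped ENNReal

variable {d : ℕ} {Y : Type*} [MeasurableSpace Y] (μ : Measure Y) [IsFiniteMeasure μ]
  (Φ : Y → EuclideanSpace ℝ (Fin d))

/-- `f` vanishes off `S` and its norm in `L^q` is at most `1` -/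
def AdmQ (S : Set Y) (q : ℝ) (f : Y → ℂ) : Prop :=
  Measurable f ∧ (∀ y, y ∉ S → f y = 0) ∧ eLpNorm f (ENNReal.ofReal q) μ ≤ 1

/-- the norm of the extension operator from `L^q(S)` to `L^p(B_R)` -/
noncomputable def opQ (S : Set Y) (q p R : ℝ) : ℝ≥0∞ :=
  ⨆ (f : Y → ℂ) (_ : AdmQ μ S q f),
    eLpNorm (Eo μ (ker Φ) f) (ENNReal.ofReal p) (volume.restrict (Metric.ball 0 R))

theorem le_opQ (S : Set Y) (q p R : ℝ) (f : Y → ℂ) (hf : AdmQ μ S q f) :
    eLpNorm (Eo μ (ker Φ) f) (ENNReal.ofReal p) (volume.restrict (Metric.ball 0 R)) ≤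
      opQ μ Φ S q p R :=
  le_iSup₂ (f := fun (f : Y → ℂ) (_ : AdmQ μ S q f) =>
    eLpNorm (Eo μ (ker Φ) f) (ENNReal.ofReal p) (volume.restrict (Metric.ball 0 R))) f hf

theorem opQ_le (S : Set Y) (q p R : ℝ) (C : ℝ≥0∞) (h : ∀ f, AdmQ μ S q f →
    eLpNorm (Eo μ (ker Φ) f) (ENNReal.ofReal p) (volume.restrict (Metric.ball 0 R)) ≤ C) :
    opQ μ Φ S q p R ≤ C := iSup₂_le h

theorem opQ_mono (S T : Set Y) (h : S ⊆ T) (q p R : ℝ) : opQ μ Φ S q p R ≤ opQ μ Φ T q p R :=
  opQ_le μ Φ S q p R _ fun f hf => le_opQ μ Φ T q p R f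
    ⟨hf.1, fun y hy => hf.2.1 y fun hy2 => hy (h hy2), hf.2.2⟩

/-- the `q`-th power of the norm -/
theorem adm_lint (S : Set Y) (q : ℝ) (hq : 1 ≤ q) (f : Y → ℂ) (hf : AdmQ μ S q f) :
    ∫⁻ y, ‖f y‖ₑ ^ q ∂μ ≤ 1 := by
  have h := hf.2.2
  have hq0 : 0 < q := by linarith
  rw [eLpNorm_eq_lintegral_rpow_enorm_toReal (by
      rw [Ne, ENNReal.ofReal_eq_zero, not_le]; exact hq0) ENNReal.ofReal_ne_top,
    ENNReal.toReal_ofReal hq0.le] at h
  have h2 := ENNReal.rpow_le_rpow h hq0.le
  rw [← ENNReal.rpow_mul, one_div_mul_cancel hq0.ne', ENNReal.rpow_one, ENNReal.one_rpow] at h2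
  exact h2

theorem adm_int (S : Set Y) (q : ℝ) (hq : 1 ≤ q) (f : Y → ℂ) (hf : AdmQ μ S q f) :
    Integrable f μ := by
  have h : MemLp f (ENNReal.ofReal q) μ :=
    ⟨hf.1.aestronglyMeasurable, hf.2.2.trans_lt ENNReal.one_lt_top⟩
  refine h.integrable ?_
  rw [← ENNReal.ofReal_one]
  exact ENNReal.ofReal_le_ofReal hq

/-- Chebyshev's inequality -/
theorem adm_cheb (S : Set Y) (q : ℝ) (hq : 1 ≤ q) (f : Y → ℂ) (hf : AdmQ μ S q f) (c : ℝ)
    (hc : 0 < c) : c * μ.real {y | c < ‖f y‖} ^ (1 / q) ≤ 1 := by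
  have hq0 : 0 < q := by linarith
  have h := adm_lint μ S q hq f hf
  set D : Set Y := {y | c < ‖f y‖} with hD
  have hDm : MeasurableSet D := measurableSet_lt measurable_const hf.1.norm
  have h1 : ENNReal.ofReal (c ^ q) * μ D ≤ 1 := by
    refine le_trans ?_ h
    calc ENNReal.ofReal (c ^ q) * μ D = ∫⁻ y in D, ENNReal.ofReal (c ^ q) ∂μ := by
          rw [setLIntegral_const]
      _ ≤ ∫⁻ y in D, ‖f y‖ₑ ^ q ∂μ := by
          refine setLIntegral_mono' hDm fun y hy => ?_
          rw [← ofReal_norm, ENNReal.ofReal_rpow_of_nonneg (norm_nonneg _) hq0.le]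
          exact ENNReal.ofReal_le_ofReal (Real.rpow_le_rpow hc.le (le_of_lt hy) hq0.le)
      _ ≤ ∫⁻ y, ‖f y‖ₑ ^ q ∂μ := setLIntegral_le_lintegral _ _
  have h2 : c ^ q * μ.real D ≤ 1 := by
    have h3 := ENNReal.toReal_mono ENNReal.one_ne_top h1
    rw [ENNReal.toReal_mul, ENNReal.toReal_ofReal (by positivity), ENNReal.toReal_one] at h3
    exact h3
  have h4 : (c ^ q * μ.real D) ^ (1 / q) ≤ 1 :=
    Real.rpow_le_one (mul_nonneg (by positivity) measureReal_nonneg) h2 (by positivity)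
  rw [Real.mul_rpow (by positivity) measureReal_nonneg, ← Real.rpow_mul hc.le,
    mul_one_div_cancel hq0.ne', Real.rpow_one] at h4
  exact h4

/-- the high part is small -/
theorem adm_high (S : Set Y) (q : ℝ) (hq : 2 ≤ q) (f : Y → ℂ) (hf : AdmQ μ S q f) (c : ℝ)
    (hc : 1 ≤ c) : ∫ y in {y | c < ‖f y‖}, ‖f y‖ ∂μ ≤ 1 / c := by
  have hq0 : 0 < q := by linarith
  have hc0 : 0 < c := by linarith
  have h := adm_lint μ S q (by linarith) f hf
  set D : Set Y := {y | c < ‖f y‖} with hD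
  have hDm : MeasurableSet D := measurableSet_lt measurable_const hf.1.norm
  rw [integral_norm_eq_lintegral_enorm hf.1.aestronglyMeasurable]
  refine ENNReal.toReal_le_of_le_ofReal (by positivity) ?_
  have h1 : ∀ y ∈ D, ‖f y‖ₑ ≤ ENNReal.ofReal (1 / c) * ‖f y‖ₑ ^ q := by
    intro y hy
    have hy' : c < ‖f y‖ := hy
    rw [← ofReal_norm, ENNReal.ofReal_rpow_of_nonneg (norm_nonneg _) hq0.le,
      ← ENNReal.ofReal_mul (by positivity)]
    refine ENNReal.ofReal_le_ofReal ?_
    have h2 : ‖f y‖ ^ (2 : ℝ) ≤ ‖f y‖ ^ q :=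
      Real.rpow_le_rpow_of_exponent_le (by linarith) hq
    rw [Real.rpow_two] at h2
    rw [one_div, inv_mul_eq_div, le_div_iff₀ hc0]
    nlinarith
  calc ∫⁻ y in D, ‖f y‖ₑ ∂μ ≤ ∫⁻ y in D, ENNReal.ofReal (1 / c) * ‖f y‖ₑ ^ q ∂μ :=
        setLIntegral_mono' hDm h1
    _ ≤ ∫⁻ y, ENNReal.ofReal (1 / c) * ‖f y‖ₑ ^ q ∂μ := setLIntegral_le_lintegral _ _
    _ = ENNReal.ofReal (1 / c) * ∫⁻ y, ‖f y‖ₑ ^ q ∂μ := by
        rw [lintegral_const_mul _ (hf.1.enorm.pow_const q)]
    _ ≤ ENNReal.ofReal (1 / c) * 1 := mul_le_mul' le_rfl h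
    _ = _ := mul_one _

theorem ker_int (hΦ : Measurable Φ) (f : Y → ℂ) (hf : Integrable f μ)
    (x : EuclideanSpace ℝ (Fin d)) : Integrable (fun y => f y * ker Φ x y) μ := by
  have hm : Measurable (ker Φ x) := (ker_meas Φ hΦ).comp (measurable_const.prodMk measurable_id)
  refine Integrable.mono hf (hf.1.mul hm.aestronglyMeasurable) (Filter.Eventually.of_forall ?_)
  intro y
  rw [norm_mul]
  exact mul_le_of_le_one_right (norm_nonneg _) (ker_norm Φ x y)

theorem Eo_split (hΦ : Measurable Φ) (f g h : Y → ℂ) (hg : Integrable g μ) (hh : Integrable h μ)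
    (he : ∀ y, f y = g y + h y) : Eo μ (ker Φ) f = Eo μ (ker Φ) g + Eo μ (ker Φ) h := by
  ext x
  rw [Pi.add_apply]
  unfold Eo
  rw [← integral_add (ker_int μ Φ hΦ g hg x) (ker_int μ Φ hΦ h hh x)]
  refine integral_congr_ae (Filter.Eventually.of_forall fun y => ?_)
  simp only
  rw [he, add_mul]

theorem Eo_norm_le (f : Y → ℂ) (x : EuclideanSpace ℝ (Fin d)) (hf : Integrable f μ) :
    ‖Eo μ (ker Φ) f x‖ ≤ ∫ y, ‖f y‖ ∂μ := by
  unfold Eo
  refine (norm_integral_le_integral_norm _).trans ?_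
  refine integral_mono_of_nonneg (Filter.Eventually.of_forall fun y => norm_nonneg _) hf.norm
    (Filter.Eventually.of_forall fun y => ?_)
  simp only
  rw [norm_mul]
  exact mul_le_of_le_one_right (norm_nonneg _) (ker_norm Φ x y)

/-- **From restricted data to all data.** -/
theorem strongQ (hΦ : Measurable Φ) (S : Set Y) (hS : MeasurableSet S) (q p R Z V : ℝ)
    (hq : 2 ≤ q) (hp : 1 ≤ p) (hZ : 0 ≤ Z) (hV : 1 ≤ V) (hμV : μ.real Set.univ ≤ V)
    (hres : ∀ A : Set Y, MeasurableSet A → A ⊆ S → ∀ f : Y → ℂ, Measurable f → (∀ y, ‖f y‖ ≤ 1) →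
      (∀ y, y ∉ A → f y = 0) →
      eLpNorm (Eo μ (ker Φ) f) (ENNReal.ofReal p) (volume.restrict (Metric.ball 0 R)) ≤
        ENNReal.ofReal (Z * μ.real A ^ (1 / q)))
    (J : ℕ) (f : Y → ℂ) (hf : AdmQ μ S q f) :
    eLpNorm (Eo μ (ker Φ) f) (ENNReal.ofReal p) (volume.restrict (Metric.ball 0 R)) ≤
      ENNReal.ofReal (Z * (V + 2 * J)) +
        volume (Metric.ball (0 : EuclideanSpace ℝ (Fin d)) R) ^ (1 / p) *
          ENNReal.ofReal (1 / 2 ^ J) := by
  have hq0 : 0 < q := by linarith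
  have hp1 : (1 : ℝ≥0∞) ≤ ENNReal.ofReal p := by
    rw [← ENNReal.ofReal_one]
    exact ENNReal.ofReal_le_ofReal hp
  have hfi := adm_int μ S q (by linarith) f hf
  have hle : ∀ c : ℝ, MeasurableSet {y | ‖f y‖ ≤ c} := fun c =>
    measurableSet_le hf.1.norm measurable_const
  have hgt : ∀ c : ℝ, MeasurableSet {y | c < ‖f y‖} := fun c =>
    measurableSet_lt measurable_const hf.1.norm
  -- the low part
  have hlow : ∀ N : ℕ, eLpNorm (Eo μ (ker Φ) ({y | ‖f y‖ ≤ 2 ^ N}.indicator f)) (ENNReal.ofReal p)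
      (volume.restrict (Metric.ball 0 R)) ≤ ENNReal.ofReal (Z * (V + 2 * N)) := by
    intro N
    induction N with
    | zero =>
      refine (hres S hS subset_rfl _ (hf.1.indicator (hle _)) (fun y => ?_) fun y hy => ?_).trans ?_
      · by_cases hy : y ∈ {y | ‖f y‖ ≤ 2 ^ 0}
        · rw [Set.indicator_of_mem hy]
          have : ‖f y‖ ≤ 2 ^ 0 := hy
          simpa using this
        · rw [Set.indicator_of_notMem hy]; simp
      · exact Set.indicator_apply_eq_zero.2 fun _ => hf.2.1 y hy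
      · refine ENNReal.ofReal_le_ofReal (mul_le_mul_of_nonneg_left ?_ hZ)
        have h1 : μ.real S ≤ V := (measureReal_mono (Set.subset_univ _)).trans hμV
        calc μ.real S ^ (1 / q) ≤ V ^ (1 / q) :=
              Real.rpow_le_rpow measureReal_nonneg h1 (by positivity)
          _ ≤ V ^ (1 : ℝ) := Real.rpow_le_rpow_of_exponent_le hV (by
              rw [div_le_one hq0]; linarith)
          _ = V := Real.rpow_one _
          _ ≤ _ := by simp
    | succ N ih =>
      set c : ℝ := 2 ^ N with hc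
      have hc0 : 0 < c := by positivity
      have hc2 : (2 : ℝ) ^ (N + 1) = 2 * c := by rw [pow_succ, hc]; ring
      rw [hc2]
      set D : Set Y := {y | c < ‖f y‖ ∧ ‖f y‖ ≤ 2 * c} with hD
      have hDm : MeasurableSet D := (hgt c).inter (hle (2 * c))
      have hsplit := Eo_split μ Φ hΦ ({y | ‖f y‖ ≤ 2 * c}.indicator f)
        ({y | ‖f y‖ ≤ c}.indicator f) (D.indicator f) (hfi.indicator (hle _)) (hfi.indicator hDm)
        (fun y => by
          rcases le_or_gt ‖f y‖ c with h | h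
          · have h1 : ‖f y‖ ≤ 2 * c := by linarith
            rw [Set.indicator_of_mem (show y ∈ {y | ‖f y‖ ≤ 2 * c} from h1),
              Set.indicator_of_mem (show y ∈ {y | ‖f y‖ ≤ c} from h),
              Set.indicator_of_notMem (fun h2 : y ∈ D => absurd h2.1 (not_lt.2 h)), add_zero]
          · rw [Set.indicator_of_notMem (show y ∉ {y | ‖f y‖ ≤ c} from not_le.2 h), zero_add]
            by_cases h2 : ‖f y‖ ≤ 2 * c
            · rw [Set.indicator_of_mem (show y ∈ {y | ‖f y‖ ≤ 2 * c} from h2),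
                Set.indicator_of_mem (show y ∈ D from ⟨h, h2⟩)]
            · rw [Set.indicator_of_notMem (show y ∉ {y | ‖f y‖ ≤ 2 * c} from h2),
                Set.indicator_of_notMem (fun h3 : y ∈ D => h2 h3.2)])
      rw [hsplit]
      have hm1 := Eo_meas μ (ker Φ) (ker_meas Φ hΦ) _ (hf.1.indicator (hle c))
      have hm2 := Eo_meas μ (ker Φ) (ker_meas Φ hΦ) _ (hf.1.indicator hDm)
      refine (eLpNorm_add_le hm1.aestronglyMeasurable hm2.aestronglyMeasurable hp1).trans ?_
      have hlay : eLpNorm (Eo μ (ker Φ) (D.indicator f)) (ENNReal.ofReal p)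
          (volume.restrict (Metric.ball 0 R)) ≤ ENNReal.ofReal (2 * Z) := by
        set g : Y → ℂ := D.indicator fun y => (((2 * c)⁻¹ : ℝ) : ℂ) * f y with hg
        have hgm : Measurable g := (hf.1.const_mul _).indicator hDm
        have hg1 : ∀ y, ‖g y‖ ≤ 1 := by
          intro y
          by_cases hy : y ∈ D
          · rw [hg, Set.indicator_of_mem hy, norm_mul, Complex.norm_real,
              Real.norm_of_nonneg (by positivity), inv_mul_le_one₀ (by positivity)]
            exact hy.2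
          · rw [hg, Set.indicator_of_notMem hy]; simp
        have hgA : ∀ y, y ∉ D ∩ S → g y = 0 := by
          intro y hy
          by_cases hyD : y ∈ D
          · have hyS : y ∉ S := fun h => hy ⟨hyD, h⟩
            rw [hg, Set.indicator_of_mem hyD, hf.2.1 y hyS, mul_zero]
          · rw [hg, Set.indicator_of_notMem hyD]
        have h1 := hres (D ∩ S) (hDm.inter hS) Set.inter_subset_right g hgm hg1 hgA
        have h2 : Eo μ (ker Φ) (D.indicator f) = ((2 * c : ℝ) : ℂ) • Eo μ (ker Φ) g := by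
          ext x
          rw [Pi.smul_apply, smul_eq_mul]
          unfold Eo
          rw [← integral_const_mul]
          refine integral_congr_ae (Filter.Eventually.of_forall fun y => ?_)
          simp only
          by_cases hy : y ∈ D
          · rw [hg, Set.indicator_of_mem hy, Set.indicator_of_mem hy, ← mul_assoc, ← mul_assoc,
              ← Complex.ofReal_mul, mul_inv_cancel₀ (by positivity), Complex.ofReal_one, one_mul]
          · rw [hg, Set.indicator_of_notMem hy, Set.indicator_of_notMem hy]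
            simp
        rw [h2, eLpNorm_const_smul]
        have h3 : ‖((2 * c : ℝ) : ℂ)‖ₑ = ENNReal.ofReal (2 * c) := by
          rw [← ofReal_norm, Complex.norm_real, Real.norm_of_nonneg (by positivity)]
        rw [h3]
        refine (mul_le_mul' le_rfl h1).trans ?_
        rw [← ENNReal.ofReal_mul (by positivity)]
        refine ENNReal.ofReal_le_ofReal ?_
        have h4 : c * μ.real (D ∩ S) ^ (1 / q) ≤ 1 := by
          refine le_trans ?_ (adm_cheb μ S q (by linarith) f hf c hc0)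
          refine mul_le_mul_of_nonneg_left ?_ hc0.le
          exact Real.rpow_le_rpow measureReal_nonneg
            (measureReal_mono fun y hy => hy.1.1) (by positivity)
        calc 2 * c * (Z * μ.real (D ∩ S) ^ (1 / q)) = 2 * Z * (c * μ.real (D ∩ S) ^ (1 / q)) := by
              ring
          _ ≤ 2 * Z * 1 := mul_le_mul_of_nonneg_left h4 (by positivity)
          _ = 2 * Z := mul_one _
      refine (add_le_add ih hlay).trans ?_
      rw [← ENNReal.ofReal_add (by positivity) (by positivity)]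
      refine ENNReal.ofReal_le_ofReal (le_of_eq ?_)
      push_cast
      ring
  -- the high part
  set c : ℝ := 2 ^ J with hc
  have hc1 : 1 ≤ c := one_le_pow₀ (by norm_num)
  have hsplit := Eo_split μ Φ hΦ f ({y | ‖f y‖ ≤ c}.indicator f) ({y | c < ‖f y‖}.indicator f)
    (hfi.indicator (hle _)) (hfi.indicator (hgt _)) (fun y => by
      rcases le_or_gt ‖f y‖ c with h | h
      · rw [Set.indicator_of_mem (show y ∈ {y | ‖f y‖ ≤ c} from h),
          Set.indicator_of_notMem (show y ∉ {y | c < ‖f y‖} from not_lt.2 h), add_zero]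
      · rw [Set.indicator_of_notMem (show y ∉ {y | ‖f y‖ ≤ c} from not_le.2 h),
          Set.indicator_of_mem (show y ∈ {y | c < ‖f y‖} from h), zero_add])
  rw [hsplit]
  have hm1 := Eo_meas μ (ker Φ) (ker_meas Φ hΦ) _ (hf.1.indicator (hle c))
  have hm2 := Eo_meas μ (ker Φ) (ker_meas Φ hΦ) _ (hf.1.indicator (hgt c))
  refine (eLpNorm_add_le hm1.aestronglyMeasurable hm2.aestronglyMeasurable hp1).trans ?_
  refine add_le_add (hlow J) ?_
  have hb : ∀ x, ‖Eo μ (ker Φ) ({y | c < ‖f y‖}.indicator f) x‖ ≤ 1 / c := by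
    intro x
    refine (Eo_norm_le μ Φ _ x (hfi.indicator (hgt c))).trans ?_
    refine le_trans (le_of_eq ?_) (adm_high μ S q hq f hf c hc1)
    rw [← integral_indicator (hgt c)]
    refine integral_congr_ae (Filter.Eventually.of_forall fun y => ?_)
    simp only
    exact norm_indicator_eq_indicator_norm _ _
  refine (eLpNorm_le_of_ae_bound (Filter.Eventually.of_forall hb)).trans (le_of_eq ?_)
  rw [Measure.restrict_apply_univ, ENNReal.toReal_ofReal (by linarith), one_div p]

end Pool.Agent.N248.LC
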